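import Pool.Agent.T6.H66.SC.Defs

/-!
# Project SC, module AVG: the single scale statement averaged over the scales
-/

open MeasureTheory Set Real Filter Topology

namespace Pool.Agent.T6.H66.SC.AVG

open Pool.Agent.T6.H66.SC

theorem al_be {a b : ℝ} (hab : a < b) :
    al a b ≤ be a b ∧ Icc (al a b) (be a b) ⊆ Icc a b := by
  unfold al be
  refine ⟨by linarith, fun s hs => ⟨by linarith [hs.1], by linarith [hs.2]⟩⟩

theorem u_ne {κ0 a b r : ℝ} {u : ℝ → ℝ} (hκ : 0 < κ0) (hab : a < b) (hr : 0 ≤ r)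
    (h : ¬ Nr κ0 a b u r) (s : ℝ) (hs : s ∈ Icc (al a b) (be a b)) : u s ≠ 0 := by
  intro h0
  apply h
  refine ⟨s, hs, ?_⟩
  rw [h0, abs_zero]
  have : 0 < b - a := by linarith
  positivity

theorem prodint {α β R1 R2 : ℝ} (w u : ℝ → ℝ) (hw : ContinuousOn w (Icc α β))
    (hu : ContinuousOn u (Icc α β)) (h0 : ∀ s ∈ Icc α β, u s ≠ 0) (hR : 0 < R1) :
    Integrable (Function.uncurry fun s R => w s * (idl (u s) R / R))
      ((volume.restrict (Ioc α β)).prod (volume.restrict (Ioc R1 R2))) := by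
  rw [Measure.prod_restrict, ← Measure.volume_eq_prod]
  have hc : ContinuousOn (Function.uncurry fun s R => w s * (idl (u s) R / R))
      (Icc α β ×ˢ Icc R1 R2) := by
    have hm : MapsTo (Prod.fst : ℝ × ℝ → ℝ) (Icc α β ×ˢ Icc R1 R2) (Icc α β) :=
      fun p hp => hp.1
    have h1 : ContinuousOn (fun p : ℝ × ℝ => w p.1) (Icc α β ×ˢ Icc R1 R2) :=
      hw.comp continuousOn_fst hm
    have h2 : ContinuousOn (fun p : ℝ × ℝ => u p.1) (Icc α β ×ˢ Icc R1 R2) :=
      hu.comp continuousOn_fst hm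
    have h3 : ContinuousOn (fun p : ℝ × ℝ => p.2) (Icc α β ×ˢ Icc R1 R2) := continuousOn_snd
    have h4 : ∀ p ∈ Icc α β ×ˢ Icc R1 R2, p.2 ≠ 0 := fun p hp =>
      (lt_of_lt_of_le hR hp.2.1).ne'
    have h5 : ∀ p ∈ Icc α β ×ˢ Icc R1 R2, π * u p.1 ≠ 0 := fun p hp =>
      mul_ne_zero pi_ne_zero (h0 _ hp.1)
    have h6 : ContinuousOn (fun p : ℝ × ℝ => π * u p.1) (Icc α β ×ˢ Icc R1 R2) :=
      continuousOn_const.mul h2
    exact h1.mul ((h3.mul (((continuous_sin.comp_continuousOn (h6.div h3 h4)).div h6 h5).pow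
      2)).div h3 h4)
  exact (hc.integrableOn_compact (isCompact_Icc.prod isCompact_Icc)).mono_set
    (prod_mono Ioc_subset_Icc_self Ioc_subset_Icc_self)

theorem swap {α β R1 R2 : ℝ} (w u : ℝ → ℝ) (hw : ContinuousOn w (Icc α β))
    (hu : ContinuousOn u (Icc α β)) (h0 : ∀ s ∈ Icc α β, u s ≠ 0) (hR : 0 < R1) (hαβ : α ≤ β)
    (hR12 : R1 ≤ R2) :
    (∫ s in α..β, w s * ∫ R in R1..R2, idl (u s) R / R) =
      ∫ R in R1..R2, ∫ s in α..β, w s * (idl (u s) R / R) := by
  rw [intervalIntegral.integral_of_le hαβ, intervalIntegral.integral_of_le hR12]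
  simp only [intervalIntegral.integral_of_le hαβ, intervalIntegral.integral_of_le hR12]
  rw [← integral_integral_swap (prodint w u hw hu h0 hR)]
  refine integral_congr_ae (Eventually.of_forall fun s => ?_)
  simp only []
  rw [integral_const_mul]

theorem meas {α β R1 R2 : ℝ} (w u : ℝ → ℝ) (hw : ContinuousOn w (Icc α β))
    (hu : ContinuousOn u (Icc α β)) (h0 : ∀ s ∈ Icc α β, u s ≠ 0) (hR : 0 < R1) (hαβ : α ≤ β)
    (hR12 : R1 ≤ R2) :
    AEStronglyMeasurable (fun R => ∫ s in α..β, w s * (idl (u s) R / R))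
      (volume.restrict (uIoc R1 R2)) := by
  rw [uIoc_of_le hR12]
  simp only [intervalIntegral.integral_of_le hαβ]
  exact (prodint w u hw hu h0 hR).integral_prod_right.aestronglyMeasurable

end Pool.Agent.T6.H66.SC.AVG

namespace Pool.Agent.T6.H66.SC.AVG

open Pool.Agent.T6.H66.SC

theorem avg (hSNG : StmSNG) (hNON : StmNON) (hTRV : StmTRV) (hCNT : StmCNT) (hSUM : StmSUM) :
    StmAVG := by
  intro κ0 κ1 a b κ κ' hA ι _ A Φ u v r hA0 hS hP w hw hw0 ε hε
  obtain ⟨R0, hR0, hsng⟩ := hSNG κ0 κ1 a b κ κ' hA ι A Φ u v r hA0 hS hP w hw hw0 ε hε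
  obtain ⟨C, hC, R0', hR0', hnon⟩ := hNON κ0 κ1 a b κ κ' hA
  obtain ⟨-, htrv⟩ := hTRV κ0 κ1 a b κ κ' hA
  obtain ⟨Cc, hCc, ρ, hρ, hcnt⟩ := hCNT κ0 κ1 a b κ κ' hA ι A Φ u v r hA0 hS hP
  have hsum := hSUM ι r Cc ρ hCc hρ hcnt ρ le_rfl
  obtain ⟨hαβ, hsub⟩ := al_be hA.hab
  set α := al a b
  set β := be a b
  refine ⟨max R0 (max R0' 1), le_max_of_le_left hR0, fun R1 hR1 R2 hR2 => ?_⟩
  have h1R0 : R0 ≤ R1 := (le_max_left _ _).trans hR1
  have h1R0' : R0' ≤ R1 := ((le_max_left _ _).trans (le_max_right _ _)).trans hR1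
  have h11 : 1 ≤ R1 := hR0.trans h1R0
  have hR1pos : 0 < R1 := by linarith
  have hu : ∀ i, ContinuousOn (u i) (Icc α β) := fun i s hs =>
    ((hS i).du s (hsub hs)).continuousAt.continuousWithinAt
  have hne : ∀ i : {i // ¬ Nr κ0 a b (u i) (r i)}, ∀ s ∈ Icc α β, u i s ≠ 0 := fun i =>
    u_ne hA.pos hA.hab (hS i).rnn i.2
  -- bound of the weight
  obtain ⟨W, hW⟩ := isCompact_Icc.exists_bound_of_continuousOn hw
  have hW0 : 0 ≤ W := (norm_nonneg _).trans (hW α ⟨le_rfl, hαβ⟩)
  -- the bounds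
  set m : ι → ℝ := fun i => if r i ≤ ρ then 1 else C / r i ^ 2 with hm
  have hm0 : ∀ i, 0 ≤ m i := by
    intro i
    rw [hm]
    simp only []
    split_ifs
    · exact zero_le_one
    · positivity
  have hmsum : Summable fun i : {i // ¬ Nr κ0 a b (u i) (r i)} => m i := by
    refine summable_of_sum_le (c := Cc * ρ + C * (8 * Cc / ρ)) (fun i => hm0 i) fun F => ?_
    have e1 : ∑ i ∈ F, m i = ∑ i ∈ F.map (Function.Embedding.subtype _), m i := by
      rw [Finset.sum_map]
      rfl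
    rw [e1, hm]
    simp only []
    rw [Finset.sum_ite]
    refine add_le_add ?_ ?_
    · rw [Finset.sum_const, nsmul_eq_mul, mul_one]
      exact hcnt ρ le_rfl _ fun i hi => (Finset.mem_filter.1 hi).2
    · have := hsum ((F.map (Function.Embedding.subtype _)).filter fun i => ¬ r i ≤ ρ)
        fun i hi => not_le.1 (Finset.mem_filter.1 hi).2
      calc _ = C * ∑ i ∈ (F.map (Function.Embedding.subtype _)).filter fun i => ¬ r i ≤ ρ,
            1 / r i ^ 2 := by
            rw [Finset.mul_sum]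
            refine Finset.sum_congr rfl fun i _ => ?_
            ring
        _ ≤ _ := mul_le_mul_of_nonneg_left this hC.le
  have hidl : ∀ i : {i // ¬ Nr κ0 a b (u i) (r i)}, ∀ R, R1 ≤ R → ∀ s ∈ Icc α β,
      0 ≤ idl (u i s) R / R ∧ idl (u i s) R / R ≤ m i := by
    intro i R hR s hs
    have hRpos : 0 < R := by linarith
    obtain ⟨t1, t2⟩ := htrv (u i s) R hRpos
    refine ⟨div_nonneg t1 hRpos.le, ?_⟩
    rw [hm]
    simp only []
    split_ifs with h
    · rw [div_le_one hRpos]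
      refine t2.trans ?_
      rw [div_le_iff₀ hRpos]
      nlinarith
    · rw [div_le_iff₀ hRpos]
      have := (hnon (Φ i) (u i) (v i) (r i) (hS i) i.2 R (by linarith) s hs).2.2
      refine this.trans (le_of_eq ?_)
      ring
  have hFb : ∀ i : {i // ¬ Nr κ0 a b (u i) (r i)}, ∀ R, R1 ≤ R →
      ‖∫ s in α..β, w s * (idl (u i s) R / R)‖ ≤ W * (β - α) * m i := by
    intro i R hR
    have := intervalIntegral.norm_integral_le_of_norm_le_const (a := α) (b := β)
      (f := fun s => w s * (idl (u i s) R / R)) (C := W * m i) fun s hs => by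
        rw [uIoc_of_le hαβ] at hs
        have hs' : s ∈ Icc α β := Ioc_subset_Icc_self hs
        obtain ⟨b1, b2⟩ := hidl i R hR s hs'
        rw [norm_mul, Real.norm_of_nonneg b1]
        exact mul_le_mul (hW s hs') b2 b1 hW0
    rw [abs_of_nonneg (by linarith)] at this
    linarith
  have hI : ∀ i : {i // ¬ Nr κ0 a b (u i) (r i)}, ∀ R,
      ∫ s in α..β, w s * (idl (u i s) R / R) = (∫ s in α..β, w s * idl (u i s) R) / R := by
    intro i R
    rw [← intervalIntegral.integral_div]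
    refine intervalIntegral.integral_congr fun s _ => ?_
    ring
  have hmain := intervalIntegral.hasSum_integral_of_dominated_convergence
    (μ := volume) (a := R1) (b := R2)
    (F := fun (i : {i // ¬ Nr κ0 a b (u i) (r i)}) R => ∫ s in α..β, w s * (idl (u i s) R / R))
    (f := fun R => (∑' i : {i // ¬ Nr κ0 a b (u i) (r i)},
        ∫ s in α..β, w s * idl (u i s) R) / R)
    (fun i _ => W * (β - α) * m i)
    (fun i => meas w (u i) hw (hu i) (hne i) hR1pos hαβ hR2)
    (fun i => Eventually.of_forall fun R hR => by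
      rw [uIoc_of_le hR2] at hR
      exact hFb i R hR.1.le)
    (Eventually.of_forall fun R _ => hmsum.mul_left _)
    intervalIntegrable_const
    (Eventually.of_forall fun R hR => by
      rw [uIoc_of_le hR2] at hR
      simp only [hI]
      exact ((hsng R (h1R0.trans hR.1.le)).1.hasSum).div_const R)
  have hJ : ∀ i : {i // ¬ Nr κ0 a b (u i) (r i)},
      (∫ R in R1..R2, ∫ s in α..β, w s * (idl (u i s) R / R)) =
        ∫ s in α..β, w s * ∫ R in R1..R2, idl (u i s) R / R := fun i =>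
    (swap w (u i) hw (hu i) (hne i) hR1pos hαβ hR2).symm
  simp only [hJ] at hmain
  refine ⟨hmain.summable, ?_⟩
  rw [hmain.tsum_eq]
  have hlog : ∫ R in R1..R2, ε / R = ε * log (R2 / R1) := by
    have : ∀ R : ℝ, ε / R = ε * R⁻¹ := fun R => div_eq_mul_inv _ _
    simp only [this]
    rw [intervalIntegral.integral_const_mul, integral_inv_of_pos hR1pos (hR1pos.trans_le hR2)]
  rw [← hlog, ← Real.norm_eq_abs]
  refine intervalIntegral.norm_integral_le_of_norm_le hR2 (Eventually.of_forall fun R hR => ?_) ?_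
  · have hRpos : 0 < R := by linarith [hR.1]
    rw [norm_div, Real.norm_of_nonneg hRpos.le, Real.norm_eq_abs]
    exact div_le_div_of_nonneg_right (hsng R (h1R0.trans hR.1.le)).2 hRpos.le
  · refine ContinuousOn.intervalIntegrable ?_
    rw [uIcc_of_le hR2]
    exact continuousOn_const.div continuousOn_id fun R hR => (hR1pos.trans_le hR.1).ne'

end Pool.Agent.T6.H66.SC.AVG
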