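import Pool.Agent.T6.H66.SC.Defs

set_option autoImplicit false

/-!
# Module CNT: there are few frequencies in balls
-/

namespace Pool.Agent.T6.H66.SC.CNT

open Pool.Agent.T6.H66.SC Set Real

theorem norm_E (Φ : ℝ → ℝ) (x : ℝ) : ‖E Φ x‖ = 1 := Complex.norm_exp_ofReal_mul_I _

theorem E_sub (Φ : ℝ → ℝ) (x y : ℝ) : ‖E Φ x - E Φ y‖ ≤ 2 * π * |Φ x - Φ y| := by
  have h1 : E Φ x = E Φ y * Complex.exp (Complex.I * ((-(2 * π * (Φ x - Φ y)) : ℝ) : ℂ)) := by
    unfold E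
    rw [← Complex.exp_add]
    congr 1
    push_cast
    ring
  have h2 : E Φ x - E Φ y =
      E Φ y * (Complex.exp (Complex.I * ((-(2 * π * (Φ x - Φ y)) : ℝ) : ℂ)) - 1) := by
    rw [h1]; ring
  rw [h2, norm_mul, norm_E, one_mul]
  refine (Real.norm_exp_I_mul_ofReal_sub_one_le).trans (le_of_eq ?_)
  rw [Real.norm_eq_abs, abs_neg, abs_mul, abs_of_pos (by positivity)]

theorem Phi_sub {a b r : ℝ} {κ Φ u v : ℝ → ℝ} (h : Sys a b κ Φ u v r) (x : ℝ)
    (hx : x ∈ Icc a b) : |Φ x - Φ a| ≤ r * (x - a) := by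
  have hu : ∀ s ∈ Icc a b, ‖u s‖ ≤ r := by
    intro s hs
    have h1 := h.sq s hs
    rw [Real.norm_eq_abs]
    apply abs_le_of_sq_le_sq _ h.rnn
    nlinarith [sq_nonneg (v s)]
  have h1 := Convex.norm_image_sub_le_of_norm_hasDerivWithin_le (f := Φ) (f' := u) (s := Icc a b)
    (C := r) (fun s hs => (h.dΦ s hs).hasDerivWithinAt) hu (convex_Icc a b)
    (left_mem_Icc.2 (hx.1.trans hx.2)) hx
  rw [Real.norm_eq_abs, Real.norm_eq_abs, abs_of_nonneg (sub_nonneg.2 hx.1)] at h1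
  exact h1

theorem cont_E {a b r : ℝ} {κ Φ u v : ℝ → ℝ} (h : Sys a b κ Φ u v r) :
    ContinuousOn (E Φ) (Icc a b) := by
  have h1 : ContinuousOn Φ (Icc a b) := fun s hs => (h.dΦ s hs).continuousAt.continuousWithinAt
  unfold E
  fun_prop

theorem low {a b r δ : ℝ} {κ Φ u v : ℝ → ℝ} (h : Sys a b κ Φ u v r) (hδ : 0 ≤ δ)
    (hab : a + δ ≤ b) (hr : 2 * π * (r * δ) ≤ 1 / 2) : δ / 2 ≤ ‖G Φ a (a + δ)‖ := by
  have hint : IntervalIntegrable (E Φ) MeasureTheory.volume a (a + δ) := by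
    apply ContinuousOn.intervalIntegrable
    rw [uIcc_of_le (by linarith)]
    exact (cont_E h).mono (Icc_subset_Icc le_rfl hab)
  have h1 : G Φ a (a + δ) - (δ : ℂ) * E Φ a = ∫ x in a..(a + δ), (E Φ x - E Φ a) := by
    rw [intervalIntegral.integral_sub hint (by simp), intervalIntegral.integral_const]
    simp [G]
  have h2 : ‖∫ x in a..(a + δ), (E Φ x - E Φ a)‖ ≤ 1 / 2 * |a + δ - a| := by
    apply intervalIntegral.norm_integral_le_of_norm_le_const
    intro x hx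
    rw [uIoc_of_le (by linarith)] at hx
    have h3 := Phi_sub h x ⟨hx.1.le, hx.2.trans hab⟩
    have h4 : |Φ x - Φ a| ≤ r * δ :=
      h3.trans (mul_le_mul_of_nonneg_left (by linarith [hx.2]) h.rnn)
    have h5 := E_sub Φ x a
    have h6 : 2 * π * |Φ x - Φ a| ≤ 2 * π * (r * δ) :=
      mul_le_mul_of_nonneg_left h4 (by positivity)
    linarith
  rw [← h1, add_sub_cancel_left, abs_of_nonneg hδ] at h2
  have h3 : ‖(δ : ℂ) * E Φ a‖ = δ := by
    rw [norm_mul, norm_E, mul_one, Complex.norm_real, Real.norm_eq_abs, abs_of_nonneg hδ]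
  have h4 := norm_sub_norm_le ((δ : ℂ) * E Φ a) (G Φ a (a + δ))
  rw [norm_sub_rev] at h4
  linarith

/-- Module CNT. -/
theorem cnt : StmCNT := by
  intro κ0 κ1 a b κ κ' hArc ι A Φ u v r hA hSys hP
  have hL : 0 < b - a := sub_pos.2 hArc.hab
  refine ⟨64 * A, by positivity, max 1 (1 / (16 * (b - a))), le_max_left _ _, ?_⟩
  intro x hx F hF
  have hx1 : 1 ≤ x := (le_max_left _ _).trans hx
  have hx2 : 1 / (16 * (b - a)) ≤ x := (le_max_right _ _).trans hx
  have hx0 : 0 < x := by linarith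
  set δ := 1 / (16 * x) with hδ
  have hδ0 : 0 < δ := by positivity
  have hδb : a + δ ≤ b := by
    have h1 : 1 ≤ x * (16 * (b - a)) := by
      rw [div_le_iff₀ (by positivity)] at hx2
      exact hx2
    have h2 : δ ≤ b - a := by
      rw [hδ, div_le_iff₀ (by positivity)]
      linarith
    linarith
  have h1 : ∀ i ∈ F, δ ^ 2 / 4 ≤ ‖G (Φ i) a (a + δ)‖ ^ 2 := by
    intro i hi
    have h2 : 2 * π * (r i * δ) ≤ 1 / 2 := by
      have h3 : r i * δ ≤ x * δ := mul_le_mul_of_nonneg_right (hF i hi) hδ0.le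
      have h4 : x * δ = 1 / 16 := by
        rw [hδ]; field_simp
      have h5 := Real.pi_le_four
      have h6 : 0 ≤ r i * δ := mul_nonneg (hSys i).rnn hδ0.le
      nlinarith [Real.pi_pos]
    have h3 := low (hSys i) hδ0.le hδb h2
    calc δ ^ 2 / 4 = (δ / 2) ^ 2 := by ring
      _ ≤ _ := pow_le_pow_left₀ (by positivity) h3 2
  have h2 := hP a (a + δ) le_rfl (by linarith) hδb
  have h3 := sum_le_hasSum F (fun i _ => by positivity) h2
  have h4 : (F.card : ℝ) * (δ ^ 2 / 4) ≤ A * (a + δ - a) := by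
    refine le_trans ?_ h3
    rw [← nsmul_eq_mul, ← Finset.sum_const]
    exact Finset.sum_le_sum h1
  rw [add_sub_cancel_left] at h4
  have h5 : (F.card : ℝ) * δ ≤ 4 * A := by
    have h6 : ((F.card : ℝ) * δ) * δ ≤ (4 * A) * δ := by nlinarith
    exact le_of_mul_le_mul_right h6 hδ0
  rw [hδ, mul_one_div, div_le_iff₀ (by positivity)] at h5
  linarith

end Pool.Agent.T6.H66.SC.CNT
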