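import Pool.Agent.T6.H66.SC.Defs

/-!
Project SC (helper66), MP_e9ccd1_an: module CONV (helper41).
-/

open MeasureTheory Set Real Filter Topology

namespace Pool.Agent.T6.H66.SC.CONV

open Pool.Agent.T6.H66.SC

/-- `(x - A)(B - x)` -/
def q (A B x : ℝ) : ℝ := (x - A) * (B - x)

def eta (A B x : ℝ) : ℝ := q A B x ^ 3
def eta1 (A B x : ℝ) : ℝ := 3 * q A B x ^ 2 * (A + B - 2 * x)
def eta2 (A B x : ℝ) : ℝ := 6 * q A B x * (A + B - 2 * x) ^ 2 - 6 * q A B x ^ 2

theorem q_der (A B x : ℝ) : HasDerivAt (q A B) (A + B - 2 * x) x := by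
  unfold q
  have h1 : HasDerivAt (fun x : ℝ => x - A) 1 x := (hasDerivAt_id x).sub_const A
  have h2 : HasDerivAt (fun x : ℝ => B - x) (-1) x := by
    simpa using (hasDerivAt_id x).const_sub B
  exact (h1.mul h2).congr_deriv (by ring)

theorem eta_der (A B x : ℝ) : HasDerivAt (eta A B) (eta1 A B x) x := by
  unfold eta
  exact ((q_der A B x).pow 3).congr_deriv (by unfold eta1; push_cast; ring)

theorem eta1_der (A B x : ℝ) : HasDerivAt (eta1 A B) (eta2 A B x) x := by
  have h1 : HasDerivAt (fun x : ℝ => A + B - 2 * x) (-2) x := by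
    simpa using ((hasDerivAt_id x).const_mul 2).const_sub (A + B)
  have h2 := ((q_der A B x).pow 2).const_mul 3
  have h3 := h2.mul h1
  unfold eta1
  refine h3.congr_deriv ?_
  unfold eta2
  simp only [Pi.pow_apply]
  push_cast
  ring

theorem sign_const {u : ℝ → ℝ} {A B : ℝ} (hc : ContinuousOn u (Icc A B))
    (hne : ∀ x ∈ Icc A B, u x ≠ 0) :
    (∀ x ∈ Icc A B, 0 < u x) ∨ (∀ x ∈ Icc A B, u x < 0) := by
  by_contra hcon
  push Not at hcon
  obtain ⟨⟨x, hx, hx'⟩, y, hy, hy'⟩ := hcon
  obtain ⟨z, hz, hz'⟩ := isPreconnected_Icc.intermediate_value hx hy hc ⟨hx', hy'⟩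
  exact hne z hz hz'

theorem exists_sign {u : ℝ → ℝ} {A B : ℝ} (hc : ContinuousOn u (Icc A B))
    (hne : ∀ x ∈ Icc A B, u x ≠ 0) :
    ∃ sg : ℝ, sg ^ 2 = 1 ∧ ∀ x ∈ Icc A B, |u x| = sg * u x ∧ 0 < sg * u x := by
  rcases sign_const hc hne with h | h
  · refine ⟨1, by norm_num, fun x hx => ⟨?_, ?_⟩⟩
    · rw [abs_of_pos (h x hx), one_mul]
    · rw [one_mul]; exact h x hx
  · refine ⟨-1, by norm_num, fun x hx => ⟨?_, ?_⟩⟩
    · rw [abs_of_neg (h x hx)]; ring
    · have := h x hx
      linarith

/-- the pointwise derivative of the primitive -/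
theorem H_der {A B : ℝ} {κ κ' u v : ℝ → ℝ} {sg x : ℝ} (hsg : sg ^ 2 = 1) (hκ0 : κ x ≠ 0)
    (hu0 : u x ≠ 0) (hκ : HasDerivAt κ (κ' x) x) (hu : HasDerivAt u (κ x * v x) x)
    (hv : HasDerivAt v (-(κ x * u x)) x) :
    HasDerivAt (fun x => eta1 A B x / κ x / (sg * u x) + sg * (eta A B x * v x / u x ^ 2))
      ((eta2 A B x / κ x - eta1 A B x * κ' x / κ x ^ 2) / (sg * u x) -
        sg * eta A B x * κ x * (u x ^ 2 + 2 * v x ^ 2) / u x ^ 3) x := by
  have hs0 : sg ≠ 0 := by
    rintro rfl
    norm_num at hsg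
  have h1 := (eta1_der A B x).div hκ hκ0
  have h2 : HasDerivAt (fun x => sg * u x) (sg * (κ x * v x)) x := hu.const_mul sg
  have h3 := h1.div h2 (mul_ne_zero hs0 hu0)
  have h4 := (((eta_der A B x).mul hv).div (hu.pow 2) (pow_ne_zero 2 hu0)).const_mul sg
  have h5 := h3.add h4
  refine h5.congr_deriv ?_
  have e1 : (sg * u x) ^ 2 = u x ^ 2 := by rw [mul_pow, hsg, one_mul]
  have e4 : ∀ y : ℝ, y / (sg * u x) = sg * y / u x := by
    intro y
    rw [div_eq_div_iff (mul_ne_zero hs0 hu0) hu0]
    linear_combination (-y * u x) * hsg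
  rw [e1, e4]
  simp only [Pi.pow_apply, Pi.mul_apply, Pi.div_apply]
  push_cast
  field_simp
  ring

theorem conv : StmCONV := by
  intro κ0 κ1 a b κ κ' h
  set A := al a b with hAdef
  set B := be a b with hBdef
  have hab := h.hab
  have hA : A = a + (b - a) / 4 := rfl
  have hB : B = b - (b - a) / 4 := rfl
  have hAB : A < B := by linarith
  have hsub : Icc A B ⊆ Icc a b := Icc_subset_Icc (by linarith) (by linarith)
  have hκpos : ∀ x ∈ Icc A B, 0 < κ x := fun x hx => h.pos.trans_le (h.lo x (hsub hx))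
  have hκc : ContinuousOn κ (Icc A B) := fun x hx =>
    (h.der x (hsub hx)).continuousAt.continuousWithinAt
  have hκ'c : ContinuousOn κ' (Icc A B) := h.cont.mono hsub
  have hec : Continuous (eta A B) := continuous_iff_continuousAt.2 fun x =>
    (eta_der A B x).continuousAt
  have he1c : Continuous (eta1 A B) := continuous_iff_continuousAt.2 fun x =>
    (eta1_der A B x).continuousAt
  have he2c : Continuous (eta2 A B) := by
    have hq : Continuous (q A B) := continuous_iff_continuousAt.2 fun x =>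
      (q_der A B x).continuousAt
    unfold eta2
    fun_prop
  have hwc : ContinuousOn (fun x => eta2 A B x / κ x - eta1 A B x * κ' x / κ x ^ 2)
      (Icc A B) := by
    refine (he2c.continuousOn.div hκc fun x hx => (hκpos x hx).ne').sub
      ((he1c.continuousOn.mul hκ'c).div (hκc.pow 2) fun x hx => (pow_pos (hκpos x hx) 2).ne')
  have huI : uIcc A B = Icc A B := uIcc_of_le hAB.le
  have hqA : q A B A = 0 := by unfold q; ring
  have hqB : q A B B = 0 := by unfold q; ring
  have heA : eta A B A = 0 := by unfold eta; rw [hqA]; ring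
  have heB : eta A B B = 0 := by unfold eta; rw [hqB]; ring
  have he1A : eta1 A B A = 0 := by unfold eta1; rw [hqA]; ring
  have he1B : eta1 A B B = 0 := by unfold eta1; rw [hqB]; ring
  refine ⟨fun x => eta2 A B x / κ x - eta1 A B x * κ' x / κ x ^ 2, hwc, ?_, ?_⟩
  · have hd : ∀ x ∈ uIcc A B, HasDerivAt (fun x => eta1 A B x / κ x)
        (eta2 A B x / κ x - eta1 A B x * κ' x / κ x ^ 2) x := by
      intro x hx
      rw [huI] at hx
      have h0 := (hκpos x hx).ne'
      refine ((eta1_der A B x).div (h.der x (hsub hx)) h0).congr_deriv ?_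
      field_simp
    rw [intervalIntegral.integral_eq_sub_of_hasDerivAt hd
      (by rw [← huI] at hwc; exact hwc.intervalIntegrable), he1A, he1B]
    simp
  · refine ⟨κ0 * ∫ x in A..B, eta A B x, ?_, ?_⟩
    · refine mul_pos h.pos ?_
      refine intervalIntegral.intervalIntegral_pos_of_pos_on (hec.intervalIntegrable _ _) ?_ hAB
      intro x hx
      unfold eta q
      have h1 := sub_pos.2 hx.1
      have h2 := sub_pos.2 hx.2
      positivity
    · intro Φ u v r hS hN
      have hne : ∀ x ∈ Icc A B, κ0 * (b - a) / 8 * r < |u x| := by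
        intro x hx
        by_contra hcon
        exact hN ⟨x, hx, not_lt.1 hcon⟩
      have hr0 := hS.rnn
      have hk0 := h.pos
      have hba : 0 < b - a := by linarith
      have hupos : ∀ x ∈ Icc A B, 0 < |u x| := fun x hx =>
        lt_of_le_of_lt (by positivity) (hne x hx)
      have hune : ∀ x ∈ Icc A B, u x ≠ 0 := fun x hx => abs_pos.1 (hupos x hx)
      have hule : ∀ x ∈ Icc A B, |u x| ≤ r := fun x hx => by
        have := hS.sq x (hsub hx)
        apply abs_le_of_sq_le_sq _ hr0
        nlinarith [sq_nonneg (v x)]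
      have hrpos : 0 < r := (hupos A (left_mem_Icc.2 hAB.le)).trans_le
        (hule A (left_mem_Icc.2 hAB.le))
      have huc : ContinuousOn u (Icc A B) := fun x hx =>
        (hS.du x (hsub hx)).continuousAt.continuousWithinAt
      have hvc : ContinuousOn v (Icc A B) := fun x hx =>
        (hS.dv x (hsub hx)).continuousAt.continuousWithinAt
      obtain ⟨sg, hsg, hsgu⟩ := exists_sign huc hune
      have hd : ∀ x ∈ uIcc A B, HasDerivAt
          (fun x => eta1 A B x / κ x / (sg * u x) + sg * (eta A B x * v x / u x ^ 2))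
          ((eta2 A B x / κ x - eta1 A B x * κ' x / κ x ^ 2) / (sg * u x) -
            sg * eta A B x * κ x * (u x ^ 2 + 2 * v x ^ 2) / u x ^ 3) x := by
        intro x hx
        rw [huI] at hx
        exact H_der hsg (hκpos x hx).ne' (hune x hx) (h.der x (hsub hx)) (hS.du x (hsub hx))
          (hS.dv x (hsub hx))
      have hc1 : ContinuousOn (fun x => (eta2 A B x / κ x - eta1 A B x * κ' x / κ x ^ 2) /
          (sg * u x)) (Icc A B) := by
        refine hwc.div (continuousOn_const.mul huc) fun x hx => ?_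
        exact (hsgu x hx).2.ne'
      have hc2 : ContinuousOn (fun x => sg * eta A B x * κ x * (u x ^ 2 + 2 * v x ^ 2) /
          u x ^ 3) (Icc A B) := by
        refine ((((continuousOn_const.mul hec.continuousOn).mul hκc).mul
          ((huc.pow 2).add (continuousOn_const.mul (hvc.pow 2)))).div (huc.pow 3) fun x hx => ?_)
        exact pow_ne_zero 3 (hune x hx)
      have hi1 : IntervalIntegrable (fun x => (eta2 A B x / κ x - eta1 A B x * κ' x / κ x ^ 2) /
          (sg * u x)) volume A B := by
        rw [← huI] at hc1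
        exact hc1.intervalIntegrable
      have hi2 : IntervalIntegrable (fun x => sg * eta A B x * κ x * (u x ^ 2 + 2 * v x ^ 2) /
          u x ^ 3) volume A B := by
        rw [← huI] at hc2
        exact hc2.intervalIntegrable
      have hint := intervalIntegral.integral_eq_sub_of_hasDerivAt hd (hi1.sub hi2)
      rw [heA, heB, he1A, he1B, intervalIntegral.integral_sub hi1 hi2] at hint
      simp only [zero_div, zero_mul, mul_zero, add_zero, sub_zero] at hint
      have e1 : (∫ s in A..B, (eta2 A B s / κ s - eta1 A B s * κ' s / κ s ^ 2) / |u s|) =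
          ∫ s in A..B, (eta2 A B s / κ s - eta1 A B s * κ' s / κ s ^ 2) / (sg * u s) := by
        refine intervalIntegral.integral_congr fun x hx => ?_
        rw [huI] at hx
        show (eta2 A B x / κ x - eta1 A B x * κ' x / κ x ^ 2) / |u x| =
          (eta2 A B x / κ x - eta1 A B x * κ' x / κ x ^ 2) / (sg * u x)
        rw [(hsgu x hx).1]
      have e2 : κ0 * (∫ x in A..B, eta A B x) / r = ∫ x in A..B, κ0 / r * eta A B x := by
        rw [intervalIntegral.integral_const_mul]
        ring
      show κ0 * (∫ x in A..B, eta A B x) / r ≤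
        ∫ s in A..B, (eta2 A B s / κ s - eta1 A B s * κ' s / κ s ^ 2) / |u s|
      rw [e1, sub_eq_zero.1 hint, e2]
      refine intervalIntegral.integral_mono_on hAB.le
        ((continuous_const.mul hec).intervalIntegrable _ _) hi2 fun x hx => ?_
      have hη : 0 ≤ eta A B x := by
        unfold eta q
        have h1 := sub_nonneg.2 hx.1
        have h2 := sub_nonneg.2 hx.2
        positivity
      have hux := hune x hx
      have h3 : |u x| ^ 3 = sg * u x ^ 3 := by
        rw [(hsgu x hx).1, mul_pow]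
        linear_combination (sg * u x ^ 3) * hsg
      have h4 : sg * eta A B x * κ x * (u x ^ 2 + 2 * v x ^ 2) / u x ^ 3 =
          eta A B x * κ x * (u x ^ 2 + 2 * v x ^ 2) / |u x| ^ 3 := by
        rw [h3, div_eq_div_iff (pow_ne_zero 3 hux)
          (by rw [← h3]; exact (pow_pos (hupos x hx) 3).ne')]
        linear_combination (eta A B x * κ x * (u x ^ 2 + 2 * v x ^ 2) * u x ^ 3) * hsg
      rw [h4]
      have h5 : κ0 / r ≤ κ x * (u x ^ 2 + 2 * v x ^ 2) / |u x| ^ 3 := by
        rw [div_le_div_iff₀ hrpos (pow_pos (hupos x hx) 3)]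
        have h6 : |u x| ^ 3 ≤ r * u x ^ 2 := by
          have h7 : |u x| ^ 3 = |u x| * u x ^ 2 := by
            rw [← sq_abs (u x)]; ring
          rw [h7]
          exact mul_le_mul_of_nonneg_right (hule x hx) (sq_nonneg _)
        calc κ0 * |u x| ^ 3 ≤ κ x * (r * u x ^ 2) :=
              mul_le_mul (h.lo x (hsub hx)) h6 (by positivity) (hκpos x hx).le
          _ ≤ κ x * (u x ^ 2 + 2 * v x ^ 2) * r := by
              have h8 := hκpos x hx
              have h9 := sq_nonneg (v x)
              nlinarith [mul_nonneg (mul_nonneg h8.le h9) hr0]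
      calc κ0 / r * eta A B x ≤ κ x * (u x ^ 2 + 2 * v x ^ 2) / |u x| ^ 3 * eta A B x :=
            mul_le_mul_of_nonneg_right h5 hη
        _ = eta A B x * κ x * (u x ^ 2 + 2 * v x ^ 2) / |u x| ^ 3 := by ring

end Pool.Agent.T6.H66.SC.CONV
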