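import Pool.Agent.T6.H66.SC.Defs

/-!
Project SC (helper66), module CORE (helper12): the core theorem from the lower and the upper bound.
-/

open MeasureTheory Set Real Filter Topology
open Pool.Agent.T6.H66.SC

namespace Pool.Agent.T6.H66.SC.CORE

theorem core (hLWR : StmLWR) (hUPR : StmUPR) : StmCORE := by
  classical
  intro κ0 κ1 a b κ κ' hA ι _ A Φ u v r hA0 hS hP
  obtain ⟨c, hc, η, hη, K, hK, hη1, R0', hR0', hL⟩ :=
    hLWR κ0 κ1 a b κ κ' hA ι A Φ u v r hA0 hS hP
  obtain ⟨M, hM, C, hC, hU⟩ := hUPR κ0 κ1 a b κ κ' hA ι A Φ u v r hA0 hS hP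
  have hη0 : (0 : ℝ) < η := hη
  have hc0 : (0 : ℝ) < c := hc
  have hM1 : (1 : ℝ) ≤ M := hM
  have hK1 : (1 : ℝ) ≤ K := hK
  set q : ℝ := 2 * K / η with hq
  have hq1 : 1 < q := by
    rw [hq, lt_div_iff₀ hη0]
    linarith
  have hq0 : 0 < q := by linarith
  have hlq : 0 < log q := Real.log_pos hq1
  obtain ⟨R0, hR0, hU⟩ := hU (c / (2 * log q)) (by positivity)
  set R1 : ℝ := max R0 R0' with hR1
  have hR11 : 1 ≤ R1 := le_trans hR0 (le_max_left _ _)
  have hR10 : 0 < R1 := by linarith
  have hS0 : ∀ j : ℕ, R1 ≤ M * R1 / η * q ^ j := by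
    intro j
    have h1 : (1 : ℝ) ≤ q ^ j := one_le_pow₀ hq1.le
    have h2 : R1 ≤ M * R1 / η := by
      rw [le_div_iff₀ hη0]
      nlinarith
    nlinarith
  choose F hF hFs using fun j : ℕ => hL (M * R1 / η * q ^ j) ((le_max_right _ _).trans (hS0 j))
  have hηS : ∀ j : ℕ, η * (M * R1 / η * q ^ j) = M * R1 * q ^ j := by
    intro j
    field_simp
  have hdis : ∀ j k : ℕ, j < k → Disjoint (F j) (F k) := by
    intro j k hjk
    rw [Finset.disjoint_left]
    intro i hi hk
    have h1 := (hF j i hi).2.2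
    have h2 := (hF k i hk).2.1
    rw [hηS] at h2
    have h3 : q ^ (j + 1) ≤ q ^ k := pow_le_pow_right₀ hq1.le hjk
    have h4 : M * R1 * q ^ (j + 1) ≤ M * R1 * q ^ k :=
      mul_le_mul_of_nonneg_left h3 (by positivity)
    have h5 : M * R1 * q ^ (j + 1) = 2 * (K * (M * R1 / η * q ^ j)) := by
      rw [pow_succ, hq]
      field_simp
    have h6 : 0 < K * (M * R1 / η * q ^ j) := by positivity
    linarith
  have key : ∀ n : ℕ, c * (n + 1) ≤ c / 2 * n + (c / (2 * log q) * log (M ^ 2 * K / η) + C) := by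
    intro n
    have hR2 : R1 ≤ M * (K * (M * R1 / η * q ^ n)) := by
      have h1 := hS0 n
      have h2 : M * R1 / η * q ^ n ≤ K * (M * R1 / η * q ^ n) := by
        have : 0 ≤ M * R1 / η * q ^ n := by positivity
        nlinarith
      have h3 : K * (M * R1 / η * q ^ n) ≤ M * (K * (M * R1 / η * q ^ n)) := by
        have : 0 ≤ K * (M * R1 / η * q ^ n) := by positivity
        nlinarith
      linarith
    have h := hU R1 (le_max_left _ _) (M * (K * (M * R1 / η * q ^ n))) hR2
      ((Finset.range (n + 1)).biUnion F) (by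
        intro i hi
        obtain ⟨j, hj, hij⟩ := Finset.mem_biUnion.mp hi
        obtain ⟨h1, h2, h3⟩ := hF j i hij
        have hj' : j ≤ n := by
          have := Finset.mem_range.mp hj
          omega
        refine ⟨h1, ?_, ?_⟩
        · rw [hηS] at h2
          have h4 : (1 : ℝ) ≤ q ^ j := one_le_pow₀ hq1.le
          have h5 : 0 ≤ M * R1 := by positivity
          nlinarith
        · refine h3.trans ?_
          have hM0 : M ≠ 0 := by positivity
          rw [mul_div_cancel_left₀ _ hM0]
          have h4 : q ^ j ≤ q ^ n := pow_le_pow_right₀ hq1.le hj'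
          have h5 : 0 ≤ K * (M * R1 / η) := by positivity
          have h6 := mul_le_mul_of_nonneg_left h4 h5
          nlinarith)
    rw [Finset.sum_biUnion (by
      intro j _ k _ hjk
      rcases lt_or_gt_of_ne hjk with h | h
      · exact hdis j k h
      · exact (hdis k j h).symm)] at h
    have h1 : ((n : ℝ) + 1) * c ≤ ∑ j ∈ Finset.range (n + 1), ∑ i ∈ F j, 1 / r i := by
      have := Finset.card_nsmul_le_sum (Finset.range (n + 1)) (fun j => ∑ i ∈ F j, 1 / r i) c
        (fun j _ => hFs j)
      rw [Finset.card_range, nsmul_eq_mul] at this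
      push_cast at this
      exact this
    have h2 : log (M * (K * (M * R1 / η * q ^ n)) / R1) = log (M ^ 2 * K / η) + n * log q := by
      have e : M * (K * (M * R1 / η * q ^ n)) / R1 = M ^ 2 * K / η * q ^ n := by
        field_simp
      rw [e, Real.log_mul (by positivity) (by positivity), Real.log_pow]
    rw [h2] at h
    have h3 : c / (2 * log q) * (log (M ^ 2 * K / η) + n * log q) =
        c / (2 * log q) * log (M ^ 2 * K / η) + c / 2 * n := by
      field_simp
    rw [h3] at h
    linarith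
  obtain ⟨n, hn⟩ := exists_nat_gt (2 * (c / (2 * log q) * log (M ^ 2 * K / η) + C) / c)
  have h := key n
  rw [div_lt_iff₀ hc0] at hn
  nlinarith

end Pool.Agent.T6.H66.SC.CORE
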