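import Pool.Agent.T6.H66.SC.Defs

/-!
# Project SC: curves, arc-length measures, spectral measures
-/

open MeasureTheory Set Real Filter Topology
open scoped ContDiff RealInnerProductSpace

namespace Pool.Agent.T6.H66.SC

/-- `d`-dimensional Euclidean space. -/
abbrev V (d : ℕ) : Type := EuclideanSpace ℝ (Fin d)

/-- The exponential `x ↦ e^{-2πi λ·x}`. -/
noncomputable def expo {d : ℕ} (l x : V d) : ℂ :=
  Complex.exp (((-(2 * π * ⟪l, x⟫) : ℝ) : ℂ) * Complex.I)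

/-- Piecewise smooth curve on `[0, L]`, parametrised by arc length, with finitely many
self-intersections. -/
structure PSCurve {d : ℕ} (γ : ℝ → V d) (L : ℝ) : Prop where
  pos : 0 < L
  cont : ContinuousOn γ (Icc 0 L)
  pieces : ∃ (n : ℕ) (t : ℕ → ℝ), t 0 = 0 ∧ t n = L ∧ ∀ i < n, t i < t (i + 1) ∧
    ContDiffOn ℝ ∞ γ (Icc (t i) (t (i + 1))) ∧ ∀ s ∈ Ioo (t i) (t (i + 1)), ‖deriv γ s‖ = 1
  fin : {s : ℝ | s ∈ Ico 0 L ∧ ∃ s' ∈ Ico 0 L, s' ≠ s ∧ γ s' = γ s}.Finite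

/-- The normalised arc-length measure of a curve on `[0, L]` (parametrised by arc length). -/
noncomputable def arcMeasure {d : ℕ} (γ : ℝ → V d) (L : ℝ) : Measure (V d) :=
  (ENNReal.ofReal L)⁻¹ • Measure.map γ (volume.restrict (Icc 0 L))

/-- `μ` is tight-frame spectral. -/
def TightFrameSpectral {d : ℕ} (μ : Measure (V d)) : Prop :=
  ∃ Λ : Set (V d), Λ.Countable ∧ ∃ A : ℝ, 0 < A ∧ ∀ f : V d → ℂ, MemLp f 2 μ →
    HasSum (fun l : Λ => ‖∫ x, f x * expo (l : V d) x ∂μ‖ ^ 2) (A * ∫ x, ‖f x‖ ^ 2 ∂μ)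

/-- `μ` is spectral: for a countable set `Λ` the exponentials are orthonormal in `L²(μ)` and
complete. -/
def Spectral {d : ℕ} (μ : Measure (V d)) : Prop :=
  ∃ Λ : Set (V d), Λ.Countable ∧
    (∀ l ∈ Λ, ∀ l' ∈ Λ, (∫ x, expo l x * (starRingEnd ℂ) (expo l' x) ∂μ) =
      if l = l' then 1 else 0) ∧
    ∀ f : V d → ℂ, MemLp f 2 μ → (∀ l ∈ Λ, (∫ x, f x * expo l x ∂μ) = 0) → f =ᵐ[μ] 0

/-- `γ` is polygonal on `[0, L]`. -/
def Polygonal {d : ℕ} (γ : ℝ → V d) (L : ℝ) : Prop :=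
  ∃ (n : ℕ) (t : ℕ → ℝ), t 0 = 0 ∧ t n = L ∧ ∀ i < n, t i ≤ t (i + 1) ∧
    ∃ x y : V d, ∀ s ∈ Icc (t i) (t (i + 1)), γ s = x + s • y

/-- `γ` is smooth with unit speed on `[p, q]`, stays in a plane there and is not straight. -/
def CurvedPlanarArc {d : ℕ} (γ : ℝ → V d) (p q : ℝ) : Prop :=
  p < q ∧ ContDiffOn ℝ ∞ γ (Icc p q) ∧ (∀ s ∈ Ioo p q, ‖deriv γ s‖ = 1) ∧
  (∃ x e f : V d, ‖e‖ = 1 ∧ ‖f‖ = 1 ∧ ⟪e, f⟫ = 0 ∧
    ∀ s ∈ Icc p q, ∃ X Y : ℝ, γ s = x + X • e + Y • f) ∧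
  ¬ ∃ x y : V d, ∀ s ∈ Icc p q, γ s = x + s • y

/-- a plane curve with unit speed that is not straight: curvature data and rotation system. -/
def StmGEO : Prop :=
  ∀ (X Y : ℝ → ℝ) (p q : ℝ), p < q → ContDiffOn ℝ ∞ X (Ioo p q) → ContDiffOn ℝ ∞ Y (Ioo p q) →
    (∀ s ∈ Ioo p q, deriv X s ^ 2 + deriv Y s ^ 2 = 1) →
    ¬ (∃ x1 y1 x2 y2 : ℝ, ∀ s ∈ Ioo p q, X s = x1 + s * y1 ∧ Y s = x2 + s * y2) →
    ∃ (κ0 κ1 a b : ℝ) (κ κ' : ℝ → ℝ) (σ : ℝ), p < a ∧ b < q ∧ Arc κ0 κ1 a b κ κ' ∧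
      ∀ c P Q : ℝ, Sys a b κ (fun s => c + P * X s + Q * Y s)
        (fun s => P * deriv X s + Q * deriv Y s)
        (fun s => σ * (-(P * deriv Y s) + Q * deriv X s)) (√(P ^ 2 + Q ^ 2))

/-- from a curved planar arc to the data of the core theorem. -/
def StmGEB : Prop :=
  ∀ (d : ℕ) (γ : ℝ → V d) (p q : ℝ), CurvedPlanarArc γ p q →
    ∃ (κ0 κ1 a b : ℝ) (κ κ' : ℝ → ℝ), p < a ∧ b < q ∧ Arc κ0 κ1 a b κ κ' ∧
      ∀ l : V d, ∃ (u v : ℝ → ℝ) (r : ℝ), Sys a b κ (fun s => ⟪l, γ s⟫) u v r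

/-- the tight frame property on indicators of arcs. -/
def StmMEA : Prop :=
  ∀ (d : ℕ) (γ : ℝ → V d) (L : ℝ), PSCurve γ L → ∀ (Λ : Set (V d)) (A : ℝ),
    (∀ f : V d → ℂ, MemLp f 2 (arcMeasure γ L) →
      HasSum (fun l : Λ => ‖∫ x, f x * expo (l : V d) x ∂(arcMeasure γ L)‖ ^ 2)
        (A * ∫ x, ‖f x‖ ^ 2 ∂(arcMeasure γ L))) →
    Pars (A * L) 0 L (fun (l : Λ) s => ⟪(l : V d), γ s⟫)

/-- spectral measures are tight-frame spectral. -/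
def StmSPC : Prop :=
  ∀ (d : ℕ) (γ : ℝ → V d) (L : ℝ), PSCurve γ L → Spectral (arcMeasure γ L) →
    TightFrameSpectral (arcMeasure γ L)

end Pool.Agent.T6.H66.SC
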