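import Mathlib

/-!
# Project SC: no planar curved arc carries a tight frame of exponentials

Core objects.  A phase `Φ` with `Φ' = u`, `u' = κ v`, `v' = - κ u`, `u² + v² = r²` on `[a, b]`
(`Φ(s) = ⟨λ, γ(s)⟩` for a planar arc `γ` of curvature `κ`, parametrised by arc length).
-/

open MeasureTheory Set Real Filter Topology

namespace Pool.Agent.T6.H66.SC

/-- `e(-Φ(x))`. -/
noncomputable def E (Φ : ℝ → ℝ) (x : ℝ) : ℂ :=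
  Complex.exp (((-(2 * π * Φ x) : ℝ) : ℂ) * Complex.I)

/-- `∫_s^t e(-Φ)`. -/
noncomputable def G (Φ : ℝ → ℝ) (s t : ℝ) : ℂ := ∫ x in s..t, E Φ x

/-- curvature data of the arc on `[a, b]`. -/
structure Arc (κ0 κ1 a b : ℝ) (κ κ' : ℝ → ℝ) : Prop where
  hab : a < b
  pos : 0 < κ0
  lo : ∀ s ∈ Icc a b, κ0 ≤ κ s
  hi : ∀ s ∈ Icc a b, κ s ≤ κ1
  ratio : 2 * κ1 ≤ 3 * κ0
  small : 10 * (κ1 * (b - a)) ≤ 1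
  der : ∀ s ∈ Icc a b, HasDerivAt κ (κ' s) s
  cont : ContinuousOn κ' (Icc a b)

/-- one frequency seen from the arc. -/
structure Sys (a b : ℝ) (κ : ℝ → ℝ) (Φ u v : ℝ → ℝ) (r : ℝ) : Prop where
  rnn : 0 ≤ r
  dΦ : ∀ s ∈ Icc a b, HasDerivAt Φ (u s) s
  du : ∀ s ∈ Icc a b, HasDerivAt u (κ s * v s) s
  dv : ∀ s ∈ Icc a b, HasDerivAt v (-(κ s * u s)) s
  sq : ∀ s ∈ Icc a b, u s ^ 2 + v s ^ 2 = r ^ 2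

/-- left end of the middle half of `[a, b]`. -/
noncomputable def al (a b : ℝ) : ℝ := a + (b - a) / 4
/-- right end of the middle half of `[a, b]`. -/
noncomputable def be (a b : ℝ) : ℝ := b - (b - a) / 4

/-- the frequency is nearly normal to the arc somewhere in the middle half. -/
def Nr (κ0 a b : ℝ) (u : ℝ → ℝ) (r : ℝ) : Prop :=
  ∃ s ∈ Icc (al a b) (be a b), |u s| ≤ κ0 * (b - a) / 8 * r

/-- Parseval for indicators of subintervals. -/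
def Pars {ι : Type} (A a b : ℝ) (Φ : ι → ℝ → ℝ) : Prop :=
  ∀ s t : ℝ, a ≤ s → s ≤ t → t ≤ b → HasSum (fun i => ‖G (Φ i) s t‖ ^ 2) (A * (t - s))

/-- the quadratic quantity at the place `s` and the scale `R`. -/
noncomputable def cR (Φ : ℝ → ℝ) (R s : ℝ) : ℝ := R * ‖G Φ s (s + 1 / R)‖ ^ 2

/-- its ideal value `R sin²(π u / R) / (π u)²`. -/
noncomputable def idl (u R : ℝ) : ℝ := R * (sin (π * u / R) / (π * u)) ^ 2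

/-! ### Oscillatory integrals -/

/-- first derivative test without monotonicity. -/
def StmVDA : Prop :=
  ∀ (κ0 κ1 a b : ℝ) (κ κ' : ℝ → ℝ), Arc κ0 κ1 a b κ κ' →
  ∀ (Φ u v : ℝ → ℝ) (r : ℝ), Sys a b κ Φ u v r →
  ∀ s t m : ℝ, a ≤ s → s ≤ t → t ≤ b → 0 < m → (∀ x ∈ Icc s t, m ≤ |u x|) →
    ‖G Φ s t‖ ≤ 1 / m + κ1 * r * (t - s) / m ^ 2

/-- first derivative test with a monotone derivative. -/
def StmVDB : Prop :=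
  ∀ (κ0 κ1 a b : ℝ) (κ κ' : ℝ → ℝ), Arc κ0 κ1 a b κ κ' →
  ∀ (Φ u v : ℝ → ℝ) (r : ℝ), Sys a b κ Φ u v r →
  ∀ s t m : ℝ, a ≤ s → s ≤ t → t ≤ b → 0 < m → (∀ x ∈ Icc s t, m ≤ |u x|) →
    ((∀ x ∈ Icc s t, 0 ≤ v x) ∨ (∀ x ∈ Icc s t, v x ≤ 0)) →
    ‖G Φ s t‖ ≤ 1 / m

/-- nearly normal frequencies: zero of `u` well inside and `v` of constant sign. -/
def StmNZ : Prop :=
  ∀ (κ0 κ1 a b : ℝ) (κ κ' : ℝ → ℝ), Arc κ0 κ1 a b κ κ' →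
  ∀ (Φ u v : ℝ → ℝ) (r : ℝ), Sys a b κ Φ u v r → 0 < r → Nr κ0 a b u r →
    (∃ z ∈ Icc (a + (b - a) / 10) (b - (b - a) / 10), u z = 0) ∧
    ((∀ t ∈ Icc a b, 9 / 10 * r ≤ v t) ∨ (∀ t ∈ Icc a b, v t ≤ -(9 / 10 * r)))

/-- lower bound for the integral over the whole arc for nearly normal frequencies. -/
def StmLOW : Prop :=
  ∀ (κ0 κ1 a b : ℝ) (κ κ' : ℝ → ℝ), Arc κ0 κ1 a b κ κ' →
  ∃ c > 0, ∃ r0 ≥ 1, ∀ (Φ u v : ℝ → ℝ) (r : ℝ), Sys a b κ Φ u v r → r0 ≤ r →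
    Nr κ0 a b u r → c / r ≤ ‖G Φ a b‖ ^ 2

/-- upper bound for the averaged quantity for nearly normal frequencies. -/
def StmUPP : Prop :=
  ∀ (κ0 κ1 a b : ℝ) (κ κ' : ℝ → ℝ), Arc κ0 κ1 a b κ κ' →
  ∃ C > 0, ∃ R0 ≥ 1, ∀ (Φ u v : ℝ → ℝ) (r : ℝ), Sys a b κ Φ u v r → 1 ≤ r →
    Nr κ0 a b u r → ∀ R, R0 ≤ R → (∫ s in (al a b)..(be a b), cR Φ R s) ≤ C / r

/-- frequencies that are not nearly normal. -/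
def StmNON : Prop :=
  ∀ (κ0 κ1 a b : ℝ) (κ κ' : ℝ → ℝ), Arc κ0 κ1 a b κ κ' →
  ∃ C > 0, ∃ R0 ≥ 1, ∀ (Φ u v : ℝ → ℝ) (r : ℝ), Sys a b κ Φ u v r →
    ¬ Nr κ0 a b u r → ∀ R, R0 ≤ R → ∀ s ∈ Icc (al a b) (be a b),
      cR Φ R s ≤ C * R / r ^ 2 ∧ |cR Φ R s - idl (u s) R| ≤ C * r / R ^ 3 ∧
      idl (u s) R ≤ C * R / r ^ 2

/-- elementary facts about `cR` and `idl`. -/
def StmTRV : Prop :=
  ∀ (κ0 κ1 a b : ℝ) (κ κ' : ℝ → ℝ), Arc κ0 κ1 a b κ κ' →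
  (∀ (Φ u v : ℝ → ℝ) (r : ℝ), Sys a b κ Φ u v r → ∀ R, 4 / (b - a) ≤ R → 0 < R →
      (∀ s ∈ Icc (al a b) (be a b), 0 ≤ cR Φ R s ∧ cR Φ R s ≤ 1 / R) ∧
      ContinuousOn (fun s => cR Φ R s) (Icc (al a b) (be a b))) ∧
  (∀ U R : ℝ, 0 < R → 0 ≤ idl U R ∧ idl U R ≤ 1 / R)

/-! ### Counting -/

/-- few frequencies in balls. -/
def StmCNT : Prop :=
  ∀ (κ0 κ1 a b : ℝ) (κ κ' : ℝ → ℝ), Arc κ0 κ1 a b κ κ' → ∀ (ι : Type) (A : ℝ)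
    (Φ u v : ι → ℝ → ℝ) (r : ι → ℝ), 0 < A → (∀ i, Sys a b κ (Φ i) (u i) (v i) (r i)) →
    Pars A a b Φ →
    ∃ C > 0, ∃ ρ ≥ 1, ∀ x ≥ ρ, ∀ F : Finset ι, (∀ i ∈ F, r i ≤ x) → (F.card : ℝ) ≤ C * x

/-- consequences of linear counting. -/
def StmSUM : Prop :=
  ∀ (ι : Type) (r : ι → ℝ) (C ρ : ℝ), 0 < C → 1 ≤ ρ →
    (∀ x ≥ ρ, ∀ F : Finset ι, (∀ i ∈ F, r i ≤ x) → (F.card : ℝ) ≤ C * x) →
    ∀ x ≥ ρ, ∀ F : Finset ι, (∀ i ∈ F, x < r i) → ∑ i ∈ F, 1 / r i ^ 2 ≤ 8 * C / x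

/-! ### Nearly normal frequencies are negligible -/

def StmTAIL : Prop :=
  ∀ (κ0 κ1 a b : ℝ) (κ κ' : ℝ → ℝ), Arc κ0 κ1 a b κ κ' → ∀ (ι : Type) (A : ℝ)
    (Φ u v : ι → ℝ → ℝ) (r : ι → ℝ), 0 < A → (∀ i, Sys a b κ (Φ i) (u i) (v i) (r i)) →
    Pars A a b Φ →
    ∀ ε > 0, ∃ ρ ≥ 1, ∀ F : Finset ι, (∀ i ∈ F, ρ ≤ r i ∧ Nr κ0 a b (u i) (r i)) →
      ∑ i ∈ F, 1 / r i ≤ ε

def StmNSUM : Prop :=
  ∀ (κ0 κ1 a b : ℝ) (κ κ' : ℝ → ℝ), Arc κ0 κ1 a b κ κ' → ∀ (ι : Type) (A : ℝ)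
    (Φ u v : ι → ℝ → ℝ) (r : ι → ℝ), 0 < A → (∀ i, Sys a b κ (Φ i) (u i) (v i) (r i)) →
    Pars A a b Φ →
    ∀ ε > 0, ∃ R0 ≥ 1, ∀ R ≥ R0, ∀ F : Finset ι, (∀ i ∈ F, Nr κ0 a b (u i) (r i)) →
      ∑ i ∈ F, (∫ s in (al a b)..(be a b), cR (Φ i) R s) ≤ ε

/-- integrated Parseval identity at the scale `R`, with a continuous weight. -/
def StmPI : Prop :=
  ∀ (κ0 κ1 a b : ℝ) (κ κ' : ℝ → ℝ), Arc κ0 κ1 a b κ κ' → ∀ (ι : Type) [Countable ι] (A : ℝ)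
    (Φ u v : ι → ℝ → ℝ) (r : ι → ℝ), 0 < A → (∀ i, Sys a b κ (Φ i) (u i) (v i) (r i)) →
    Pars A a b Φ → ∀ w : ℝ → ℝ, ContinuousOn w (Icc (al a b) (be a b)) →
    ∀ R, 4 / (b - a) ≤ R → 0 < R →
      HasSum (fun i => ∫ s in (al a b)..(be a b), w s * cR (Φ i) R s)
        (A * ∫ s in (al a b)..(be a b), w s)

/-- many frequencies of size comparable to `R` that are not nearly normal. -/
def StmLWR : Prop :=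
  ∀ (κ0 κ1 a b : ℝ) (κ κ' : ℝ → ℝ), Arc κ0 κ1 a b κ κ' → ∀ (ι : Type) [Countable ι] (A : ℝ)
    (Φ u v : ι → ℝ → ℝ) (r : ι → ℝ), 0 < A → (∀ i, Sys a b κ (Φ i) (u i) (v i) (r i)) →
    Pars A a b Φ →
    ∃ c > 0, ∃ η > 0, ∃ K ≥ 1, η < 1 ∧ ∃ R0 ≥ 1, ∀ R ≥ R0, ∃ F : Finset ι,
      (∀ i ∈ F, ¬ Nr κ0 a b (u i) (r i) ∧ η * R < r i ∧ r i ≤ K * R) ∧ c ≤ ∑ i ∈ F, 1 / r i

/-! ### Convexity -/

/-- a weight of integral zero that sees the convexity of `1/|u|`. -/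
def StmCONV : Prop :=
  ∀ (κ0 κ1 a b : ℝ) (κ κ' : ℝ → ℝ), Arc κ0 κ1 a b κ κ' →
  ∃ w : ℝ → ℝ, ContinuousOn w (Icc (al a b) (be a b)) ∧
    (∫ s in (al a b)..(be a b), w s) = 0 ∧
    ∃ c > 0, ∀ (Φ u v : ℝ → ℝ) (r : ℝ), Sys a b κ Φ u v r → ¬ Nr κ0 a b u r →
      c / r ≤ ∫ s in (al a b)..(be a b), w s / abs (u s)

/-- the average of `idl` over the scales. -/
def StmPSI : Prop :=
  ∃ P : ℝ, 0 < P ∧ ∀ U : ℝ, U ≠ 0 → ∀ R1 R2 : ℝ, 0 < R1 → R1 ≤ R2 →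
    abs ((∫ R in R1..R2, idl U R / R) - P / abs U) ≤ R1 / U ^ 2 + 1 / R2

/-- single scale statement for the frequencies that are not nearly normal. -/
def StmSNG : Prop :=
  ∀ (κ0 κ1 a b : ℝ) (κ κ' : ℝ → ℝ), Arc κ0 κ1 a b κ κ' → ∀ (ι : Type) [Countable ι] (A : ℝ)
    (Φ u v : ι → ℝ → ℝ) (r : ι → ℝ), 0 < A → (∀ i, Sys a b κ (Φ i) (u i) (v i) (r i)) →
    Pars A a b Φ → ∀ w : ℝ → ℝ, ContinuousOn w (Icc (al a b) (be a b)) →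
    (∫ s in (al a b)..(be a b), w s) = 0 →
    ∀ ε > 0, ∃ R0 ≥ 1, ∀ R ≥ R0,
      Summable (fun i : {i // ¬ Nr κ0 a b (u i) (r i)} =>
        ∫ s in (al a b)..(be a b), w s * idl (u i s) R) ∧
      abs (∑' i : {i // ¬ Nr κ0 a b (u i) (r i)},
        ∫ s in (al a b)..(be a b), w s * idl (u i s) R) ≤ ε

/-- the statement averaged over the scales. -/
def StmAVG : Prop :=
  ∀ (κ0 κ1 a b : ℝ) (κ κ' : ℝ → ℝ), Arc κ0 κ1 a b κ κ' → ∀ (ι : Type) [Countable ι] (A : ℝ)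
    (Φ u v : ι → ℝ → ℝ) (r : ι → ℝ), 0 < A → (∀ i, Sys a b κ (Φ i) (u i) (v i) (r i)) →
    Pars A a b Φ → ∀ w : ℝ → ℝ, ContinuousOn w (Icc (al a b) (be a b)) →
    (∫ s in (al a b)..(be a b), w s) = 0 →
    ∀ ε > 0, ∃ R0 ≥ 1, ∀ R1 ≥ R0, ∀ R2 ≥ R1,
      Summable (fun i : {i // ¬ Nr κ0 a b (u i) (r i)} =>
        ∫ s in (al a b)..(be a b), w s * ∫ R in R1..R2, idl (u i s) R / R) ∧
      abs (∑' i : {i // ¬ Nr κ0 a b (u i) (r i)},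
        ∫ s in (al a b)..(be a b), w s * ∫ R in R1..R2, idl (u i s) R / R)
          ≤ ε * log (R2 / R1)

/-- the upper bound that contradicts `StmLWR`. -/
def StmUPR : Prop :=
  ∀ (κ0 κ1 a b : ℝ) (κ κ' : ℝ → ℝ), Arc κ0 κ1 a b κ κ' → ∀ (ι : Type) [Countable ι] (A : ℝ)
    (Φ u v : ι → ℝ → ℝ) (r : ι → ℝ), 0 < A → (∀ i, Sys a b κ (Φ i) (u i) (v i) (r i)) →
    Pars A a b Φ →
    ∃ M ≥ 1, ∃ C ≥ 0, ∀ ε > 0, ∃ R0 ≥ 1, ∀ R1 ≥ R0, ∀ R2 ≥ R1, ∀ F : Finset ι,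
      (∀ i ∈ F, ¬ Nr κ0 a b (u i) (r i) ∧ M * R1 ≤ r i ∧ r i ≤ R2 / M) →
      ∑ i ∈ F, 1 / r i ≤ ε * log (R2 / R1) + C

/-- the core theorem. -/
def StmCORE : Prop :=
  ∀ (κ0 κ1 a b : ℝ) (κ κ' : ℝ → ℝ), Arc κ0 κ1 a b κ κ' → ∀ (ι : Type) [Countable ι] (A : ℝ)
    (Φ u v : ι → ℝ → ℝ) (r : ι → ℝ), 0 < A → (∀ i, Sys a b κ (Φ i) (u i) (v i) (r i)) →
    Pars A a b Φ → False

end Pool.Agent.T6.H66.SC
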