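import Pool.Agent.T6.H66.SC.Curve

/-!
Project SC (helper66), module GEB (helper12): from a curved planar arc to the data of the core
theorem.
-/

open MeasureTheory Set Real Filter Topology
open scoped ContDiff RealInnerProductSpace
open Pool.Agent.T6.H66.SC

namespace Pool.Agent.T6.H66.SC.GEB

theorem geb (hGEO : StmGEO) : StmGEB := by
  intro d γ p q ⟨hpq, hsm, hsp, ⟨x, e, f, he, hf, hef, hpl⟩, hns⟩
  have hee : ⟪e, e⟫ = 1 := by rw [real_inner_self_eq_norm_sq, he, one_pow]
  have hff : ⟪f, f⟫ = 1 := by rw [real_inner_self_eq_norm_sq, hf, one_pow]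
  have hfe : ⟪f, e⟫ = 0 := by rw [real_inner_comm]; exact hef
  set X : ℝ → ℝ := fun s => ⟪e, γ s - x⟫ with hX
  set Y : ℝ → ℝ := fun s => ⟪f, γ s - x⟫ with hY
  have hγ : ∀ s ∈ Icc p q, γ s = x + X s • e + Y s • f := by
    intro s hs
    obtain ⟨X', Y', h⟩ := hpl s hs
    have h1 : γ s - x = X' • e + Y' • f := by rw [h]; abel
    have h2 : X s = X' := by
      simp only [hX]
      rw [h1, inner_add_right, inner_smul_right, inner_smul_right, hee, hef]
      ring
    have h3 : Y s = Y' := by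
      simp only [hY]
      rw [h1, inner_add_right, inner_smul_right, inner_smul_right, hff, hfe]
      ring
    rw [h2, h3]
    exact h
  have hsmo : ContDiffOn ℝ ∞ γ (Ioo p q) := hsm.mono Ioo_subset_Icc_self
  have hXs : ContDiffOn ℝ ∞ X (Ioo p q) :=
    ContDiffOn.inner ℝ contDiffOn_const (hsmo.sub contDiffOn_const)
  have hYs : ContDiffOn ℝ ∞ Y (Ioo p q) :=
    ContDiffOn.inner ℝ contDiffOn_const (hsmo.sub contDiffOn_const)
  have hXd : ∀ s ∈ Ioo p q, HasDerivAt X (deriv X s) s := fun s hs =>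
    ((hXs.differentiableOn (by simp)).differentiableAt (isOpen_Ioo.mem_nhds hs)).hasDerivAt
  have hYd : ∀ s ∈ Ioo p q, HasDerivAt Y (deriv Y s) s := fun s hs =>
    ((hYs.differentiableOn (by simp)).differentiableAt (isOpen_Ioo.mem_nhds hs)).hasDerivAt
  have hγd : ∀ s ∈ Ioo p q, deriv γ s = deriv X s • e + deriv Y s • f := by
    intro s hs
    have h1 : HasDerivAt (fun s => x + X s • e + Y s • f) (deriv X s • e + deriv Y s • f) s := by
      have := (((hXd s hs).smul_const e).const_add x).add ((hYd s hs).smul_const f)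
      exact this
    have h2 : γ =ᶠ[𝓝 s] fun s => x + X s • e + Y s • f := by
      filter_upwards [isOpen_Ioo.mem_nhds hs] with t ht
      exact hγ t (Ioo_subset_Icc_self ht)
    exact (h1.congr_of_eventuallyEq h2).deriv
  have hunit : ∀ s ∈ Ioo p q, deriv X s ^ 2 + deriv Y s ^ 2 = 1 := by
    intro s hs
    have h1 := hsp s hs
    have h2 : ‖deriv γ s‖ ^ 2 = 1 := by rw [h1, one_pow]
    rw [← real_inner_self_eq_norm_sq, hγd s hs, inner_add_left, inner_add_right, inner_add_right,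
      inner_smul_left, inner_smul_left, inner_smul_right, inner_smul_right, inner_smul_left,
      inner_smul_left, inner_smul_right, inner_smul_right, hee, hff, hef, hfe] at h2
    simp only [conj_trivial] at h2
    linarith
  have hnl : ¬ (∃ x1 y1 x2 y2 : ℝ, ∀ s ∈ Ioo p q, X s = x1 + s * y1 ∧ Y s = x2 + s * y2) := by
    rintro ⟨x1, y1, x2, y2, h⟩
    apply hns
    refine ⟨x + x1 • e + x2 • f, y1 • e + y2 • f, ?_⟩
    have hcl : ∀ s ∈ Ioo p q, γ s = x + x1 • e + x2 • f + s • (y1 • e + y2 • f) := by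
      intro s hs
      rw [hγ s (Ioo_subset_Icc_self hs), (h s hs).1, (h s hs).2, add_smul, add_smul, smul_add,
        smul_smul, smul_smul]
      abel
    have hc : ContinuousOn γ (Icc p q) := hsm.continuousOn
    have hEq : EqOn γ (fun s => x + x1 • e + x2 • f + s • (y1 • e + y2 • f)) (Icc p q) := by
      have h1 : Icc p q ⊆ closure (Ioo p q) := by rw [closure_Ioo hpq.ne]
      refine Set.EqOn.of_subset_closure (s := Ioo p q) hcl hc ?_ Ioo_subset_Icc_self h1
      fun_prop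
    exact fun s hs => hEq hs
  obtain ⟨κ0, κ1, a, b, κ, κ', σ, hpa, hbq, hArc, hSys⟩ := hGEO X Y p q hpq hXs hYs hunit hnl
  refine ⟨κ0, κ1, a, b, κ, κ', hpa, hbq, hArc, fun l => ?_⟩
  have hS := hSys ⟪l, x⟫ ⟪l, e⟫ ⟪l, f⟫
  refine ⟨_, _, _, ⟨hS.rnn, fun s hs => ?_, hS.du, hS.dv, hS.sq⟩⟩
  have hs' : s ∈ Ioo p q := ⟨lt_of_lt_of_le hpa hs.1, lt_of_le_of_lt hs.2 hbq⟩
  refine (hS.dΦ s hs).congr_of_eventuallyEq ?_
  filter_upwards [isOpen_Ioo.mem_nhds hs'] with t ht
  change ⟪l, γ t⟫ = ⟪l, x⟫ + ⟪l, e⟫ * X t + ⟪l, f⟫ * Y t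
  rw [hγ t (Ioo_subset_Icc_self ht), inner_add_right, inner_add_right, inner_smul_right,
    inner_smul_right]
  ring

end Pool.Agent.T6.H66.SC.GEB
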