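import Pool.Agent.T6.H66.SC.Curve

/-!
# Project SC, module GEO: a plane curve with unit speed that is not straight
-/

set_option autoImplicit false

open MeasureTheory Set Real Filter Topology
open scoped ContDiff RealInnerProductSpace

namespace Pool.Agent.T6.H66.SC.GEO

open Pool.Agent.T6.H66.SC

theorem hasDeriv_of_smooth {X : ℝ → ℝ} {p q : ℝ} (hX : ContDiffOn ℝ ∞ X (Ioo p q)) {s : ℝ}
    (hs : s ∈ Ioo p q) : HasDerivAt X (deriv X s) s := by
  have h1 : ContDiffAt ℝ ∞ X s := hX.contDiffAt (isOpen_Ioo.mem_nhds hs)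
  exact (h1.differentiableAt (by simp)).hasDerivAt

theorem smooth_deriv {X : ℝ → ℝ} {p q : ℝ} (hX : ContDiffOn ℝ ∞ X (Ioo p q)) :
    ContDiffOn ℝ ∞ (deriv X) (Ioo p q) :=
  hX.deriv_of_isOpen isOpen_Ioo (by simp)

theorem geo : StmGEO := by
  intro X Y p q hpq hX hY hone hns
  have hX1 := smooth_deriv hX
  have hY1 := smooth_deriv hY
  have hX2 := smooth_deriv hX1
  have hY2 := smooth_deriv hY1
  have hX3 := smooth_deriv hX2
  have hY3 := smooth_deriv hY2
  have dX : ∀ s ∈ Ioo p q, HasDerivAt X (deriv X s) s := fun s hs => hasDeriv_of_smooth hX hs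
  have dY : ∀ s ∈ Ioo p q, HasDerivAt Y (deriv Y s) s := fun s hs => hasDeriv_of_smooth hY hs
  have dX1 : ∀ s ∈ Ioo p q, HasDerivAt (deriv X) (deriv (deriv X) s) s := fun s hs =>
    hasDeriv_of_smooth hX1 hs
  have dY1 : ∀ s ∈ Ioo p q, HasDerivAt (deriv Y) (deriv (deriv Y) s) s := fun s hs =>
    hasDeriv_of_smooth hY1 hs
  have dX2 : ∀ s ∈ Ioo p q,
      HasDerivAt (deriv (deriv X)) (deriv (deriv (deriv X)) s) s := fun s hs =>
    hasDeriv_of_smooth hX2 hs
  have dY2 : ∀ s ∈ Ioo p q,
      HasDerivAt (deriv (deriv Y)) (deriv (deriv (deriv Y)) s) s := fun s hs =>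
    hasDeriv_of_smooth hY2 hs
  have horth : ∀ s ∈ Ioo p q,
      deriv X s * deriv (deriv X) s + deriv Y s * deriv (deriv Y) s = 0 := by
    intro s hs
    have h1 : HasDerivAt (fun x => deriv X x ^ 2 + deriv Y x ^ 2)
        (2 * deriv X s * deriv (deriv X) s + 2 * deriv Y s * deriv (deriv Y) s) s := by
      have := ((dX1 s hs).pow 2).add ((dY1 s hs).pow 2)
      refine this.congr_deriv ?_
      push_cast
      ring
    have h2 : HasDerivAt (fun x => deriv X x ^ 2 + deriv Y x ^ 2) 0 s := by
      refine (hasDerivAt_const s (1 : ℝ)).congr_of_eventuallyEq ?_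
      filter_upwards [isOpen_Ioo.mem_nhds hs] with x hx
      exact hone x hx
    have h3 := h1.unique h2
    linarith
  set k : ℝ → ℝ := fun s => deriv X s * deriv (deriv Y) s - deriv Y s * deriv (deriv X) s with hk
  set k' : ℝ → ℝ := fun s =>
    deriv X s * deriv (deriv (deriv Y)) s - deriv Y s * deriv (deriv (deriv X)) s with hk'
  have dk : ∀ s ∈ Ioo p q, HasDerivAt k (k' s) s := by
    intro s hs
    have := ((dX1 s hs).mul (dY2 s hs)).sub ((dY1 s hs).mul (dX2 s hs))
    refine this.congr_deriv ?_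
    simp only [hk']
    ring
  have ck' : ContinuousOn k' (Ioo p q) :=
    (hX1.continuousOn.mul hY3.continuousOn).sub (hY1.continuousOn.mul hX3.continuousOn)
  have eX2 : ∀ s ∈ Ioo p q, deriv (deriv X) s = -(k s * deriv Y s) := by
    intro s hs
    have h1 := horth s hs
    have h2 := hone s hs
    simp only [hk]
    linear_combination (-(deriv (deriv X) s)) * h2 + (deriv X s) * h1
  have eY2 : ∀ s ∈ Ioo p q, deriv (deriv Y) s = k s * deriv X s := by
    intro s hs
    have h1 := horth s hs
    have h2 := hone s hs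
    simp only [hk]
    linear_combination (-(deriv (deriv Y) s)) * h2 + (deriv Y s) * h1
  -- a point of nonzero curvature
  have hex : ∃ s0 ∈ Ioo p q, k s0 ≠ 0 := by
    by_contra hcon
    push Not at hcon
    apply hns
    have hm : (p + q) / 2 ∈ Ioo p q := ⟨by linarith, by linarith⟩
    have cX : ∀ s ∈ Ioo p q, deriv X s = deriv X ((p + q) / 2) := by
      intro s hs
      refine isOpen_Ioo.is_const_of_deriv_eq_zero isPreconnected_Ioo
        (hX1.differentiableOn (by simp)) ?_ hs hm
      intro x hx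
      rw [eX2 x hx, hcon x hx]
      simp
    have cY : ∀ s ∈ Ioo p q, deriv Y s = deriv Y ((p + q) / 2) := by
      intro s hs
      refine isOpen_Ioo.is_const_of_deriv_eq_zero isPreconnected_Ioo
        (hY1.differentiableOn (by simp)) ?_ hs hm
      intro x hx
      rw [eY2 x hx, hcon x hx]
      simp
    have aff : ∀ (Z : ℝ → ℝ) (y : ℝ), (∀ s ∈ Ioo p q, HasDerivAt Z y s) →
        ∀ s ∈ Ioo p q, Z s = (Z ((p + q) / 2) - (p + q) / 2 * y) + s * y := by
      intro Z y hZ s hs
      have hd : ∀ x ∈ Ioo p q, HasDerivAt (fun x => Z x - x * y) 0 x := by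
        intro x hx
        have := (hZ x hx).sub ((hasDerivAt_id x).mul_const y)
        refine this.congr_deriv ?_
        ring
      have := isOpen_Ioo.is_const_of_deriv_eq_zero (f := fun x => Z x - x * y)
        isPreconnected_Ioo
        (fun x hx => (hd x hx).differentiableAt.differentiableWithinAt)
        (fun x hx => (hd x hx).deriv) hs hm
      linarith
    refine ⟨_, _, _, _, fun s hs => ⟨aff X (deriv X ((p + q) / 2)) (fun x hx => ?_) s hs,
      aff Y (deriv Y ((p + q) / 2)) (fun x hx => ?_) s hs⟩⟩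
    · rw [← cX x hx]
      exact dX x hx
    · rw [← cY x hx]
      exact dY x hx
  obtain ⟨s0, hs0, hk0⟩ := hex
  obtain ⟨σ, hσ, hK⟩ : ∃ σ : ℝ, σ ^ 2 = 1 ∧ 0 < σ * k s0 := by
    rcases lt_or_gt_of_ne hk0 with h | h
    · exact ⟨-1, by norm_num, by linarith⟩
    · exact ⟨1, by norm_num, by linarith⟩
  set K := σ * k s0 with hKdef
  have hc : ContinuousAt (fun s => σ * k s) s0 := ((dk s0 hs0).const_mul σ).continuousAt
  obtain ⟨δ, hδ, hδ2⟩ := Metric.continuousAt_iff.1 hc (K / 5) (by positivity)
  set η := min (δ / 2) (min ((s0 - p) / 2) (min ((q - s0) / 2) (1 / (24 * K)))) with hη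
  have h1 : 0 < s0 - p := by linarith [hs0.1]
  have h2 : 0 < q - s0 := by linarith [hs0.2]
  have hη0 : 0 < η := by
    simp only [hη, lt_min_iff]
    refine ⟨by linarith, by linarith, by linarith, by positivity⟩
  have l1 : η ≤ δ / 2 := min_le_left _ _
  have l2 : η ≤ (s0 - p) / 2 := (min_le_right _ _).trans (min_le_left _ _)
  have l3 : η ≤ (q - s0) / 2 :=
    (min_le_right _ _).trans ((min_le_right _ _).trans (min_le_left _ _))
  have l4 : η ≤ 1 / (24 * K) :=
    (min_le_right _ _).trans ((min_le_right _ _).trans (min_le_right _ _))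
  have hsub : ∀ s ∈ Icc (s0 - η) (s0 + η), s ∈ Ioo p q := fun s hs =>
    ⟨by linarith [hs.1], by linarith [hs.2]⟩
  have hclose : ∀ s ∈ Icc (s0 - η) (s0 + η), |σ * k s - K| < K / 5 := by
    intro s hs
    have : dist s s0 < δ := by
      rw [Real.dist_eq, abs_lt]
      constructor
      · linarith [hs.1]
      · linarith [hs.2]
    have := hδ2 this
    rwa [Real.dist_eq] at this
  refine ⟨4 / 5 * K, 6 / 5 * K, s0 - η, s0 + η, fun s => σ * k s, fun s => σ * k' s, σ,
    by linarith, by linarith, ?_, ?_⟩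
  · refine ⟨by linarith, by positivity, ?_, ?_, by linarith, ?_, ?_, ?_⟩
    · intro s hs
      have := (abs_lt.1 (hclose s hs)).1
      linarith
    · intro s hs
      have := (abs_lt.1 (hclose s hs)).2
      linarith
    · have h5 : K * η ≤ 1 / 24 := by
        calc K * η ≤ K * (1 / (24 * K)) := by gcongr
          _ = 1 / 24 := by field_simp
      nlinarith
    · intro s hs
      exact (dk s (hsub s hs)).const_mul σ
    · exact (continuousOn_const.mul ck').mono hsub
  · intro c P Q
    refine ⟨Real.sqrt_nonneg _, ?_, ?_, ?_, ?_⟩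
    · intro s hs
      have := (((dX s (hsub s hs)).const_mul P).const_add c).add ((dY s (hsub s hs)).const_mul Q)
      exact this
    · intro s hs
      have := ((dX1 s (hsub s hs)).const_mul P).add ((dY1 s (hsub s hs)).const_mul Q)
      refine this.congr_deriv ?_
      rw [eX2 s (hsub s hs), eY2 s (hsub s hs)]
      linear_combination (-(k s) * (-(P * deriv Y s) + Q * deriv X s)) * hσ
    · intro s hs
      have := ((((dY1 s (hsub s hs)).const_mul P).neg).add
        ((dX1 s (hsub s hs)).const_mul Q)).const_mul σ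
      refine this.congr_deriv ?_
      rw [eX2 s (hsub s hs), eY2 s (hsub s hs)]
      ring
    · intro s hs
      rw [Real.sq_sqrt (by positivity)]
      have h3 := hone s (hsub s hs)
      linear_combination ((-(P * deriv Y s) + Q * deriv X s) ^ 2) * hσ + (P ^ 2 + Q ^ 2) * h3

end Pool.Agent.T6.H66.SC.GEO
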