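import Pool.Agent.T6.H66.SC.Defs

/-!
Project SC (helper66), MP_e9ccd1_an: module LOW (helper41).
-/

open MeasureTheory Set Real Filter Topology

namespace Pool.Agent.T6.H66.SC.LOW

open Pool.Agent.T6.H66.SC

/-- monotone from a nonnegative derivative. -/
theorem mono_of {f f' : ℝ → ℝ} {z b : ℝ} (hf : ∀ x ∈ Icc z b, HasDerivAt f (f' x) x)
    (h0 : ∀ x ∈ Icc z b, 0 ≤ f' x) : MonotoneOn f (Icc z b) := by
  apply monotoneOn_of_deriv_nonneg (convex_Icc z b)
  · intro x hx
    exact (hf x hx).continuousAt.continuousWithinAt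
  · intro x hx
    exact (hf x (interior_subset hx)).differentiableAt.differentiableWithinAt
  · intro x hx
    rw [(hf x (interior_subset hx)).deriv]
    exact h0 x (interior_subset hx)

/-- integral of an upper bound of a derivative. -/
theorem int_ge {H H' g : ℝ → ℝ} {s t : ℝ} (hst : s ≤ t)
    (hH : ∀ x ∈ Icc s t, HasDerivAt H (H' x) x) (hc : ContinuousOn H' (Icc s t))
    (hg : ContinuousOn g (Icc s t)) (hle : ∀ x ∈ Icc s t, H' x ≤ g x) :
    H t - H s ≤ ∫ x in s..t, g x := by
  have h1 : ∫ x in s..t, H' x = H t - H s := by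
    apply intervalIntegral.integral_eq_sub_of_hasDerivAt
    · intro x hx
      rw [uIcc_of_le hst] at hx
      exact hH x hx
    · apply ContinuousOn.intervalIntegrable
      rwa [uIcc_of_le hst]
  rw [← h1]
  apply intervalIntegral.integral_mono_on hst
  · apply ContinuousOn.intervalIntegrable
    rwa [uIcc_of_le hst]
  · apply ContinuousOn.intervalIntegrable
    rwa [uIcc_of_le hst]
  · exact hle

/-- the pure real lemma. -/
theorem half {z b m M : ℝ} {ψ ψ' ψ'' : ℝ → ℝ} (hzb : z ≤ b)
    (h1 : ∀ x ∈ Icc z b, HasDerivAt ψ (ψ' x) x)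
    (h2 : ∀ x ∈ Icc z b, HasDerivAt ψ' (ψ'' x) x)
    (hc : ContinuousOn ψ'' (Icc z b)) (z0 : ψ z = 0) (z1 : ψ' z = 0) (hm : 0 < m)
    (hlo : ∀ x ∈ Icc z b, m ≤ ψ'' x) (hhi : ∀ x ∈ Icc z b, ψ'' x ≤ M) (hMm : M ≤ 2 * m)
    (hb : π ≤ m * (b - z) ^ 2 / 2) :
    0 ≤ (∫ x in z..b, sin (ψ x)) ∧
      (1 - cos (π / 8)) ^ 2 / (2 * M * π) ≤ (∫ x in z..b, sin (ψ x)) ^ 2 := by
  have hpi := pi_pos
  have zmem : z ∈ Icc z b := ⟨le_refl z, hzb⟩
  have bmem : b ∈ Icc z b := ⟨hzb, le_refl b⟩
  have hM : 0 < M := lt_of_lt_of_le hm ((hlo z zmem).trans (hhi z zmem))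
  have cψ : ContinuousOn ψ (Icc z b) := fun x hx => (h1 x hx).continuousAt.continuousWithinAt
  have cψ' : ContinuousOn ψ' (Icc z b) := fun x hx => (h2 x hx).continuousAt.continuousWithinAt
  have mψ' : MonotoneOn ψ' (Icc z b) :=
    mono_of h2 (fun x hx => hm.le.trans (hlo x hx))
  have nn' : ∀ x ∈ Icc z b, 0 ≤ ψ' x := by
    intro x hx
    have := mψ' zmem hx hx.1
    rwa [z1] at this
  have mψ : MonotoneOn ψ (Icc z b) := mono_of h1 nn'
  -- lower bound for `ψ'`
  have lin : ∀ x ∈ Icc z b, m * (x - z) ≤ ψ' x := by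
    intro x hx
    have hmono : MonotoneOn (fun x => ψ' x - m * (x - z)) (Icc z b) := by
      apply mono_of (f' := fun x => ψ'' x - m)
      · intro y hy
        have e : HasDerivAt (fun y : ℝ => m * (y - z)) m y := by
          simpa using ((hasDerivAt_id y).sub_const z).const_mul m
        exact (h2 y hy).sub e
      · intro y hy
        have := hlo y hy
        try simp only
        linarith
    have := hmono zmem hx hx.1
    simp only [z1, sub_self, mul_zero] at this
    linarith
  have quad : m * (b - z) ^ 2 / 2 ≤ ψ b := by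
    have hmono : MonotoneOn (fun x => ψ x - m * (x - z) ^ 2 / 2) (Icc z b) := by
      apply mono_of (f' := fun x => ψ' x - m * (x - z))
      · intro y hy
        have e : HasDerivAt (fun y : ℝ => m * (y - z) ^ 2 / 2) (m * (y - z)) y := by
          have e0 := ((((hasDerivAt_id y).sub_const z).pow 2).const_mul m).div_const 2
          exact e0.congr_deriv (by simp; ring)
        exact (h1 y hy).sub e
      · intro y hy
        have := lin y hy
        try simp only
        linarith
    have := hmono zmem bmem hzb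
    simp only [z0, sub_self] at this
    norm_num at this
    linarith
  have hbπ : π ≤ ψ b := hb.trans quad
  -- the two squares
  have sq1 : ∀ x ∈ Icc z b, ψ' x ^ 2 ≤ 2 * M * ψ x := by
    intro x hx
    have hmono : MonotoneOn (fun x => 2 * M * ψ x - ψ' x ^ 2) (Icc z b) := by
      apply mono_of (f' := fun x => 2 * M * ψ' x - 2 * ψ' x * ψ'' x)
      · intro y hy
        have e0 := ((h1 y hy).const_mul (2 * M)).sub ((h2 y hy).pow 2)
        exact e0.congr_deriv (by simp)
      · intro y hy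
        have a1 := hhi y hy
        have a2 := nn' y hy
        try simp only
        nlinarith [mul_nonneg a2 (sub_nonneg.2 a1)]
    have := hmono zmem hx hx.1
    simp only [z0, z1] at this
    norm_num at this
    linarith
  have sq2 : ∀ x ∈ Icc z b, 2 * m * ψ x ≤ ψ' x ^ 2 := by
    intro x hx
    have hmono : MonotoneOn (fun x => ψ' x ^ 2 - 2 * m * ψ x) (Icc z b) := by
      apply mono_of (f' := fun x => 2 * ψ' x * ψ'' x - 2 * m * ψ' x)
      · intro y hy
        have e0 := ((h2 y hy).pow 2).sub ((h1 y hy).const_mul (2 * m))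
        exact e0.congr_deriv (by simp)
      · intro y hy
        have a1 := hlo y hy
        have a2 := nn' y hy
        try simp only
        nlinarith [mul_nonneg a2 (sub_nonneg.2 a1)]
    have := hmono zmem hx hx.1
    simp only [z0, z1] at this
    norm_num at this
    linarith
  -- the points
  obtain ⟨p, hp, hpe⟩ : ∃ p ∈ Icc z b, ψ p = π := by
    have := intermediate_value_Icc hzb cψ
    exact this ⟨by rw [z0]; exact hpi.le, hbπ⟩
  obtain ⟨q, hq, hqe⟩ : ∃ q ∈ Icc z p, ψ q = π / 8 := by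
    have := intermediate_value_Icc hp.1 (cψ.mono (Icc_subset_Icc_right hp.2))
    exact this ⟨by rw [z0]; positivity, by rw [hpe]; linarith⟩
  have hqb : q ∈ Icc z b := ⟨hq.1, hq.2.trans hp.2⟩
  set D := ψ' p with hD
  have hD2 : 2 * m * π ≤ D ^ 2 := by
    have := sq2 p hp
    rwa [hpe] at this
  have hD3 : D ^ 2 ≤ 2 * M * π := by
    have := sq1 p hp
    rwa [hpe] at this
  have hD0 : 0 < D := by
    have h0 : 0 ≤ D := nn' p hp
    have : 0 < D ^ 2 := lt_of_lt_of_le (by positivity) hD2
    exact lt_of_le_of_ne h0 (fun h => by rw [← h] at this; norm_num at this)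
  have csin : ContinuousOn (fun x => sin (ψ x)) (Icc z b) := continuous_sin.comp_continuousOn cψ
  -- piece one
  have s1 : Icc z q ⊆ Icc z b := Icc_subset_Icc_right hqb.2
  have s2 : Icc q p ⊆ Icc z b := Icc_subset_Icc hq.1 hp.2
  have s3 : Icc p b ⊆ Icc z b := Icc_subset_Icc_left hp.1
  have p1 : 2 / D * (1 - cos (π / 8)) ≤ ∫ x in z..q, sin (ψ x) := by
    have := int_ge (H := fun x => 2 / D * (1 - cos (ψ x)))
      (H' := fun x => 2 / D * (sin (ψ x) * ψ' x)) (g := fun x => sin (ψ x)) hq.1 ?_ ?_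
      (csin.mono s1) ?_
    · simpa [z0, hqe] using this
    · intro x hx
      have e0 := (((h1 x (s1 hx)).cos).const_sub 1).const_mul (2 / D)
      exact e0.congr_deriv (by ring)
    · exact continuousOn_const.mul ((csin.mono s1).mul (cψ'.mono s1))
    · intro x hx
      have hx' := s1 hx
      have a0 : 0 ≤ ψ x := by
        have := mψ zmem hx' hx'.1
        rwa [z0] at this
      have a1 : ψ x ≤ π / 8 := by
        have := mψ hx' hqb hx.2
        rwa [hqe] at this
      have a2 : 0 ≤ sin (ψ x) := sin_nonneg_of_nonneg_of_le_pi a0 (by linarith)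
      have a3 : ψ' x ≤ D / 2 := by
        have b1 := sq1 x hx'
        have b2 : ψ' x ^ 2 ≤ (D / 2) ^ 2 := by
          have : 2 * M * ψ x ≤ 2 * M * (π / 8) := mul_le_mul_of_nonneg_left a1 (by positivity)
          have : M * π ≤ 2 * m * π := mul_le_mul_of_nonneg_right hMm hpi.le
          nlinarith
        exact le_of_sq_le_sq b2 (by positivity)
      have a4 : 2 / D * ψ' x ≤ 1 := by
        rw [div_mul_eq_mul_div, div_le_one hD0]
        linarith
      calc 2 / D * (sin (ψ x) * ψ' x) = sin (ψ x) * (2 / D * ψ' x) := by ring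
        _ ≤ sin (ψ x) * 1 := mul_le_mul_of_nonneg_left a4 a2
        _ = sin (ψ x) := mul_one _
  have p2 : 1 / D * (1 + cos (π / 8)) ≤ ∫ x in q..p, sin (ψ x) := by
    have := int_ge (H := fun x => 1 / D * (1 - cos (ψ x)))
      (H' := fun x => 1 / D * (sin (ψ x) * ψ' x)) (g := fun x => sin (ψ x)) hq.2 ?_ ?_
      (csin.mono s2) ?_
    · simp only [hpe, hqe, cos_pi] at this
      refine le_trans (le_of_eq ?_) this
      ring
    · intro x hx
      have e0 := (((h1 x (s2 hx)).cos).const_sub 1).const_mul (1 / D)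
      exact e0.congr_deriv (by ring)
    · exact continuousOn_const.mul ((csin.mono s2).mul (cψ'.mono s2))
    · intro x hx
      have hx' := s2 hx
      have a0 : 0 ≤ ψ x := by
        have := mψ zmem hx' hx'.1
        rwa [z0] at this
      have a1 : ψ x ≤ π := by
        have := mψ hx' hp hx.2
        rwa [hpe] at this
      have a2 : 0 ≤ sin (ψ x) := sin_nonneg_of_nonneg_of_le_pi a0 a1
      have a3 : ψ' x ≤ D := mψ' hx' hp hx.2
      have a4 : 1 / D * ψ' x ≤ 1 := by
        rw [div_mul_eq_mul_div, div_le_one hD0]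
        linarith
      calc 1 / D * (sin (ψ x) * ψ' x) = sin (ψ x) * (1 / D * ψ' x) := by ring
        _ ≤ sin (ψ x) * 1 := mul_le_mul_of_nonneg_left a4 a2
        _ = sin (ψ x) := mul_one _
  have p3 : -(2 / D) ≤ ∫ x in p..b, sin (ψ x) := by
    have pos' : ∀ x ∈ Icc p b, 0 < ψ' x := fun x hx =>
      lt_of_lt_of_le hD0 (mψ' hp (s3 hx) hx.1)
    have := int_ge (H := fun x => (1 - cos (ψ x)) / ψ' x)
      (H' := fun x => (sin (ψ x) * ψ' x * ψ' x - (1 - cos (ψ x)) * ψ'' x) / ψ' x ^ 2)
      (g := fun x => sin (ψ x)) hp.2 ?_ ?_ (csin.mono s3) ?_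
    · simp only [hpe, cos_pi] at this
      have hb' : 0 ≤ (1 - cos (ψ b)) / ψ' b :=
        div_nonneg (by linarith [cos_le_one (ψ b)]) (pos' b ⟨hp.2, le_refl b⟩).le
      have e2 : (1 - (-1 : ℝ)) / ψ' p = 2 / D := by rw [← hD]; norm_num
      rw [e2] at this
      linarith
    · intro x hx
      have e0 := (((h1 x (s3 hx)).cos).const_sub 1).div (h2 x (s3 hx)) (pos' x hx).ne'
      exact e0.congr_deriv (by ring)
    · apply ContinuousOn.div
      · exact (((csin.mono s3).mul (cψ'.mono s3)).mul (cψ'.mono s3)).sub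
          ((continuousOn_const.sub (continuous_cos.comp_continuousOn (cψ.mono s3))).mul
            (hc.mono s3))
      · exact (cψ'.mono s3).pow 2
      · intro x hx
        exact pow_ne_zero 2 (pos' x hx).ne'
    · intro x hx
      have a0 := pos' x hx
      have a1 : 0 ≤ ψ'' x := hm.le.trans (hlo x (s3 hx))
      have a2 : 0 ≤ 1 - cos (ψ x) := by linarith [cos_le_one (ψ x)]
      show (sin (ψ x) * ψ' x * ψ' x - (1 - cos (ψ x)) * ψ'' x) / ψ' x ^ 2 ≤ sin (ψ x)
      rw [div_le_iff₀ (by positivity)]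
      nlinarith [mul_nonneg a2 a1]
  -- sum
  have ii : ∀ s t : ℝ, s ∈ Icc z b → t ∈ Icc z b → IntervalIntegrable (fun x => sin (ψ x)) volume s t := by
    intro s t hs ht
    apply ContinuousOn.intervalIntegrable
    exact csin.mono (by
      intro x hx
      rcases le_total s t with h | h
      · rw [uIcc_of_le h] at hx
        exact ⟨hs.1.trans hx.1, hx.2.trans ht.2⟩
      · rw [uIcc_of_ge h] at hx
        exact ⟨ht.1.trans hx.1, hx.2.trans hs.2⟩)
  have tot : ∫ x in z..b, sin (ψ x) =
      (∫ x in z..q, sin (ψ x)) + (∫ x in q..p, sin (ψ x)) + ∫ x in p..b, sin (ψ x) := by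
    rw [intervalIntegral.integral_add_adjacent_intervals (ii z q zmem hqb) (ii q p hqb hp),
      intervalIntegral.integral_add_adjacent_intervals (ii z p zmem hp) (ii p b hp bmem)]
  have hcos : cos (π / 8) ≤ 1 := cos_le_one _
  have key : (1 - cos (π / 8)) / D ≤ ∫ x in z..b, sin (ψ x) := by
    rw [tot]
    have : (1 - cos (π / 8)) / D
        = 2 / D * (1 - cos (π / 8)) + 1 / D * (1 + cos (π / 8)) + -(2 / D) := by
      field_simp
      ring
    linarith
  have k0 : 0 ≤ (1 - cos (π / 8)) / D := div_nonneg (by linarith) hD0.le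
  refine ⟨k0.trans key, ?_⟩
  calc (1 - cos (π / 8)) ^ 2 / (2 * M * π) ≤ (1 - cos (π / 8)) ^ 2 / D ^ 2 :=
        div_le_div_of_nonneg_left (sq_nonneg _) (by positivity) hD3
    _ = ((1 - cos (π / 8)) / D) ^ 2 := by rw [div_pow]
    _ ≤ (∫ x in z..b, sin (ψ x)) ^ 2 := pow_le_pow_left₀ k0 key 2

/-- both sides of the zero. -/
theorem whole {a z b m M L : ℝ} {ψ ψ' ψ'' : ℝ → ℝ} (haz : a + L ≤ z) (hzb : z + L ≤ b)
    (hL : 0 ≤ L)
    (h1 : ∀ x ∈ Icc a b, HasDerivAt ψ (ψ' x) x)
    (h2 : ∀ x ∈ Icc a b, HasDerivAt ψ' (ψ'' x) x)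
    (hc : ContinuousOn ψ'' (Icc a b)) (z0 : ψ z = 0) (z1 : ψ' z = 0) (hm : 0 < m)
    (hlo : ∀ x ∈ Icc a b, m ≤ ψ'' x) (hhi : ∀ x ∈ Icc a b, ψ'' x ≤ M) (hMm : M ≤ 2 * m)
    (hb : π ≤ m * L ^ 2 / 2) :
    (1 - cos (π / 8)) ^ 2 / (2 * M * π) ≤ (∫ x in a..b, sin (ψ x)) ^ 2 := by
  have haz' : a ≤ z := by linarith
  have hzb' : z ≤ b := by linarith
  have sr : Icc z b ⊆ Icc a b := Icc_subset_Icc_left haz'
  have sl : Icc a z ⊆ Icc a b := Icc_subset_Icc_right hzb'
  have R := half hzb' (fun x hx => h1 x (sr hx)) (fun x hx => h2 x (sr hx)) (hc.mono sr) z0 z1 hm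
    (fun x hx => hlo x (sr hx)) (fun x hx => hhi x (sr hx)) hMm (hb.trans (by
      have : L ^ 2 ≤ (b - z) ^ 2 := pow_le_pow_left₀ hL (by linarith) 2
      have := mul_le_mul_of_nonneg_left this hm.le
      linarith))
  have neg : ∀ x ∈ Icc (-z) (-a), -x ∈ Icc a z := fun x hx => ⟨by linarith [hx.2], by linarith [hx.1]⟩
  have Lf := half (z := -z) (b := -a) (ψ := fun x => ψ (-x)) (ψ' := fun x => -ψ' (-x))
    (ψ'' := fun x => ψ'' (-x)) (m := m) (M := M) (by linarith)
    (fun x hx => by
      have e0 := (h1 (-x) (sl (neg x hx))).comp x (hasDerivAt_neg x)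
      exact e0.congr_deriv (by ring))
    (fun x hx => by
      have e0 := ((h2 (-x) (sl (neg x hx))).comp x (hasDerivAt_neg x)).neg
      exact e0.congr_deriv (by ring))
    (by
      apply hc.comp continuousOn_neg
      intro x hx
      exact sl (neg x hx))
    (by simpa using z0) (by simpa using z1) hm
    (fun x hx => hlo _ (sl (neg x hx))) (fun x hx => hhi _ (sl (neg x hx))) hMm (hb.trans (by
      have : L ^ 2 ≤ (-a - -z) ^ 2 := pow_le_pow_left₀ hL (by linarith) 2
      have := mul_le_mul_of_nonneg_left this hm.le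
      linarith))
  have e1 : ∫ x in (-z)..(-a), sin (ψ (-x)) = ∫ x in a..z, sin (ψ x) := by
    rw [intervalIntegral.integral_comp_neg (fun x => sin (ψ x))]
    simp
  have L0 := Lf.1
  simp only [e1] at L0
  have cψ : ContinuousOn ψ (Icc a b) := fun x hx => (h1 x hx).continuousAt.continuousWithinAt
  have csin : ContinuousOn (fun x => sin (ψ x)) (Icc a b) := continuous_sin.comp_continuousOn cψ
  have i1 : IntervalIntegrable (fun x => sin (ψ x)) volume a z := by
    apply ContinuousOn.intervalIntegrable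
    rw [uIcc_of_le haz']
    exact csin.mono sl
  have i2 : IntervalIntegrable (fun x => sin (ψ x)) volume z b := by
    apply ContinuousOn.intervalIntegrable
    rw [uIcc_of_le hzb']
    exact csin.mono sr
  rw [← intervalIntegral.integral_add_adjacent_intervals i1 i2]
  refine R.2.trans ?_
  exact pow_le_pow_left₀ R.1 (by linarith) 2

/-- the imaginary part. -/
theorem im_le {a b : ℝ} (hab : a ≤ b) {Φ : ℝ → ℝ} (hΦ : ContinuousOn Φ (Icc a b)) (θ : ℝ) :
    (∫ x in a..b, sin (2 * π * (Φ x - θ))) ^ 2 ≤ ‖G Φ a b‖ ^ 2 := by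
  have hE : ContinuousOn (E Φ) (Icc a b) := by
    unfold E
    apply Complex.continuous_exp.comp_continuousOn
    apply ContinuousOn.mul _ continuousOn_const
    apply Complex.continuous_ofReal.comp_continuousOn
    exact (continuousOn_const.mul hΦ).neg
  have hi : IntervalIntegrable (fun x => Complex.exp (((2 * π * θ : ℝ) : ℂ) * Complex.I) * E Φ x)
      volume a b := by
    apply ContinuousOn.intervalIntegrable
    rw [uIcc_of_le hab]
    exact continuousOn_const.mul hE
  have e1 : Complex.exp (((2 * π * θ : ℝ) : ℂ) * Complex.I) * G Φ a b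
      = ∫ x in a..b, Complex.exp (((2 * π * θ : ℝ) : ℂ) * Complex.I) * E Φ x := by
    unfold G
    rw [intervalIntegral.integral_const_mul]
  have e2 : (Complex.exp (((2 * π * θ : ℝ) : ℂ) * Complex.I) * G Φ a b).im
      = -∫ x in a..b, sin (2 * π * (Φ x - θ)) := by
    rw [e1]
    have h3 := Complex.imCLM.intervalIntegral_comp_comm hi
    simp only [Complex.imCLM_apply] at h3
    rw [← h3, ← intervalIntegral.integral_neg]
    congr 1
    ext x
    unfold E
    rw [← Complex.exp_add, ← add_mul, ← Complex.ofReal_add, Complex.exp_ofReal_mul_I_im]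
    rw [← sin_neg]
    congr 1
    ring
  have e3 : ‖G Φ a b‖ = ‖Complex.exp (((2 * π * θ : ℝ) : ℂ) * Complex.I) * G Φ a b‖ := by
    rw [norm_mul, Complex.norm_exp_ofReal_mul_I, one_mul]
  rw [e3]
  have e4 := Complex.abs_im_le_norm (Complex.exp (((2 * π * θ : ℝ) : ℂ) * Complex.I) * G Φ a b)
  rw [e2, abs_neg] at e4
  calc (∫ x in a..b, sin (2 * π * (Φ x - θ))) ^ 2 = |∫ x in a..b, sin (2 * π * (Φ x - θ))| ^ 2 := by
        rw [sq_abs]
    _ ≤ _ := pow_le_pow_left₀ (abs_nonneg _) e4 2

theorem low (hNZ : StmNZ) : StmLOW := by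
  intro κ0 κ1 a b κ κ' hA
  have hpi := pi_pos
  have hab := hA.hab
  have hκ0 := hA.pos
  have amem : a ∈ Icc a b := ⟨le_refl a, hab.le⟩
  have hκ1 : 0 < κ1 := lt_of_lt_of_le hκ0 ((hA.lo a amem).trans (hA.hi a amem))
  have hL : 0 < b - a := sub_pos.2 hab
  have hcos : cos (π / 8) < 1 := by
    have h := cos_lt_cos_of_nonneg_of_le_pi (x := 0) (y := π / 8) (le_refl 0) (by linarith)
      (by positivity)
    rwa [cos_zero] at h
  refine ⟨(1 - cos (π / 8)) ^ 2 / (2 * (2 * π * κ1) * π), ?_,
    max 1 (1000 / (9 * κ0 * (b - a) ^ 2)), le_max_left _ _, ?_⟩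
  · have : 0 < 1 - cos (π / 8) := by linarith
    positivity
  intro Φ u v r hS hr hN
  have hr1 : 1 ≤ r := (le_max_left _ _).trans hr
  have hr0 : 0 < r := by linarith
  have hr2 : 1000 / (9 * κ0 * (b - a) ^ 2) ≤ r := (le_max_right _ _).trans hr
  obtain ⟨⟨z, hz, hz0⟩, hv⟩ := hNZ κ0 κ1 a b κ κ' hA Φ u v r hS hr0 hN
  have hratio := hA.ratio
  have cκ : ContinuousOn κ (Icc a b) := fun x hx => (hA.der x hx).continuousAt.continuousWithinAt
  have cv : ContinuousOn v (Icc a b) := fun x hx => (hS.dv x hx).continuousAt.continuousWithinAt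
  have cΦ : ContinuousOn Φ (Icc a b) := fun x hx => (hS.dΦ x hx).continuousAt.continuousWithinAt
  have hvr : ∀ x ∈ Icc a b, |v x| ≤ r := by
    intro x hx
    have := hS.sq x hx
    apply abs_le_of_sq_le_sq _ hr0.le
    nlinarith [sq_nonneg (u x)]
  have hbig : π ≤ 2 * π * (9 / 10 * κ0 * r) * ((b - a) / 10) ^ 2 / 2 := by
    rw [div_le_iff₀ (by positivity)] at hr2
    have : 1 ≤ (9 / 10 * κ0 * r) * ((b - a) / 10) ^ 2 := by nlinarith
    calc π = π * 1 := by ring
      _ ≤ π * ((9 / 10 * κ0 * r) * ((b - a) / 10) ^ 2) := mul_le_mul_of_nonneg_left this hpi.le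
      _ = _ := by ring
  have fin : (1 - cos (π / 8)) ^ 2 / (2 * (2 * π * κ1) * π) / r
      = (1 - cos (π / 8)) ^ 2 / (2 * (2 * π * (κ1 * r)) * π) := by
    rw [div_div]
    congr 1
    ring
  rw [fin]
  rcases hv with hv | hv
  · refine le_trans ?_ (im_le hab.le cΦ (Φ z))
    apply whole (z := z) (m := 2 * π * (9 / 10 * κ0 * r)) (L := (b - a) / 10)
      (ψ' := fun x => 2 * π * u x) (ψ'' := fun x => 2 * π * (κ x * v x)) (by linarith [hz.1])
      (by linarith [hz.2]) (by positivity)
    · intro x hx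
      exact ((hS.dΦ x hx).sub_const (Φ z)).const_mul (2 * π)
    · intro x hx
      exact (hS.du x hx).const_mul (2 * π)
    · exact continuousOn_const.mul (cκ.mul cv)
    · simp
    · simp [hz0]
    · positivity
    · intro x hx
      have a1 := hA.lo x hx
      have a2 := hv x hx
      have : 9 / 10 * κ0 * r ≤ κ x * v x := by
        calc 9 / 10 * κ0 * r = κ0 * (9 / 10 * r) := by ring
          _ ≤ κ x * v x := mul_le_mul a1 a2 (by positivity) (hκ0.le.trans a1)
      exact mul_le_mul_of_nonneg_left this (by positivity)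
    · intro x hx
      have a1 := hA.hi x hx
      have a0 := hA.lo x hx
      have a2 := (abs_le.1 (hvr x hx)).2
      have a3 := hv x hx
      have : κ x * v x ≤ κ1 * r := mul_le_mul a1 a2 (le_trans (by positivity) a3) hκ1.le
      exact mul_le_mul_of_nonneg_left this (by positivity)
    · have : κ1 * r ≤ 2 * (9 / 10 * κ0 * r) := by nlinarith
      calc 2 * π * (κ1 * r) ≤ 2 * π * (2 * (9 / 10 * κ0 * r)) :=
            mul_le_mul_of_nonneg_left this (by positivity)
        _ = _ := by ring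
    · exact hbig
  · refine le_trans ?_ (im_le hab.le cΦ (Φ z))
    have e5 : (∫ x in a..b, sin (2 * π * (Φ x - Φ z))) ^ 2
        = (∫ x in a..b, sin (-(2 * π * (Φ x - Φ z)))) ^ 2 := by
      simp only [sin_neg]
      rw [intervalIntegral.integral_neg, neg_sq]
    rw [e5]
    apply whole (z := z) (m := 2 * π * (9 / 10 * κ0 * r)) (L := (b - a) / 10)
      (ψ' := fun x => -(2 * π * u x)) (ψ'' := fun x => -(2 * π * (κ x * v x))) (by linarith [hz.1])
      (by linarith [hz.2]) (by positivity)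
    · intro x hx
      exact (((hS.dΦ x hx).sub_const (Φ z)).const_mul (2 * π)).neg
    · intro x hx
      exact ((hS.du x hx).const_mul (2 * π)).neg
    · exact (continuousOn_const.mul (cκ.mul cv)).neg
    · simp
    · simp [hz0]
    · positivity
    · intro x hx
      have a1 := hA.lo x hx
      have a2 := hv x hx
      have : 9 / 10 * κ0 * r ≤ κ x * (-v x) := by
        calc 9 / 10 * κ0 * r = κ0 * (9 / 10 * r) := by ring
          _ ≤ κ x * (-v x) := mul_le_mul a1 (by linarith) (by positivity) (hκ0.le.trans a1)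
      calc 2 * π * (9 / 10 * κ0 * r) ≤ 2 * π * (κ x * (-v x)) :=
            mul_le_mul_of_nonneg_left this (by positivity)
        _ = _ := by ring
    · intro x hx
      have a1 := hA.hi x hx
      have a0 := hA.lo x hx
      have a2 := (abs_le.1 (hvr x hx)).1
      have a3 := hv x hx
      have : κ x * (-v x) ≤ κ1 * r :=
        mul_le_mul a1 (by linarith) (le_trans (by positivity : (0 : ℝ) ≤ 9 / 10 * r) (by linarith))
          hκ1.le
      calc -(2 * π * (κ x * v x)) = 2 * π * (κ x * (-v x)) := by ring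
        _ ≤ _ := mul_le_mul_of_nonneg_left this (by positivity)
    · have : κ1 * r ≤ 2 * (9 / 10 * κ0 * r) := by nlinarith
      calc 2 * π * (κ1 * r) ≤ 2 * π * (2 * (9 / 10 * κ0 * r)) :=
            mul_le_mul_of_nonneg_left this (by positivity)
        _ = _ := by ring
    · exact hbig

end Pool.Agent.T6.H66.SC.LOW
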