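import Pool.Agent.T6.H66.SC.Defs

/-!
Project SC (helper66), MP_e9ccd1_an: module LWR (helper41).
-/

open MeasureTheory Set Real Filter Topology

namespace Pool.Agent.T6.H66.SC.LWR

open Pool.Agent.T6.H66.SC

theorem int_le {A B m : ℝ} (hAB : A ≤ B) {f : ℝ → ℝ} (hc : ContinuousOn f (Icc A B))
    (hf : ∀ x ∈ Icc A B, f x ≤ m) : (∫ x in A..B, f x) ≤ (B - A) * m := by
  have hi : IntervalIntegrable f volume A B := by
    rw [← uIcc_of_le hAB] at hc
    exact hc.intervalIntegrable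
  have h := intervalIntegral.integral_mono_on hAB hi (intervalIntegrable_const (c := m)) hf
  rw [intervalIntegral.integral_const, smul_eq_mul] at h
  exact h

theorem lwr (hNSUM : StmNSUM) (hNON : StmNON) (hTRV : StmTRV) (hCNT : StmCNT) (hSUM : StmSUM)
    (hPI : StmPI) : StmLWR := by
  classical
  intro κ0 κ1 a b κ κ' h ι _ A Φ u v r hA hS hP
  obtain ⟨C, hC, ρ, hρ, hcnt⟩ := hCNT κ0 κ1 a b κ κ' h ι A Φ u v r hA hS hP
  have hsum := hSUM ι r C ρ hC hρ hcnt
  obtain ⟨C5, hC5, R5, hR5, hnon⟩ := hNON κ0 κ1 a b κ κ' h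
  obtain ⟨htrv, -⟩ := hTRV κ0 κ1 a b κ κ' h
  have hpi := hPI κ0 κ1 a b κ κ' h ι A Φ u v r hA hS hP (fun _ => 1) continuousOn_const
  have hab := h.hab
  have hAB : al a b ≤ be a b := by unfold al be; linarith
  set D := be a b - al a b with hD
  have hDpos : 0 < D := by rw [hD]; unfold al be; linarith
  obtain ⟨RN, hRN, hnsum⟩ := hNSUM κ0 κ1 a b κ κ' h ι A Φ u v r hA hS hP (A * D / 8)
    (by positivity)
  set η : ℝ := min (1 / 2) (A / (8 * C)) with hη
  have hη0 : 0 < η := lt_min (by norm_num) (by positivity)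
  have hη1 : η < 1 := (min_le_left _ _).trans_lt (by norm_num)
  have hηC : C * η ≤ A / 8 := by
    have h1 : η ≤ A / (8 * C) := min_le_right _ _
    have h2 : C * η ≤ C * (A / (8 * C)) := mul_le_mul_of_nonneg_left h1 hC.le
    have h3 : C * (A / (8 * C)) = A / 8 := by field_simp
    linarith
  set K : ℝ := max 1 (64 * C * C5 / A) with hK
  have hK1 : 1 ≤ K := le_max_left _ _
  have hK0 : 0 < K := by linarith
  have hKC : 8 * C * C5 / K ≤ A / 8 := by
    have h1 : 64 * C * C5 / A ≤ K := le_max_right _ _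
    rw [div_le_iff₀ hA] at h1
    rw [div_le_div_iff₀ hK0 (by norm_num)]
    linarith
  refine ⟨A / (4 * K), by positivity, η, hη0, K, hK1, hη1,
    max (max RN R5) (max (4 / (b - a)) (ρ / η)),
    hRN.trans ((le_max_left _ _).trans (le_max_left _ _)), fun R hR => ?_⟩
  have hR1 : RN ≤ R := ((le_max_left _ _).trans (le_max_left _ _)).trans hR
  have hR2 : R5 ≤ R := ((le_max_right _ _).trans (le_max_left _ _)).trans hR
  have hR3 : 4 / (b - a) ≤ R := ((le_max_left _ _).trans (le_max_right _ _)).trans hR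
  have hR4 : ρ / η ≤ R := ((le_max_right _ _).trans (le_max_right _ _)).trans hR
  have hR0 : 0 < R := by linarith
  have hηR : ρ ≤ η * R := by
    rw [div_le_iff₀ hη0] at hR4
    linarith
  have hKR : ρ ≤ K * R := hηR.trans (mul_le_mul_of_nonneg_right (by linarith) hR0.le)
  set T : ι → ℝ := fun i => ∫ s in (al a b)..(be a b), cR (Φ i) R s with hT
  have hT1 : ∀ i, T i ≤ D * (1 / R) := fun i =>
    int_le hAB (htrv (Φ i) (u i) (v i) (r i) (hS i) R hR3 hR0).2 fun x hx =>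
      ((htrv (Φ i) (u i) (v i) (r i) (hS i) R hR3 hR0).1 x hx).2
  have hT2 : ∀ i, ¬ Nr κ0 a b (u i) (r i) → T i ≤ D * (C5 * R / r i ^ 2) := fun i hi =>
    int_le hAB (htrv (Φ i) (u i) (v i) (r i) (hS i) R hR3 hR0).2 fun x hx =>
      (hnon (Φ i) (u i) (v i) (r i) (hS i) hi R hR2 x hx).1
  have hpi' := hpi R hR3 hR0
  have e1 : (fun i => ∫ s in (al a b)..(be a b), (1 : ℝ) * cR (Φ i) R s) = T := by
    funext i
    simp only [one_mul, hT]
  have e2 : A * ∫ s in (al a b)..(be a b), (1 : ℝ) = A * D := by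
    rw [intervalIntegral.integral_const, smul_eq_mul, mul_one]
  rw [e1, e2] at hpi'
  have hAD : 0 < A * D := by positivity
  obtain ⟨F0, hF0⟩ := (hpi'.eventually_const_lt (show 3 / 4 * (A * D) < A * D by linarith)).exists
  set F := F0.filter (fun i => ¬ Nr κ0 a b (u i) (r i) ∧ η * R < r i ∧ r i ≤ K * R) with hF
  refine ⟨F, fun i hi => (Finset.mem_filter.1 hi).2, ?_⟩
  -- splitting
  have s1 : ∑ i ∈ F0, T i = ∑ i ∈ F0.filter (fun i => Nr κ0 a b (u i) (r i)), T i +
      ∑ i ∈ F0.filter (fun i => ¬ Nr κ0 a b (u i) (r i)), T i :=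
    (Finset.sum_filter_add_sum_filter_not _ _ _).symm
  have s2 : ∑ i ∈ F0.filter (fun i => ¬ Nr κ0 a b (u i) (r i)), T i =
      ∑ i ∈ (F0.filter (fun i => ¬ Nr κ0 a b (u i) (r i))).filter (fun i => r i ≤ η * R), T i +
      ∑ i ∈ (F0.filter (fun i => ¬ Nr κ0 a b (u i) (r i))).filter (fun i => ¬ r i ≤ η * R), T i :=
    (Finset.sum_filter_add_sum_filter_not _ _ _).symm
  have s3 : ∑ i ∈ (F0.filter (fun i => ¬ Nr κ0 a b (u i) (r i))).filter
        (fun i => ¬ r i ≤ η * R), T i =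
      ∑ i ∈ ((F0.filter (fun i => ¬ Nr κ0 a b (u i) (r i))).filter
        (fun i => ¬ r i ≤ η * R)).filter (fun i => r i ≤ K * R), T i +
      ∑ i ∈ ((F0.filter (fun i => ¬ Nr κ0 a b (u i) (r i))).filter
        (fun i => ¬ r i ≤ η * R)).filter (fun i => ¬ r i ≤ K * R), T i :=
    (Finset.sum_filter_add_sum_filter_not _ _ _).symm
  have hFeq : ((F0.filter (fun i => ¬ Nr κ0 a b (u i) (r i))).filter
        (fun i => ¬ r i ≤ η * R)).filter (fun i => r i ≤ K * R) = F := by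
    ext i
    simp only [hF, Finset.mem_filter, not_le]
    tauto
  have b1 : ∑ i ∈ F0.filter (fun i => Nr κ0 a b (u i) (r i)), T i ≤ A * D / 8 :=
    hnsum R hR1 _ fun i hi => (Finset.mem_filter.1 hi).2
  have b2 : ∑ i ∈ (F0.filter (fun i => ¬ Nr κ0 a b (u i) (r i))).filter
      (fun i => r i ≤ η * R), T i ≤ A * D / 8 := by
    set F2 := (F0.filter (fun i => ¬ Nr κ0 a b (u i) (r i))).filter (fun i => r i ≤ η * R)
    have hc := hcnt (η * R) hηR F2 fun i hi => (Finset.mem_filter.1 hi).2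
    calc ∑ i ∈ F2, T i ≤ ∑ i ∈ F2, D * (1 / R) := Finset.sum_le_sum fun i _ => hT1 i
      _ = F2.card * (D * (1 / R)) := by rw [Finset.sum_const, nsmul_eq_mul]
      _ ≤ (C * (η * R)) * (D * (1 / R)) := by gcongr
      _ = (C * η) * D := by field_simp
      _ ≤ A / 8 * D := mul_le_mul_of_nonneg_right hηC hDpos.le
      _ = A * D / 8 := by ring
  have b3 : ∑ i ∈ ((F0.filter (fun i => ¬ Nr κ0 a b (u i) (r i))).filter
        (fun i => ¬ r i ≤ η * R)).filter (fun i => ¬ r i ≤ K * R), T i ≤ A * D / 8 := by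
    set F3 := ((F0.filter (fun i => ¬ Nr κ0 a b (u i) (r i))).filter
        (fun i => ¬ r i ≤ η * R)).filter (fun i => ¬ r i ≤ K * R) with hF3
    have hmem : ∀ i ∈ F3, ¬ Nr κ0 a b (u i) (r i) ∧ K * R < r i := by
      intro i hi
      simp only [hF3, Finset.mem_filter, not_le] at hi
      exact ⟨hi.1.1.2, hi.2⟩
    have hc := hsum (K * R) hKR F3 fun i hi => (hmem i hi).2
    calc ∑ i ∈ F3, T i ≤ ∑ i ∈ F3, D * C5 * R * (1 / r i ^ 2) :=
          Finset.sum_le_sum fun i hi => (hT2 i (hmem i hi).1).trans (le_of_eq (by ring))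
      _ = D * C5 * R * ∑ i ∈ F3, 1 / r i ^ 2 := by rw [Finset.mul_sum]
      _ ≤ D * C5 * R * (8 * C / (K * R)) := by gcongr
      _ = (8 * C * C5 / K) * D := by field_simp
      _ ≤ A / 8 * D := mul_le_mul_of_nonneg_right hKC hDpos.le
      _ = A * D / 8 := by ring
  have b4 : ∑ i ∈ F, T i ≤ D * K * ∑ i ∈ F, 1 / r i := by
    rw [Finset.mul_sum]
    refine Finset.sum_le_sum fun i hi => (hT1 i).trans ?_
    have hi' := (Finset.mem_filter.1 hi).2
    have hri : 0 < r i := lt_trans (by positivity) hi'.2.1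
    have h1 : 1 / R ≤ K * (1 / r i) := by
      rw [mul_one_div, div_le_div_iff₀ hR0 hri]
      linarith [hi'.2.2]
    calc D * (1 / R) ≤ D * (K * (1 / r i)) := mul_le_mul_of_nonneg_left h1 hDpos.le
      _ = D * K * (1 / r i) := by ring
  rw [hFeq] at s3
  have h5 : A * D / 4 ≤ D * K * ∑ i ∈ F, 1 / r i := by linarith
  have h6 : A / (4 * K) * (D * K) = A * D / 4 := by field_simp
  have h7 : A / (4 * K) * (D * K) ≤ (∑ i ∈ F, 1 / r i) * (D * K) := by
    rw [h6]; linarith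
  exact le_of_mul_le_mul_right h7 (by positivity)

end Pool.Agent.T6.H66.SC.LWR
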