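import Pool.Agent.T6.H66.SC.Curve

/-! # Project SC, module MEA: the tight frame property on indicators of arcs -/

set_option autoImplicit false

open MeasureTheory Set Real Filter Topology
open scoped ContDiff RealInnerProductSpace

namespace Pool.Agent.T6.H66.SC.MEA

open Pool.Agent.T6.H66.SC

theorem cont_expo {d : ℕ} (l : V d) : Continuous (expo l) := by
  unfold expo
  refine Complex.continuous_exp.comp ?_
  refine Continuous.mul ?_ continuous_const
  refine Complex.continuous_ofReal.comp ?_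
  exact (continuous_const.mul (continuous_const.inner continuous_id)).neg

theorem E_eq {d : ℕ} (γ : ℝ → V d) (l : V d) (x : ℝ) : E (fun s => ⟪l, γ s⟫) x = expo l (γ x) := rfl

/-- The integral with respect to the arc-length measure. -/
theorem integral_arc {d : ℕ} {F : Type} [NormedAddCommGroup F] [NormedSpace ℝ F]
    (γ : ℝ → V d) (L : ℝ) (hL : 0 < L) (hγ : ContinuousOn γ (Icc 0 L)) (g : V d → F)
    (hg : AEStronglyMeasurable g (Measure.map γ (volume.restrict (Icc 0 L)))) :
    ∫ x, g x ∂(arcMeasure γ L) = L⁻¹ • ∫ x in Icc 0 L, g (γ x) := by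
  unfold arcMeasure
  rw [integral_smul_measure, integral_map (hγ.aemeasurable measurableSet_Icc) hg,
    ENNReal.toReal_inv, ENNReal.toReal_ofReal hL.le]

theorem ae_iff_mem {d : ℕ} (γ : ℝ → V d) (L : ℝ) (hγ : PSCurve γ L) (s t : ℝ) (h0s : 0 ≤ s)
    (htL : t ≤ L) :
    ∀ᵐ x ∂(volume.restrict (Icc 0 L)), (γ x ∈ γ '' Icc s t ↔ x ∈ Icc s t) := by
  rw [ae_restrict_iff' measurableSet_Icc]
  set F : Set ℝ := {s : ℝ | s ∈ Ico 0 L ∧ ∃ s' ∈ Ico 0 L, s' ≠ s ∧ γ s' = γ s} with hF
  set T : Set ℝ := {x | x ∈ Ico 0 L ∧ γ x = γ L} with hT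
  have hFfin : F.Finite := hγ.fin
  have hTfin : T.Finite := by
    rcases T.eq_empty_or_nonempty with he | ⟨x0, hx0⟩
    · rw [he]; exact Set.finite_empty
    · refine (hFfin.insert x0).subset ?_
      intro x hx
      by_cases hxx : x = x0
      · left; exact hxx
      · right
        exact ⟨hx.1, x0, hx0.1, fun h => hxx h.symm, by rw [hx0.2, hx.2]⟩
  have hN : ((F ∪ T) ∪ {L}).Finite := (hFfin.union hTfin).union (Set.finite_singleton L)
  have hae : ∀ᵐ x ∂(volume : Measure ℝ), x ∉ (F ∪ T) ∪ {L} := by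
    have := hN.measure_zero (volume : Measure ℝ)
    exact measure_eq_zero_iff_ae_notMem.1 this
  filter_upwards [hae] with x hx hxL
  constructor
  · rintro ⟨y, hy, hyx⟩
    by_contra hcon
    have hne : y ≠ x := by
      rintro rfl
      exact hcon hy
    have hxL' : x ≠ L := fun h => hx (Or.inr h)
    have hxI : x ∈ Ico 0 L := ⟨hxL.1, lt_of_le_of_ne hxL.2 hxL'⟩
    by_cases hyL : y = L
    · exact hx (Or.inl (Or.inr ⟨hxI, by rw [← hyx, hyL]⟩))
    · have hyI : y ∈ Ico 0 L := ⟨le_trans h0s hy.1, lt_of_le_of_ne (le_trans hy.2 htL) hyL⟩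
      exact hx (Or.inl (Or.inl ⟨hxI, y, hyI, hne, hyx⟩))
  · intro h
    exact mem_image_of_mem γ h

/-- Integrals of functions supported on the arc. -/
theorem integral_ind {F : Type} [NormedAddCommGroup F] [NormedSpace ℝ F] (L s t : ℝ)
    (h0s : 0 ≤ s) (hst : s ≤ t) (htL : t ≤ L) (g h : ℝ → F)
    (hgh : ∀ᵐ x ∂(volume.restrict (Icc 0 L)), g x = (Icc s t).indicator h x) :
    ∫ x in Icc 0 L, g x = ∫ x in s..t, h x := by
  rw [integral_congr_ae hgh, setIntegral_indicator measurableSet_Icc,
    inter_eq_right.2 (Icc_subset_Icc h0s htL), integral_Icc_eq_integral_Ioc,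
    intervalIntegral.integral_of_le hst]

theorem mea : StmMEA := by
  intro d γ L hγ Λ A h s t h0s hst htL
  have hL := hγ.pos
  have hcont : ContinuousOn γ (Icc 0 L) := hγ.cont
  set S : Set (V d) := γ '' Icc s t with hS
  have hSm : MeasurableSet S :=
    ((isCompact_Icc.image_of_continuousOn
      (hcont.mono (Icc_subset_Icc h0s htL))).isClosed).measurableSet
  have hfin : IsFiniteMeasure (arcMeasure γ L) := by
    unfold arcMeasure
    refine Measure.smul_finite _ ?_
    rw [ENNReal.inv_ne_top]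
    simpa using hL
  have hae := ae_iff_mem γ L hγ s t h0s htL
  have hmem : MemLp (S.indicator (fun _ => (1 : ℂ))) 2 (arcMeasure γ L) :=
    memLp_indicator_const 2 hSm 1 (Or.inr (measure_ne_top _ _))
  have hmeas : Measurable (S.indicator (fun _ => (1 : ℂ))) := measurable_const.indicator hSm
  have key := h (S.indicator (fun _ => (1 : ℂ))) hmem
  have e1 : ∀ l : Λ, ∫ x, S.indicator (fun _ => (1 : ℂ)) x * expo (l : V d) x ∂(arcMeasure γ L) =
      L⁻¹ • G (fun s => ⟪(l : V d), γ s⟫) s t := by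
    intro l
    rw [integral_arc γ L hL hcont (fun x => S.indicator (fun _ => (1 : ℂ)) x * expo (l : V d) x)
      (hmeas.mul (cont_expo (l : V d)).measurable).aestronglyMeasurable]
    congr 1
    unfold G
    refine integral_ind L s t h0s hst htL _ _ ?_
    filter_upwards [hae] with x hx
    by_cases hxs : x ∈ Icc s t
    · rw [indicator_of_mem (hx.2 hxs), indicator_of_mem hxs, one_mul, E_eq]
    · rw [indicator_of_notMem (fun h => hxs (hx.1 h)), indicator_of_notMem hxs, zero_mul]
  have e2 : ∫ x, ‖S.indicator (fun _ => (1 : ℂ)) x‖ ^ 2 ∂(arcMeasure γ L) = L⁻¹ * (t - s) := by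
    rw [integral_arc γ L hL hcont (fun x => ‖S.indicator (fun _ => (1 : ℂ)) x‖ ^ 2)
      (hmeas.norm.pow_const 2).aestronglyMeasurable, smul_eq_mul]
    congr 1
    have : ∫ x in s..t, (1 : ℝ) = t - s := by simp
    rw [← this]
    refine integral_ind L s t h0s hst htL _ _ ?_
    filter_upwards [hae] with x hx
    by_cases hxs : x ∈ Icc s t
    · rw [indicator_of_mem (hx.2 hxs), indicator_of_mem hxs]; simp
    · rw [indicator_of_notMem (fun h => hxs (hx.1 h)), indicator_of_notMem hxs]; simp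
  rw [e2] at key
  have key2 := key.mul_left (L ^ 2)
  have e3 : L ^ 2 * (A * (L⁻¹ * (t - s))) = A * L * (t - s) := by
    field_simp
  rw [e3] at key2
  refine key2.congr_fun ?_
  intro l
  rw [e1 l, norm_smul, mul_pow, norm_inv, Real.norm_eq_abs, abs_of_pos hL]
  field_simp

end Pool.Agent.T6.H66.SC.MEA
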