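import Pool.Agent.T6.H66.SC.Defs

/-!
# Project SC, module NON
-/

open MeasureTheory Set Real Filter Topology

namespace Pool.Agent.T6.H66.SC.NON

open Pool.Agent.T6.H66.SC

/-- the velocity is Lipschitz. -/
theorem u_lip {κ0 κ1 a b : ℝ} {κ κ' : ℝ → ℝ} (hA : Arc κ0 κ1 a b κ κ') {Φ u v : ℝ → ℝ} {r : ℝ}
    (hS : Sys a b κ Φ u v r) {s x : ℝ} (has : a ≤ s) (hsx : s ≤ x) (hxb : x ≤ b) :
    |u x - u s| ≤ κ1 * r * (x - s) := by
  have hd : ∀ y ∈ Icc s x, HasDerivWithinAt u (κ y * v y) (Icc s x) y := fun y hy =>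
    (hS.du y ⟨has.trans hy.1, hy.2.trans hxb⟩).hasDerivWithinAt
  have hb : ∀ y ∈ Ico s x, ‖κ y * v y‖ ≤ κ1 * r := by
    intro y hy
    have hy' : y ∈ Icc a b := ⟨has.trans hy.1, hy.2.le.trans hxb⟩
    have h1 := hA.lo y hy'
    have h2 := hA.hi y hy'
    have h3 := hA.pos
    have hv : |v y| ≤ r := by
      apply abs_le_of_sq_le_sq _ hS.rnn
      nlinarith [hS.sq y hy', sq_nonneg (u y)]
    rw [Real.norm_eq_abs, abs_mul, abs_of_pos (by linarith : 0 < κ y)]
    exact mul_le_mul h2 hv (abs_nonneg _) (by linarith)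
  have := norm_image_sub_le_of_norm_deriv_le_segment' hd hb x ⟨hsx, le_refl _⟩
  rwa [Real.norm_eq_abs] at this

/-- second order expansion of the phase. -/
theorem phi_exp {κ0 κ1 a b : ℝ} {κ κ' : ℝ → ℝ} (hA : Arc κ0 κ1 a b κ κ') {Φ u v : ℝ → ℝ} {r : ℝ}
    (hS : Sys a b κ Φ u v r) {s x h : ℝ} (has : a ≤ s) (hsx : s ≤ x) (hxh : x ≤ s + h)
    (hxb : x ≤ b) :
    |Φ x - Φ s - u s * (x - s)| ≤ κ1 * r * h * (x - s) := by
  have hd : ∀ y ∈ Icc s x, HasDerivWithinAt (fun y => Φ y - u s * (y - s)) (u y - u s) (Icc s x) y := by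
    intro y hy
    have h1 := hS.dΦ y ⟨has.trans hy.1, hy.2.trans hxb⟩
    have h2 : HasDerivAt (fun y => u s * (y - s)) (u s * 1) y :=
      ((hasDerivAt_id y).sub_const s).const_mul (u s)
    rw [mul_one] at h2
    exact (h1.sub h2).hasDerivWithinAt
  have hr := hS.rnn
  have hκ : 0 ≤ κ1 := by
    have h1 := hA.lo a ⟨le_refl _, hA.hab.le⟩
    have h2 := hA.hi a ⟨le_refl _, hA.hab.le⟩
    have h3 := hA.pos
    linarith
  have hb : ∀ y ∈ Ico s x, ‖u y - u s‖ ≤ κ1 * r * h := by
    intro y hy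
    rw [Real.norm_eq_abs]
    refine le_trans (u_lip hA hS has hy.1 (hy.2.le.trans hxb)) ?_
    apply mul_le_mul_of_nonneg_left _ (by positivity)
    linarith [hy.2]
  have := norm_image_sub_le_of_norm_deriv_le_segment' hd hb x ⟨hsx, le_refl _⟩
  rw [Real.norm_eq_abs] at this
  have h2 : Φ x - u s * (x - s) - (Φ s - u s * (s - s)) = Φ x - Φ s - u s * (x - s) := by ring
  rw [h2] at this
  exact this

/-- unimodularity. -/
theorem norm_E (Φ : ℝ → ℝ) (x : ℝ) : ‖E Φ x‖ = 1 := by
  unfold E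
  exact Complex.norm_exp_ofReal_mul_I _

/-- difference of two exponentials. -/
theorem norm_exp_sub (p q : ℝ) :
    ‖Complex.exp ((p : ℂ) * Complex.I) - Complex.exp ((q : ℂ) * Complex.I)‖ ≤ |p - q| := by
  have h : Complex.exp ((p : ℂ) * Complex.I) - Complex.exp ((q : ℂ) * Complex.I)
      = Complex.exp ((q : ℂ) * Complex.I) * (Complex.exp (((p - q : ℝ) : ℂ) * Complex.I) - 1) := by
    rw [mul_sub, ← Complex.exp_add, mul_one]
    congr 2
    push_cast
    ring
  rw [h, norm_mul, Complex.norm_exp_ofReal_mul_I, one_mul]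
  have := Real.norm_exp_I_mul_ofReal_sub_one_le (x := p - q)
  rw [mul_comm] at this
  simpa using this

/-- the linear phase. -/
noncomputable def Lin (Φs U s : ℝ) (x : ℝ) : ℝ := Φs + U * (x - s)

/-- the integral with the linear phase. -/
theorem lin_int (Φs U s h : ℝ) (hU : U ≠ 0) :
    ‖G (Lin Φs U s) s (s + h)‖ ^ 2 = (sin (π * U * h) / (π * U)) ^ 2 := by
  have hπ := Real.pi_pos
  have hne : (π * U) ≠ 0 := mul_ne_zero hπ.ne' hU
  have hc : ((-(2 * π * U) : ℝ) : ℂ) * Complex.I ≠ 0 := by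
    apply mul_ne_zero _ Complex.I_ne_zero
    have : (-(2 * π * U) : ℝ) ≠ 0 := by
      intro h; apply hne; linarith
    exact_mod_cast this
  have h1 : G (Lin Φs U s) s (s + h)
      = Complex.exp (((-(2 * π * Φs) : ℝ) : ℂ) * Complex.I) *
        ∫ y in (0 : ℝ)..h, Complex.exp ((((-(2 * π * U) : ℝ) : ℂ) * Complex.I) * (y : ℂ)) := by
    unfold G
    have h2 : (∫ x in s..(s + h), E (Lin Φs U s) x)
        = ∫ y in (0 : ℝ)..h, E (Lin Φs U s) (y + s) := by
      rw [intervalIntegral.integral_comp_add_right (fun x => E (Lin Φs U s) x) s]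
      rw [zero_add, add_comm h s]
    rw [h2, ← intervalIntegral.integral_const_mul]
    apply intervalIntegral.integral_congr
    intro y _
    simp only [E, Lin]
    rw [← Complex.exp_add]
    congr 1
    push_cast
    ring
  rw [h1, norm_mul, Complex.norm_exp_ofReal_mul_I, one_mul, integral_exp_mul_complex hc]
  rw [norm_div, norm_mul, Complex.norm_I, mul_one, Complex.norm_real, Real.norm_eq_abs, abs_neg]
  rw [Complex.ofReal_zero, mul_zero, Complex.exp_zero, div_pow, div_pow]
  have h3 : ‖Complex.exp ((((-(2 * π * U) : ℝ) : ℂ) * Complex.I) * (h : ℂ)) - 1‖ ^ 2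
      = 4 * sin (π * U * h) ^ 2 := by
    have h4 : (((-(2 * π * U) : ℝ) : ℂ) * Complex.I) * (h : ℂ)
        = ((-(2 * (π * U * h)) : ℝ) : ℂ) * Complex.I := by
      push_cast; ring
    rw [h4, ← Complex.normSq_eq_norm_sq, Complex.normSq_apply]
    rw [Complex.sub_re, Complex.sub_im, Complex.exp_ofReal_mul_I_re, Complex.exp_ofReal_mul_I_im]
    rw [Complex.one_re, Complex.one_im, Real.cos_neg, Real.sin_neg, Real.cos_two_mul,
      Real.sin_two_mul]
    have := Real.sin_sq_add_cos_sq (π * U * h)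
    nlinarith [this]
  rw [h3, sq_abs]
  have : (2 * π * U) ^ 2 = 4 * (π * U) ^ 2 := by ring
  rw [this, mul_div_mul_left _ _ (by norm_num : (4 : ℝ) ≠ 0)]

theorem non (hVDA : StmVDA) : StmNON := by
  intro κ0 κ1 a b κ κ' hA
  have hL : 0 < b - a := by have := hA.hab; linarith
  have hκ0 := hA.pos
  have hκ1 : 0 < κ1 := by
    have h1 := hA.lo a ⟨le_refl _, hA.hab.le⟩
    have h2 := hA.hi a ⟨le_refl _, hA.hab.le⟩
    linarith
  have hπ := Real.pi_pos
  have hπ1 : 1 < π := by linarith [Real.pi_gt_three]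
  set c : ℝ := κ0 * (b - a) / 8 with hc
  have hcpos : 0 < c := by positivity
  set C1 : ℝ := 2 / c + 4 * κ1 / c ^ 2 with hC1
  have hC1pos : 0 < C1 := by positivity
  refine ⟨C1 ^ 2 + 4 * π * κ1 + 1 / c ^ 2, by positivity,
    max 1 (max (4 / (b - a)) (2 * κ1 / c)), le_max_left _ _, ?_⟩
  intro Φ u v r hS hN R hR s hs
  have hR1 : 1 ≤ R := le_trans (le_max_left _ _) hR
  have hR2 : 4 / (b - a) ≤ R := le_trans (le_trans (le_max_left _ _) (le_max_right _ _)) hR
  have hR3 : 2 * κ1 / c ≤ R := le_trans (le_trans (le_max_right _ _) (le_max_right _ _)) hR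
  have hRpos : 0 < R := by linarith
  have hr0 := hS.rnn
  have hal : a ≤ al a b := by unfold al; linarith
  have hbe : be a b ≤ b := by unfold be; linarith
  have has : a ≤ s := hal.trans hs.1
  have hinv : 1 / R ≤ (b - a) / 4 := by
    rw [div_le_div_iff₀ hRpos (by norm_num)]
    rw [div_le_iff₀ hL] at hR2
    linarith [mul_comm R (b - a)]
  have hsb : s + 1 / R ≤ b := by
    have := hs.2
    unfold be at this
    linarith
  have hinvpos : 0 < 1 / R := by positivity
  have hu : c * r < |u s| := by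
    by_contra hcon
    push Not at hcon
    exact hN ⟨s, hs, hcon⟩
  have hr : 0 < r := by
    rcases hr0.lt_or_eq with h | h
    · exact h
    · exfalso
      have h1 := hS.sq s ⟨has, by linarith⟩
      rw [← h] at h1 hu
      have h2 : u s = 0 := by
        have : u s ^ 2 ≤ 0 := by nlinarith [sq_nonneg (v s)]
        exact pow_eq_zero_iff (two_ne_zero) |>.mp (le_antisymm this (sq_nonneg _))
      rw [h2] at hu
      simp at hu
  have hus : u s ≠ 0 := by
    intro h
    rw [h, abs_zero] at hu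
    have : 0 < c * r := by positivity
    linarith
  -- lower bound on the short interval
  have hlow : ∀ x ∈ Icc s (s + 1 / R), c * r / 2 ≤ |u x| := by
    intro x hx
    have h1 := u_lip hA hS has hx.1 (hx.2.trans hsb)
    have h2 : κ1 * r * (x - s) ≤ c * r / 2 := by
      have h3 : x - s ≤ 1 / R := by linarith [hx.2]
      have h4 : κ1 * r * (x - s) ≤ κ1 * r * (1 / R) :=
        mul_le_mul_of_nonneg_left h3 (by positivity)
      have h5 : κ1 * r * (1 / R) ≤ c * r / 2 := by
        rw [div_le_iff₀ hcpos] at hR3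
        rw [mul_one_div, div_le_div_iff₀ hRpos (by norm_num)]
        nlinarith [mul_le_mul_of_nonneg_right hR3 hr.le]
      linarith
    have h6 : |u s| ≤ |u x| + |u x - u s| := by
      have h7 : u s = u x - (u x - u s) := by ring
      calc |u s| = |u x - (u x - u s)| := by rw [← h7]
        _ ≤ |u x| + |u x - u s| := abs_sub _ _
    linarith
  have hm : 0 < c * r / 2 := by positivity
  have hG := hVDA κ0 κ1 a b κ κ' hA Φ u v r hS s (s + 1 / R) (c * r / 2) has (by linarith) hsb hm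
    hlow
  have hG' : ‖G Φ s (s + 1 / R)‖ ≤ C1 / r := by
    refine le_trans hG ?_
    have e1 : s + 1 / R - s = 1 / R := by ring
    rw [e1]
    have h1 : 1 / R ≤ 1 := by
      rw [div_le_one hRpos]; exact hR1
    have h2 : κ1 * r * (1 / R) / (c * r / 2) ^ 2 ≤ κ1 * r * 1 / (c * r / 2) ^ 2 := by
      apply div_le_div_of_nonneg_right _ (by positivity)
      exact mul_le_mul_of_nonneg_left h1 (by positivity)
    have h3 : 1 / (c * r / 2) + κ1 * r * 1 / (c * r / 2) ^ 2 = C1 / r := by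
      rw [hC1]; field_simp; ring
    linarith
  -- exactly solvable phase
  have hlin := lin_int (Φ s) (u s) s (1 / R) hus
  have hidl : idl (u s) R = R * ‖G (Lin (Φ s) (u s) s) s (s + 1 / R)‖ ^ 2 := by
    rw [hlin]; unfold idl
    rw [mul_one_div]
  have hcontE : ∀ Ψ : ℝ → ℝ, ContinuousOn Ψ (Icc s (s + 1 / R)) →
      IntervalIntegrable (fun x => E Ψ x) volume s (s + 1 / R) := by
    intro Ψ hΨ
    apply ContinuousOn.intervalIntegrable
    rw [uIcc_of_le (by linarith)]
    unfold E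
    apply Complex.continuous_exp.comp_continuousOn
    apply ContinuousOn.mul _ continuousOn_const
    apply Complex.continuous_ofReal.comp_continuousOn
    exact (continuousOn_const.mul hΨ).neg
  have hΦc : ContinuousOn Φ (Icc s (s + 1 / R)) := fun x hx =>
    (hS.dΦ x ⟨has.trans hx.1, hx.2.trans hsb⟩).continuousAt.continuousWithinAt
  have hLc : ContinuousOn (Lin (Φ s) (u s) s) (Icc s (s + 1 / R)) := by
    unfold Lin
    fun_prop
  have hsmall : ∀ Ψ : ℝ → ℝ, ‖G Ψ s (s + 1 / R)‖ ≤ 1 / R := by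
    intro Ψ
    have := intervalIntegral.norm_integral_le_of_norm_le_const (a := s) (b := s + 1 / R)
      (f := fun x => E Ψ x) (C := 1) (fun x _ => (norm_E Ψ x).le)
    have e1 : s + 1 / R - s = 1 / R := by ring
    rw [e1, abs_of_pos hinvpos, one_mul] at this
    exact this
  have hdiff : ‖G Φ s (s + 1 / R) - G (Lin (Φ s) (u s) s) s (s + 1 / R)‖
      ≤ 2 * π * κ1 * r / R ^ 3 := by
    unfold G
    rw [← intervalIntegral.integral_sub (hcontE _ hΦc) (hcontE _ hLc)]
    have hbd : ∀ x ∈ Set.uIoc s (s + 1 / R), ‖E Φ x - E (Lin (Φ s) (u s) s) x‖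
        ≤ 2 * π * κ1 * r / R ^ 2 := by
      intro x hx
      rw [uIoc_of_le (by linarith)] at hx
      unfold E
      refine le_trans (norm_exp_sub _ _) ?_
      have h1 := phi_exp hA hS (h := 1 / R) has hx.1.le hx.2 (hx.2.trans hsb)
      have h2 : (-(2 * π * Φ x)) - (-(2 * π * Lin (Φ s) (u s) s x))
          = -(2 * π) * (Φ x - Φ s - u s * (x - s)) := by
        unfold Lin; ring
      rw [h2, abs_mul, abs_neg, abs_of_pos (by positivity : 0 < 2 * π)]
      have h3 : κ1 * r * (1 / R) * (x - s) ≤ κ1 * r * (1 / R) * (1 / R) := by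
        apply mul_le_mul_of_nonneg_left _ (by positivity)
        linarith [hx.2]
      calc 2 * π * |Φ x - Φ s - u s * (x - s)| ≤ 2 * π * (κ1 * r * (1 / R) * (1 / R)) := by
            apply mul_le_mul_of_nonneg_left (h1.trans h3) (by positivity)
        _ = 2 * π * κ1 * r / R ^ 2 := by
            field_simp
    have := intervalIntegral.norm_integral_le_of_norm_le_const hbd
    have e1 : s + 1 / R - s = 1 / R := by ring
    rw [e1, abs_of_pos hinvpos] at this
    refine this.trans (le_of_eq ?_)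
    field_simp
  refine ⟨?_, ?_, ?_⟩
  · -- first
    unfold cR
    have h1 : ‖G Φ s (s + 1 / R)‖ ^ 2 ≤ (C1 / r) ^ 2 :=
      pow_le_pow_left₀ (norm_nonneg _) hG' 2
    calc R * ‖G Φ s (s + 1 / R)‖ ^ 2 ≤ R * (C1 / r) ^ 2 :=
          mul_le_mul_of_nonneg_left h1 hRpos.le
      _ = C1 ^ 2 * R / r ^ 2 := by rw [div_pow]; ring
      _ ≤ (C1 ^ 2 + 4 * π * κ1 + 1 / c ^ 2) * R / r ^ 2 := by
          apply div_le_div_of_nonneg_right _ (by positivity)
          apply mul_le_mul_of_nonneg_right _ hRpos.le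
          have : 0 ≤ 4 * π * κ1 + 1 / c ^ 2 := by positivity
          linarith
  · -- second
    rw [hidl]
    unfold cR
    set g1 := ‖G Φ s (s + 1 / R)‖ with hg1
    set g2 := ‖G (Lin (Φ s) (u s) s) s (s + 1 / R)‖ with hg2
    have hg1n : 0 ≤ g1 := norm_nonneg _
    have hg2n : 0 ≤ g2 := norm_nonneg _
    have hg1s : g1 ≤ 1 / R := hsmall _
    have hg2s : g2 ≤ 1 / R := hsmall _
    have h1 : |g1 - g2| ≤ 2 * π * κ1 * r / R ^ 3 :=
      (abs_norm_sub_norm_le _ _).trans hdiff
    have h2 : R * g1 ^ 2 - R * g2 ^ 2 = R * ((g1 + g2) * (g1 - g2)) := by ring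
    rw [h2, abs_mul, abs_mul, abs_of_pos hRpos, abs_of_nonneg (by positivity : 0 ≤ g1 + g2)]
    calc R * ((g1 + g2) * |g1 - g2|) ≤ R * ((2 / R) * (2 * π * κ1 * r / R ^ 3)) := by
          apply mul_le_mul_of_nonneg_left _ hRpos.le
          apply mul_le_mul _ h1 (abs_nonneg _) (by positivity)
          have : (2 : ℝ) / R = 1 / R + 1 / R := by ring
          linarith
      _ = 4 * π * κ1 * r / R ^ 3 := by
          field_simp; norm_num
      _ ≤ (C1 ^ 2 + 4 * π * κ1 + 1 / c ^ 2) * r / R ^ 3 := by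
          apply div_le_div_of_nonneg_right _ (by positivity)
          apply mul_le_mul_of_nonneg_right _ hr.le
          have : 0 ≤ C1 ^ 2 + 1 / c ^ 2 := by positivity
          linarith
  · -- third
    unfold idl
    have h1 : (sin (π * u s / R) / (π * u s)) ^ 2 ≤ 1 / (c * r) ^ 2 := by
      rw [div_pow]
      have h2 : sin (π * u s / R) ^ 2 ≤ 1 := Real.sin_sq_le_one _
      have h3 : (c * r) ^ 2 ≤ (π * u s) ^ 2 := by
        rw [← sq_abs (π * u s), abs_mul, abs_of_pos hπ]
        apply pow_le_pow_left₀ (by positivity)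
        nlinarith [abs_nonneg (u s)]
      have h4 : 0 < (c * r) ^ 2 := by positivity
      exact div_le_div₀ (by norm_num) h2 h4 h3
    calc R * (sin (π * u s / R) / (π * u s)) ^ 2 ≤ R * (1 / (c * r) ^ 2) :=
          mul_le_mul_of_nonneg_left h1 hRpos.le
      _ = 1 / c ^ 2 * R / r ^ 2 := by rw [mul_pow]; field_simp
      _ ≤ (C1 ^ 2 + 4 * π * κ1 + 1 / c ^ 2) * R / r ^ 2 := by
          apply div_le_div_of_nonneg_right _ (by positivity)
          apply mul_le_mul_of_nonneg_right _ hRpos.le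
          have : 0 ≤ C1 ^ 2 + 4 * π * κ1 := by positivity
          linarith

end Pool.Agent.T6.H66.SC.NON
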