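import Pool.Agent.T6.H66.SC.Defs

/-!
# Project SC, module NSUM
-/

open MeasureTheory Set Real Filter Topology

namespace Pool.Agent.T6.H66.SC.NSUM

open Pool.Agent.T6.H66.SC

theorem nsum (hUPP : StmUPP) (hTRV : StmTRV) (hCNT : StmCNT) (hTAIL : StmTAIL) : StmNSUM := by
  intro κ0 κ1 a b κ κ' hA ι A Φ u v r hApos hS hP ε hε
  obtain ⟨C4, hC4, R0, hR0, hU⟩ := hUPP κ0 κ1 a b κ κ' hA
  obtain ⟨C, hC, ρ, hρ, hcard⟩ := hCNT κ0 κ1 a b κ κ' hA ι A Φ u v r hApos hS hP
  have hε' : 0 < ε / (2 * C4) := by positivity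
  obtain ⟨ρ', hρ', htail⟩ := hTAIL κ0 κ1 a b κ κ' hA ι A Φ u v r hApos hS hP _ hε'
  have hL : 0 < b - a := by have := hA.hab; linarith
  set η : ℝ := ε / (2 * C * (b - a)) with hη
  have hηpos : 0 < η := by positivity
  refine ⟨max (max R0 (4 / (b - a))) (max (ρ / η) (ρ' / η)),
    le_trans hR0 (le_trans (le_max_left _ _) (le_max_left _ _)), ?_⟩
  intro R hR F hF
  have h1 : R0 ≤ R := le_trans (le_trans (le_max_left _ _) (le_max_left _ _)) hR
  have h2 : 4 / (b - a) ≤ R := le_trans (le_trans (le_max_right _ _) (le_max_left _ _)) hR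
  have h3 : ρ / η ≤ R := le_trans (le_trans (le_max_left _ _) (le_max_right _ _)) hR
  have h4 : ρ' / η ≤ R := le_trans (le_trans (le_max_right _ _) (le_max_right _ _)) hR
  have hRpos : 0 < R := by linarith
  have h3' : ρ ≤ η * R := by
    rw [div_le_iff₀ hηpos] at h3; linarith [mul_comm R η]
  have h4' : ρ' ≤ η * R := by
    rw [div_le_iff₀ hηpos] at h4; linarith [mul_comm R η]
  classical
  rw [← Finset.sum_filter_add_sum_filter_not F (fun i => r i ≤ η * R)]
  have hab : al a b ≤ be a b := by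
    unfold al be; linarith
  have hfirst : ∑ i ∈ F.filter (fun i => r i ≤ η * R),
      (∫ s in (al a b)..(be a b), cR (Φ i) R s) ≤ ε / 2 := by
    have hterm : ∀ i ∈ F.filter (fun i => r i ≤ η * R),
        (∫ s in (al a b)..(be a b), cR (Φ i) R s) ≤ (b - a) / 2 / R := by
      intro i _
      obtain ⟨hb, hc⟩ := (hTRV κ0 κ1 a b κ κ' hA).1 (Φ i) (u i) (v i) (r i) (hS i) R h2 hRpos
      have hI : IntervalIntegrable (fun s => cR (Φ i) R s) volume (al a b) (be a b) := by
        apply ContinuousOn.intervalIntegrable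
        rw [uIcc_of_le hab]; exact hc
      have := intervalIntegral.integral_mono_on hab hI
        (intervalIntegrable_const (c := 1 / R)) (fun s hs => (hb s hs).2)
      refine le_trans this ?_
      rw [intervalIntegral.integral_const, smul_eq_mul]
      have : be a b - al a b = (b - a) / 2 := by unfold al be; ring
      rw [this]
      apply le_of_eq
      ring
    have hcd := hcard (η * R) h3' (F.filter (fun i => r i ≤ η * R))
      (fun i hi => (Finset.mem_filter.mp hi).2)
    calc ∑ i ∈ F.filter (fun i => r i ≤ η * R), (∫ s in (al a b)..(be a b), cR (Φ i) R s)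
        ≤ ∑ i ∈ F.filter (fun i => r i ≤ η * R), (b - a) / 2 / R := Finset.sum_le_sum hterm
      _ = (F.filter (fun i => r i ≤ η * R)).card * ((b - a) / 2 / R) := by
          rw [Finset.sum_const, nsmul_eq_mul]
      _ ≤ (C * (η * R)) * ((b - a) / 2 / R) := by
          apply mul_le_mul_of_nonneg_right hcd; positivity
      _ = ε / 4 := by
          rw [hη]; field_simp; norm_num
      _ ≤ ε / 2 := by linarith
  have hsecond : ∑ i ∈ F.filter (fun i => ¬ r i ≤ η * R),
      (∫ s in (al a b)..(be a b), cR (Φ i) R s) ≤ ε / 2 := by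
    have hterm : ∀ i ∈ F.filter (fun i => ¬ r i ≤ η * R),
        (∫ s in (al a b)..(be a b), cR (Φ i) R s) ≤ C4 * (1 / r i) := by
      intro i hi
      obtain ⟨hi1, hi2⟩ := Finset.mem_filter.mp hi
      have : 1 ≤ r i := by push Not at hi2; linarith
      have := hU (Φ i) (u i) (v i) (r i) (hS i) this (hF i hi1) R h1
      rw [mul_one_div]; exact this
    have ht := htail (F.filter (fun i => ¬ r i ≤ η * R)) (by
      intro i hi
      obtain ⟨hi1, hi2⟩ := Finset.mem_filter.mp hi
      push Not at hi2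
      exact ⟨by linarith, hF i hi1⟩)
    calc ∑ i ∈ F.filter (fun i => ¬ r i ≤ η * R), (∫ s in (al a b)..(be a b), cR (Φ i) R s)
        ≤ ∑ i ∈ F.filter (fun i => ¬ r i ≤ η * R), C4 * (1 / r i) := Finset.sum_le_sum hterm
      _ = C4 * ∑ i ∈ F.filter (fun i => ¬ r i ≤ η * R), 1 / r i := by
          rw [Finset.mul_sum]
      _ ≤ C4 * (ε / (2 * C4)) := mul_le_mul_of_nonneg_left ht hC4.le
      _ = ε / 2 := by field_simp
  linarith

end Pool.Agent.T6.H66.SC.NSUM
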