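import Pool.Agent.T6.H66.SC.VDA

/-!
# Project SC, module NZ (helper82): nearly normal frequencies
-/

set_option autoImplicit false

open MeasureTheory Set Real Filter Topology

namespace Pool.Agent.T6.H66.SC.NZ

open Pool.Agent.T6.H66.SC Pool.Agent.T6.H66.SC.VDA

variable {κ0 κ1 a b : ℝ} {κ κ' : ℝ → ℝ} {Φ u v : ℝ → ℝ} {r : ℝ}

lemma κ_abs (hA : Arc κ0 κ1 a b κ κ') {x : ℝ} (hx : x ∈ Icc a b) : |κ x| ≤ κ1 := by
  rw [abs_of_pos (hA.pos.trans_le (hA.lo x hx))]
  exact hA.hi x hx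

lemma κ1_nonneg (hA : Arc κ0 κ1 a b κ κ') : 0 ≤ κ1 :=
  (abs_nonneg _).trans (κ_abs hA (left_mem_Icc.2 hA.hab.le))

lemma κ01 (hA : Arc κ0 κ1 a b κ κ') : κ0 ≤ κ1 :=
  (hA.lo a (left_mem_Icc.2 hA.hab.le)).trans (hA.hi a (left_mem_Icc.2 hA.hab.le))

lemma u_lip (hA : Arc κ0 κ1 a b κ κ') (hS : Sys a b κ Φ u v r) {s t : ℝ} (hs : s ∈ Icc a b)
    (ht : t ∈ Icc a b) : |u t - u s| ≤ κ1 * r * |t - s| := by
  have := Convex.norm_image_sub_le_of_norm_hasDerivWithin_le (f := u) (f' := fun x => κ x * v x)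
    (C := κ1 * r) (s := Icc a b) (fun x hx => (hS.du x hx).hasDerivWithinAt)
    (fun x hx => by
      rw [Real.norm_eq_abs, abs_mul]
      exact mul_le_mul (κ_abs hA hx) (v_le hS hx) (abs_nonneg _) (κ1_nonneg hA))
    (convex_Icc a b) hs ht
  simpa [Real.norm_eq_abs] using this

lemma v_lip (hA : Arc κ0 κ1 a b κ κ') (hS : Sys a b κ Φ u v r) {s t : ℝ} (hs : s ∈ Icc a b)
    (ht : t ∈ Icc a b) : |v t - v s| ≤ κ1 * r * |t - s| := by
  have := Convex.norm_image_sub_le_of_norm_hasDerivWithin_le (f := v)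
    (f' := fun x => -(κ x * u x))
    (C := κ1 * r) (s := Icc a b) (fun x hx => (hS.dv x hx).hasDerivWithinAt)
    (fun x hx => by
      rw [Real.norm_eq_abs, abs_neg, abs_mul]
      exact mul_le_mul (κ_abs hA hx) (u_le hS hx) (abs_nonneg _) (κ1_nonneg hA))
    (convex_Icc a b) hs ht
  simpa [Real.norm_eq_abs] using this

lemma step_le (hA : Arc κ0 κ1 a b κ κ') (hr : 0 ≤ r) {s t : ℝ} (hs : s ∈ Icc a b)
    (ht : t ∈ Icc a b) : κ1 * r * |t - s| ≤ r / 10 := by
  have h1 : |t - s| ≤ b - a := by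
    rw [abs_le]
    constructor <;> linarith [hs.1, hs.2, ht.1, ht.2]
  have h2 := hA.small
  have h3 := κ1_nonneg hA
  calc κ1 * r * |t - s| ≤ κ1 * r * (b - a) := by gcongr
    _ = κ1 * (b - a) * r := by ring
    _ ≤ 1 / 10 * r := by
        apply mul_le_mul_of_nonneg_right _ hr
        linarith
    _ = r / 10 := by ring

lemma neg_sys (hS : Sys a b κ Φ u v r) :
    Sys a b κ (fun x => -Φ x) (fun x => -u x) (fun x => -v x) r where
  rnn := hS.rnn
  dΦ := fun s hs => (hS.dΦ s hs).neg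
  du := fun s hs => (hS.du s hs).neg.congr_deriv (by ring)
  dv := fun s hs => (hS.dv s hs).neg.congr_deriv (by ring)
  sq := fun s hs => by have := hS.sq s hs; rw [neg_sq, neg_sq]; exact this

lemma zero_pos (hA : Arc κ0 κ1 a b κ κ') (hS : Sys a b κ Φ u v r) (hr : 0 < r) {s : ℝ}
    (hs : s ∈ Icc (al a b) (be a b)) (hus : |u s| ≤ κ0 * (b - a) / 8 * r)
    (hv : ∀ t ∈ Icc a b, 9 / 10 * r ≤ v t) :
    ∃ z ∈ Icc (a + (b - a) / 10) (b - (b - a) / 10), u z = 0 := by
  have hab := hA.hab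
  unfold al be at hs
  have hL : 0 < b - a := by linarith
  have hmv := Convex.mul_sub_le_image_sub_of_le_deriv (convex_Icc a b) (cont_u hS)
    (fun x hx => ((hS.du x (interior_subset hx)).differentiableAt).differentiableWithinAt)
    (C := κ0 * (9 / 10 * r)) (fun x hx => by
      have hx' := interior_subset hx
      rw [(hS.du x hx').deriv]
      exact mul_le_mul (hA.lo x hx') (hv x hx') (by positivity)
        (hA.pos.le.trans (hA.lo x hx')))
  have hus' := abs_le.1 hus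
  rcases le_or_gt (u s) 0 with h0 | h0
  · set t := s + 5 / 36 * (b - a) with ht
    have hst : s ≤ t := by rw [ht]; nlinarith
    have hsI : s ∈ Icc a b := ⟨by linarith [hs.1], by linarith [hs.2]⟩
    have htI : t ∈ Icc a b := ⟨by linarith [hs.1], by rw [ht]; linarith [hs.2]⟩
    have h1 := hmv s hsI t htI hst
    have e : κ0 * (9 / 10 * r) * (t - s) = κ0 * (b - a) / 8 * r := by rw [ht]; ring
    rw [e] at h1
    have h2 : 0 ≤ u t := by linarith [hus'.1]
    obtain ⟨z, hz, hz0⟩ := intermediate_value_Icc hst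
      ((cont_u hS).mono (Icc_subset_Icc hsI.1 htI.2)) (⟨h0, h2⟩ : (0 : ℝ) ∈ Icc (u s) (u t))
    refine ⟨z, ⟨by linarith [hz.1, hs.1], ?_⟩, hz0⟩
    have := hz.2
    rw [ht] at this
    linarith [hs.2]
  · set t := s - 5 / 36 * (b - a) with ht
    have hst : t ≤ s := by rw [ht]; nlinarith
    have hsI : s ∈ Icc a b := ⟨by linarith [hs.1], by linarith [hs.2]⟩
    have htI : t ∈ Icc a b := ⟨by rw [ht]; linarith [hs.1], by linarith [hs.2]⟩
    have h1 := hmv t htI s hsI hst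
    have e : κ0 * (9 / 10 * r) * (s - t) = κ0 * (b - a) / 8 * r := by rw [ht]; ring
    rw [e] at h1
    have h2 : u t ≤ 0 := by linarith [hus'.2]
    obtain ⟨z, hz, hz0⟩ := intermediate_value_Icc hst
      ((cont_u hS).mono (Icc_subset_Icc htI.1 hsI.2)) (⟨h2, h0.le⟩ : (0 : ℝ) ∈ Icc (u t) (u s))
    refine ⟨z, ⟨?_, by linarith [hz.2, hs.2]⟩, hz0⟩
    have := hz.1
    rw [ht] at this
    linarith [hs.1]

end Pool.Agent.T6.H66.SC.NZ

namespace Pool.Agent.T6.H66.SC

open VDA NZ in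
theorem nz : StmNZ := by
  intro κ0 κ1 a b κ κ' hA Φ u v r hS hr hN
  obtain ⟨s, hs, hus⟩ := hN
  have hab := hA.hab
  have hL : 0 < b - a := by linarith
  have hsI : s ∈ Icc a b := by
    unfold al be at hs
    exact ⟨by linarith [hs.1], by linarith [hs.2]⟩
  have h80 : |u s| ≤ r / 80 := by
    refine hus.trans ?_
    have h1 : κ0 * (b - a) ≤ κ1 * (b - a) := mul_le_mul_of_nonneg_right (κ01 hA) hL.le
    have h2 := hA.small
    nlinarith
  have hu : ∀ t ∈ Icc a b, |u t| ≤ 9 / 80 * r := fun t ht => by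
    have h1 := (u_lip hA hS hsI ht).trans (step_le hA hr.le hsI ht)
    have h2 : |u t| ≤ |u t - u s| + |u s| := by
      have := abs_add_le (u t - u s) (u s)
      simpa using this
    linarith
  have hv2 : ∀ t ∈ Icc a b, 9 / 10 * r ≤ |v t| := fun t ht => by
    have h1 := hS.sq t ht
    have h2 : u t ^ 2 ≤ (9 / 80 * r) ^ 2 := by
      rw [← sq_abs]
      exact pow_le_pow_left₀ (abs_nonneg _) (hu t ht) 2
    by_contra hc
    push Not at hc
    have h3 : |v t| ^ 2 < (9 / 10 * r) ^ 2 := pow_lt_pow_left₀ hc (abs_nonneg _) (by norm_num)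
    rw [sq_abs] at h3
    nlinarith [sq_nonneg r]
  have hsign : (∀ t ∈ Icc a b, 9 / 10 * r ≤ v t) ∨ (∀ t ∈ Icc a b, v t ≤ -(9 / 10 * r)) := by
    rcases le_abs.1 (hv2 s hsI) with h | h
    · left
      intro t ht
      rcases le_abs.1 (hv2 t ht) with h' | h'
      · exact h'
      · have h1 := (v_lip hA hS hsI ht).trans (step_le hA hr.le hsI ht)
        have h2 := abs_le.1 h1
        linarith [h2.1]
    · right
      intro t ht
      rcases le_abs.1 (hv2 t ht) with h' | h'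
      · have h1 := (v_lip hA hS hsI ht).trans (step_le hA hr.le hsI ht)
        have h2 := abs_le.1 h1
        linarith [h2.2]
      · linarith
  refine ⟨?_, hsign⟩
  rcases hsign with h | h
  · exact zero_pos hA hS hr hs hus h
  · obtain ⟨z, hz, hz0⟩ := zero_pos hA (neg_sys hS) hr hs (by rw [abs_neg]; exact hus)
      (fun t ht => by have := h t ht; linarith)
    exact ⟨z, hz, by linarith⟩

end Pool.Agent.T6.H66.SC
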