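import Pool.Agent.T6.H66.SC.Defs

/-!
The integrated Parseval identity (module PI).
-/

set_option autoImplicit false

open MeasureTheory Set Real Filter Topology

namespace Pool.Agent.T6.H66.SC.PI

open Pool.Agent.T6.H66.SC

theorem pi_ (hTRV : StmTRV) : StmPI := by
  intro κ0 κ1 a b κ κ' hA ι _ A Φ u v r hApos hsys hpars w hw R hR hR0
  have hL : 0 < b - a := sub_pos.2 hA.hab
  have hle : al a b ≤ be a b := by
    unfold al be
    linarith
  have hRinv : 1 / R ≤ (b - a) / 4 := by
    rw [div_le_iff₀ hR0]
    rw [div_le_iff₀ hL] at hR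
    linarith
  have trv := fun i => (hTRV κ0 κ1 a b κ κ' hA).1 (Φ i) (u i) (v i) (r i) (hsys i) R hR hR0
  -- pointwise sums
  have hpt : ∀ s ∈ Icc (al a b) (be a b), HasSum (fun i => cR (Φ i) R s) A := by
    intro s hs
    have h1 : a ≤ s := by
      have := hs.1
      unfold al at this
      linarith
    have h2 : s + 1 / R ≤ b := by
      have := hs.2
      unfold be at this
      linarith
    have h3 : s ≤ s + 1 / R := by
      have : 0 < 1 / R := by positivity
      linarith
    have h4 := (hpars s (s + 1 / R) h1 h3 h2).mul_left R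
    have h5 : R * (A * (s + 1 / R - s)) = A := by
      field_simp
      ring
    rw [h5] at h4
    exact h4
  obtain ⟨W, hW⟩ : ∃ W : ℝ, ∀ s ∈ Icc (al a b) (be a b), ‖w s‖ ≤ W :=
    isCompact_Icc.exists_bound_of_continuousOn hw
  have hIoc : ∀ s, s ∈ Set.uIoc (al a b) (be a b) → s ∈ Icc (al a b) (be a b) := by
    intro s hs
    rw [uIoc_of_le hle] at hs
    exact Ioc_subset_Icc_self hs
  have key := intervalIntegral.hasSum_integral_of_dominated_convergence
    (μ := volume) (a := al a b) (b := be a b) (F := fun i s => w s * cR (Φ i) R s)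
    (f := fun s => w s * A) (bound := fun i s => W * cR (Φ i) R s) ?_ ?_ ?_ ?_ ?_
  · have e : ∫ s in (al a b)..(be a b), w s * A = A * ∫ s in (al a b)..(be a b), w s := by
      rw [intervalIntegral.integral_mul_const, mul_comm]
    rw [e] at key
    exact key
  · intro i
    have h1 : ContinuousOn (fun s => w s * cR (Φ i) R s) (Icc (al a b) (be a b)) :=
      hw.mul (trv i).2
    have h2 := (h1.mono (fun s hs => hIoc s hs)).aestronglyMeasurable
      (μ := volume) (measurableSet_uIoc (a := al a b) (b := be a b))
    exact h2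
  · intro i
    refine Eventually.of_forall fun s hs => ?_
    have h1 := hIoc s hs
    rw [norm_mul, Real.norm_of_nonneg ((trv i).1 s h1).1]
    exact mul_le_mul_of_nonneg_right (hW s h1) ((trv i).1 s h1).1
  · exact Eventually.of_forall fun s hs => ((hpt s (hIoc s hs)).mul_left W).summable
  · have h1 : IntervalIntegrable (fun _ : ℝ => W * A) volume (al a b) (be a b) :=
      intervalIntegrable_const
    refine h1.congr ?_
    intro s hs
    exact ((hpt s (hIoc s hs)).mul_left W).tsum_eq.symm
  · exact Eventually.of_forall fun s hs => (hpt s (hIoc s hs)).mul_left (w s)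

end Pool.Agent.T6.H66.SC.PI
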