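import Pool.Agent.T6.H66.SC.Defs

/-!
The average of the ideal value over the scales (module PSI).
-/

set_option autoImplicit false

open MeasureTheory Set Real Filter Topology

namespace Pool.Agent.T6.H66.SC.PSI

open Pool.Agent.T6.H66.SC

/-- the profile -/
noncomputable def g (x : ℝ) : ℝ := (sin (π / x) / π) ^ 2

/-- the function of the scale -/
noncomputable def f (U R : ℝ) : ℝ := (sin (π * U / R) / (π * U)) ^ 2

theorem f_nonneg (U R : ℝ) : 0 ≤ f U R := sq_nonneg _

theorem f_le1 {U : ℝ} (hU : U ≠ 0) (R : ℝ) : f U R ≤ 1 / U ^ 2 := by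
  unfold f
  have h1 : sin (π * U / R) ^ 2 ≤ 1 := sin_sq_le_one _
  have h2 : (1 : ℝ) ≤ π ^ 2 := by nlinarith [pi_gt_three]
  have hU2 : 0 < U ^ 2 := by positivity
  rw [div_pow, mul_pow, div_le_div_iff₀ (by positivity) hU2]
  nlinarith

theorem f_le2 {U : ℝ} (hU : U ≠ 0) {R : ℝ} (hR : 0 < R) : f U R ≤ 1 / R ^ 2 := by
  unfold f
  have h1 : |sin (π * U / R)| ≤ |π * U / R| := abs_sin_le_abs
  have h2 : sin (π * U / R) ^ 2 ≤ (π * U / R) ^ 2 := sq_le_sq.2 h1
  have hU2 : 0 < (π * U) ^ 2 := by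
    have := pi_pos
    positivity
  rw [div_pow, div_le_div_iff₀ hU2 (by positivity)]
  have h3 : (π * U / R) ^ 2 * R ^ 2 = (π * U) ^ 2 := by
    field_simp
  nlinarith [sq_nonneg R, mul_le_mul_of_nonneg_right h2 (sq_nonneg R)]

theorem f_meas (U : ℝ) : Measurable (f U) := by
  unfold f
  have h1 : Measurable fun R : ℝ => π * U / R := measurable_const.div measurable_id
  exact ((measurable_sin.comp h1).div_const _).pow_const 2

theorem f_int_Ioc {U : ℝ} (hU : U ≠ 0) {a b : ℝ} : IntegrableOn (f U) (Ioc a b) := by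
  refine Measure.integrableOn_of_bounded (M := 1 / U ^ 2) ?_ (f_meas U).aestronglyMeasurable ?_
  · rw [Real.volume_Ioc]; exact ENNReal.ofReal_ne_top
  · refine Eventually.of_forall fun x => ?_
    rw [Real.norm_of_nonneg (f_nonneg U x)]
    exact f_le1 hU x

theorem inv_sq_int {c : ℝ} (hc : 0 < c) : IntegrableOn (fun x : ℝ => 1 / x ^ 2) (Ioi c) := by
  have h := integrableOn_Ioi_rpow_of_lt (show (-2 : ℝ) < -1 by norm_num) hc
  refine h.congr_fun (fun x hx => ?_) measurableSet_Ioi
  have hx0 : 0 < x := hc.trans hx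
  show x ^ (-2 : ℝ) = 1 / x ^ 2
  rw [rpow_neg hx0.le, one_div]
  norm_cast

theorem inv_sq_integral {c : ℝ} (hc : 0 < c) : ∫ x in Ioi c, 1 / x ^ 2 = 1 / c := by
  have h := integral_Ioi_rpow_of_lt (show (-2 : ℝ) < -1 by norm_num) hc
  have h2 : ∫ x in Ioi c, 1 / x ^ 2 = ∫ x in Ioi c, x ^ (-2 : ℝ) := by
    refine setIntegral_congr_fun measurableSet_Ioi (fun x hx => ?_)
    have hx0 : 0 < x := hc.trans hx
    show 1 / x ^ 2 = x ^ (-2 : ℝ)
    rw [rpow_neg hx0.le, one_div]
    norm_cast
  rw [h2, h]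
  have : (-2 : ℝ) + 1 = -1 := by norm_num
  rw [this, rpow_neg hc.le, rpow_one]
  simp

theorem f_int_Ioi {U : ℝ} (hU : U ≠ 0) {c : ℝ} (hc : 0 < c) : IntegrableOn (f U) (Ioi c) := by
  refine Integrable.mono' (inv_sq_int hc) (f_meas U).aestronglyMeasurable ?_
  refine (ae_restrict_iff' measurableSet_Ioi).2 (Eventually.of_forall fun x hx => ?_)
  rw [Real.norm_of_nonneg (f_nonneg U x)]
  exact f_le2 hU (hc.trans hx)

theorem f_int {U : ℝ} (hU : U ≠ 0) : IntegrableOn (f U) (Ioi 0) := by
  rw [← Ioc_union_Ioi_eq_Ioi (zero_le_one : (0 : ℝ) ≤ 1)]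
  exact (f_int_Ioc hU).union (f_int_Ioi hU one_pos)

/-- the total integral scales like `1 / |U|` -/
theorem total {U : ℝ} (hU : U ≠ 0) : ∫ R in Ioi 0, f U R = (∫ x in Ioi 0, f 1 x) / |U| := by
  have hU0 : 0 < |U| := abs_pos.2 hU
  have h := integral_comp_mul_left_Ioi (f U) 0 hU0
  rw [mul_zero] at h
  have h2 : ∀ x : ℝ, f U (|U| * x) = 1 / U ^ 2 * f 1 x := by
    intro x
    unfold f
    have e1 : sin (π * U / (|U| * x)) ^ 2 = sin (π * 1 / x) ^ 2 := by
      rcases lt_or_gt_of_ne hU with h0 | h0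
      · rw [abs_of_neg h0]
        have : π * U / (-U * x) = -(π * 1 / x) := by
          rw [neg_mul, div_neg, mul_one]
          congr 1
          rw [mul_comm U x]
          exact mul_div_mul_right π x h0.ne
        rw [this, sin_neg, neg_sq]
      · rw [abs_of_pos h0]
        have : π * U / (U * x) = π * 1 / x := by
          rw [mul_one, mul_comm U x]
          exact mul_div_mul_right π x h0.ne'
        rw [this]
    rw [div_pow, div_pow, e1, mul_pow, mul_one]
    have := pi_pos
    field_simp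
  simp only [h2] at h
  rw [integral_const_mul, smul_eq_mul] at h
  have h3 : U ^ 2 = |U| ^ 2 := (sq_abs U).symm
  rw [h3] at h
  have h4 : |U| ≠ 0 := hU0.ne'
  field_simp at h ⊢
  linarith

theorem psi : StmPSI := by
  refine ⟨∫ x in Ioi 0, f 1 x, ?_, ?_⟩
  · have h1 : 0 < ∫ x in (2 : ℝ)..4, f 1 x := by
      refine intervalIntegral.intervalIntegral_pos_of_pos_on ?_ ?_ (by norm_num)
      · rw [intervalIntegrable_iff_integrableOn_Ioc_of_le (by norm_num)]
        exact f_int_Ioc one_ne_zero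
      · intro x hx
        unfold f
        have hx0 : (0 : ℝ) < x := by linarith [hx.1]
        have h2 : 0 < π * 1 / x := by
          have := pi_pos
          positivity
        have h3 : π * 1 / x < π := by
          rw [mul_one, div_lt_iff₀ hx0]
          nlinarith [pi_pos, hx.1]
        have := sin_pos_of_pos_of_lt_pi h2 h3
        have := pi_pos
        positivity
    rw [intervalIntegral.integral_of_le (by norm_num)] at h1
    refine lt_of_lt_of_le h1 ?_
    refine setIntegral_mono_set (f_int one_ne_zero) (Eventually.of_forall fun x => f_nonneg 1 x) ?_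
    refine LE.le.eventuallyLE ?_
    intro x hx
    exact lt_trans (by norm_num) hx.1
  · intro U hU R1 R2 hR1 hR12
    have hR2 : 0 < R2 := lt_of_lt_of_le hR1 hR12
    have e1 : ∫ R in R1..R2, idl U R / R = ∫ R in Ioc R1 R2, f U R := by
      rw [intervalIntegral.integral_of_le hR12]
      refine setIntegral_congr_fun measurableSet_Ioc (fun R hR => ?_)
      have hR0 : R ≠ 0 := (lt_trans hR1 hR.1).ne'
      show idl U R / R = f U R
      unfold idl f
      field_simp
    have s1 : ∫ R in Ioi (0 : ℝ), f U R = (∫ R in Ioc 0 R1, f U R) + ∫ R in Ioi R1, f U R := by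
      rw [← Ioc_union_Ioi_eq_Ioi hR1.le]
      exact setIntegral_union (Ioc_disjoint_Ioi le_rfl) measurableSet_Ioi (f_int_Ioc hU)
        (f_int_Ioi hU hR1)
    have s2 : ∫ R in Ioi R1, f U R = (∫ R in Ioc R1 R2, f U R) + ∫ R in Ioi R2, f U R := by
      rw [← Ioc_union_Ioi_eq_Ioi hR12]
      exact setIntegral_union (Ioc_disjoint_Ioi le_rfl) measurableSet_Ioi (f_int_Ioc hU)
        (f_int_Ioi hU hR2)
    have b1 : 0 ≤ ∫ R in Ioc 0 R1, f U R := integral_nonneg fun x => f_nonneg U x
    have b2 : 0 ≤ ∫ R in Ioi R2, f U R := integral_nonneg fun x => f_nonneg U x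
    have b3 : ∫ R in Ioc 0 R1, f U R ≤ R1 / U ^ 2 := by
      calc ∫ R in Ioc 0 R1, f U R ≤ ∫ _ in Ioc 0 R1, 1 / U ^ 2 := by
            refine integral_mono (f_int_Ioc hU) ?_ (fun x => f_le1 hU x)
            exact integrable_const _
        _ = R1 / U ^ 2 := by
            rw [setIntegral_const, Measure.real, Real.volume_Ioc, sub_zero,
              ENNReal.toReal_ofReal hR1.le, smul_eq_mul]
            ring
    have b4 : ∫ R in Ioi R2, f U R ≤ 1 / R2 := by
      rw [← inv_sq_integral hR2]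
      exact setIntegral_mono_on (f_int_Ioi hU hR2) (inv_sq_int hR2) measurableSet_Ioi
        (fun x hx => f_le2 hU (hR2.trans hx))
    rw [e1, ← total hU, s1, s2, abs_le]
    constructor <;> linarith

end Pool.Agent.T6.H66.SC.PSI
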