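import Pool.Agent.T6.H66.SC.Curve

/-!
# Project SC, module SPC
-/

open MeasureTheory Set Real Filter Topology
open scoped ContDiff RealInnerProductSpace ComplexConjugate

namespace Pool.Agent.T6.H66.SC.SPC

open Pool.Agent.T6.H66.SC

theorem expo_cont {d : ℕ} (l : V d) : Continuous (expo l) := by
  unfold expo
  fun_prop

theorem norm_expo {d : ℕ} (l x : V d) : ‖expo l x‖ = 1 := by
  unfold expo
  exact Complex.norm_exp_ofReal_mul_I _

theorem finite_arc {d : ℕ} {γ : ℝ → V d} {L : ℝ} (hL : 0 < L) :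
    IsFiniteMeasure (arcMeasure γ L) := by
  unfold arcMeasure
  have : IsFiniteMeasure (Measure.map γ (volume.restrict (Icc (0 : ℝ) L))) := inferInstance
  apply Measure.smul_finite
  rw [Ne, ENNReal.inv_eq_top, ENNReal.ofReal_eq_zero]
  exact not_le.mpr hL

/-- general statement: an orthonormal and complete family of bounded functions satisfies
Parseval. -/
theorem parseval {X : Type*} [MeasurableSpace X] (μ : Measure X) {ι : Type*}
    (e : ι → X → ℂ) (he : ∀ i, MemLp (fun x => conj (e i x)) 2 μ)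
    (horth1 : ∀ i, (∫ x, e i x * conj (e i x) ∂μ) = 1)
    (horth0 : ∀ i j, i ≠ j → (∫ x, e i x * conj (e j x) ∂μ) = 0)
    (hcomp : ∀ f : X → ℂ, MemLp f 2 μ → (∀ i, (∫ x, f x * e i x ∂μ) = 0) → f =ᵐ[μ] 0)
    (f : X → ℂ) (hf : MemLp f 2 μ) :
    HasSum (fun i => ‖∫ x, f x * e i x ∂μ‖ ^ 2) (∫ x, ‖f x‖ ^ 2 ∂μ) := by
  classical
  let b : ι → Lp ℂ 2 μ := fun i => (he i).toLp
  have hb : ∀ i, (b i : X → ℂ) =ᵐ[μ] fun x => conj (e i x) := fun i => (he i).coeFn_toLp
  have hinner : ∀ i (g : Lp ℂ 2 μ), inner ℂ (b i) g = ∫ x, (g : X → ℂ) x * e i x ∂μ := by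
    intro i g
    rw [MeasureTheory.L2.inner_def]
    apply integral_congr_ae
    filter_upwards [hb i] with x hx
    rw [hx, RCLike.inner_apply, Complex.conj_conj]
  have hon : Orthonormal ℂ b := by
    rw [orthonormal_iff_ite]
    intro i j
    have h1 : inner ℂ (b i) (b j) = ∫ x, e i x * conj (e j x) ∂μ := by
      rw [hinner]
      apply integral_congr_ae
      filter_upwards [hb j] with x hx
      rw [hx]; ring
    rw [h1]
    split_ifs with h
    · rw [← h]; exact horth1 i
    · exact horth0 i j h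
  have hsp : (Submodule.span ℂ (Set.range b))ᗮ = ⊥ := by
    rw [Submodule.eq_bot_iff]
    intro g hg
    have h1 : ∀ i, (∫ x, (g : X → ℂ) x * e i x ∂μ) = 0 := by
      intro i
      rw [← hinner]
      exact (Submodule.mem_orthogonal _ _).mp hg (b i) (Submodule.subset_span ⟨i, rfl⟩)
    have h2 := hcomp g (Lp.memLp g) h1
    exact (Lp.eq_zero_iff_ae_eq_zero).mpr h2
  let B : HilbertBasis ι ℂ (Lp ℂ 2 μ) := HilbertBasis.mkOfOrthogonalEqBot hon hsp
  have hB : ⇑B = b := HilbertBasis.coe_mkOfOrthogonalEqBot hon hsp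
  let F : Lp ℂ 2 μ := hf.toLp
  have hF : (F : X → ℂ) =ᵐ[μ] f := hf.coeFn_toLp
  have hs := B.hasSum_inner_mul_inner F F
  have hterm : ∀ i, inner ℂ F (B i) * inner ℂ (B i) F
      = ((‖∫ x, f x * e i x ∂μ‖ ^ 2 : ℝ) : ℂ) := by
    intro i
    rw [hB]
    have h1 : inner ℂ (b i) F = ∫ x, f x * e i x ∂μ := by
      rw [hinner]
      apply integral_congr_ae
      filter_upwards [hF] with x hx
      rw [hx]
    rw [← inner_conj_symm, h1, mul_comm, Complex.mul_conj, Complex.normSq_eq_norm_sq]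
  have htot : inner ℂ F F = ((∫ x, ‖f x‖ ^ 2 ∂μ : ℝ) : ℂ) := by
    rw [MeasureTheory.L2.inner_def, ← integral_complex_ofReal]
    apply integral_congr_ae
    filter_upwards [hF] with x hx
    rw [hx, RCLike.inner_apply, Complex.mul_conj, Complex.normSq_eq_norm_sq]
  rw [htot] at hs
  simp only [hterm] at hs
  exact Complex.hasSum_ofReal.mp hs

theorem spc : StmSPC := by
  intro d γ L hγ hSpec
  obtain ⟨Λ, hΛ, horth, hcomp⟩ := hSpec
  have hfin := finite_arc (γ := γ) hγ.pos
  refine ⟨Λ, hΛ, 1, one_pos, ?_⟩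
  intro f hf
  rw [one_mul]
  have he : ∀ i : Λ, MemLp (fun x => conj (expo (i : V d) x)) 2 (arcMeasure γ L) := by
    intro i
    apply MemLp.of_bound (C := 1)
    · exact (Complex.continuous_conj.comp (expo_cont (i : V d))).aestronglyMeasurable
    · filter_upwards with x
      rw [RCLike.norm_conj, norm_expo]
  apply parseval (arcMeasure γ L) (fun (i : Λ) x => expo (i : V d) x) he _ _ _ f hf
  · intro i
    have := horth i i.2 i i.2
    rwa [if_pos rfl] at this
  · intro i j hij
    have := horth i i.2 j j.2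
    rwa [if_neg (fun h => hij (Subtype.ext h))] at this
  · intro g hg h
    exact hcomp g hg (fun l hl => h ⟨l, hl⟩)

end Pool.Agent.T6.H66.SC.SPC
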