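import Pool.Agent.T6.H66.SC.Defs

/-!
Consequences of linear counting (module SUM).
-/

set_option autoImplicit false

open MeasureTheory Set Real Filter Topology

namespace Pool.Agent.T6.H66.SC.SUM

open Pool.Agent.T6.H66.SC

theorem dyad {ι : Type} (r : ι → ℝ) (C ρ : ℝ) (hC : 0 < C) (hρ : 1 ≤ ρ)
    (h : ∀ x ≥ ρ, ∀ F : Finset ι, (∀ i ∈ F, r i ≤ x) → (F.card : ℝ) ≤ C * x) :
    ∀ (K : ℕ) (x : ℝ), ρ ≤ x → ∀ F : Finset ι, (∀ i ∈ F, x < r i ∧ r i ≤ 2 ^ K * x) →
      ∑ i ∈ F, 1 / r i ^ 2 ≤ 4 * C / x := by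
  classical
  intro K
  induction K with
  | zero =>
    intro x hx F hF
    have hx0 : 0 < x := by linarith
    have hE : F = ∅ := by
      rw [Finset.eq_empty_iff_forall_notMem]
      intro i hi
      have := hF i hi
      rw [pow_zero, one_mul] at this
      linarith [this.1, this.2]
    rw [hE, Finset.sum_empty]
    positivity
  | succ K ih =>
    intro x hx F hF
    have hx0 : 0 < x := by linarith
    rw [← Finset.sum_filter_add_sum_filter_not F (fun i => r i ≤ 2 * x)]
    have h1 : ∑ i ∈ F.filter (fun i => r i ≤ 2 * x), 1 / r i ^ 2 ≤ 2 * C / x := by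
      have h2 : ∀ i ∈ F.filter (fun i => r i ≤ 2 * x), 1 / r i ^ 2 ≤ 1 / x ^ 2 := by
        intro i hi
        have h3 := (hF i (Finset.mem_filter.1 hi).1).1
        exact one_div_le_one_div_of_le (by positivity) (by nlinarith)
      have h4 := Finset.sum_le_card_nsmul _ _ _ h2
      have h5 := h (2 * x) (by linarith) (F.filter (fun i => r i ≤ 2 * x))
        (fun i hi => (Finset.mem_filter.1 hi).2)
      rw [nsmul_eq_mul] at h4
      calc _ ≤ _ := h4
        _ ≤ (C * (2 * x)) * (1 / x ^ 2) := mul_le_mul_of_nonneg_right h5 (by positivity)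
        _ = 2 * C / x := by field_simp
    have h2 : ∑ i ∈ F.filter (fun i => ¬ r i ≤ 2 * x), 1 / r i ^ 2 ≤ 4 * C / (2 * x) := by
      apply ih (2 * x) (by linarith)
      intro i hi
      obtain ⟨h3, h4⟩ := Finset.mem_filter.1 hi
      refine ⟨not_le.1 h4, ?_⟩
      have := (hF i h3).2
      rw [pow_succ] at this
      linarith
    have h3 : 2 * C / x + 4 * C / (2 * x) = 4 * C / x := by
      field_simp
      ring
    linarith

theorem sum_ : StmSUM := by
  intro ι r C ρ hC hρ h x hx F hF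
  have hx0 : 0 < x := by
    have : ρ ≤ x := hx
    linarith
  obtain ⟨M, hM⟩ := (F.image r).exists_le
  obtain ⟨K, hK⟩ := pow_unbounded_of_one_lt (M / x) (one_lt_two : (1 : ℝ) < 2)
  have h1 := dyad r C ρ hC hρ h K x hx F (fun i hi => ⟨hF i hi, by
    have h2 := hM (r i) (Finset.mem_image_of_mem r hi)
    have h3 : M < 2 ^ K * x := (div_lt_iff₀ hx0).1 hK
    linarith⟩)
  have h2 : 4 * C / x ≤ 8 * C / x := by
    gcongr
    norm_num
  linarith

end Pool.Agent.T6.H66.SC.SUM
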