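import Pool.Agent.T6.H66.SC.Defs

set_option autoImplicit false

/-!
# Module TAIL: the nearly normal frequencies are summable
-/

namespace Pool.Agent.T6.H66.SC.TAIL

open Pool.Agent.T6.H66.SC

/-- Module TAIL. -/
theorem tail_ (hLOW : StmLOW) : StmTAIL := by
  classical
  intro κ0 κ1 a b κ κ' hArc ι A Φ u v r hA hSys hP ε hε
  obtain ⟨c, hc, r0, hr0, hlow⟩ := hLOW κ0 κ1 a b κ κ' hArc
  have hsum := (hP a b le_rfl hArc.hab.le le_rfl).summable
  obtain ⟨F0, hF0⟩ := summable_iff_vanishing_norm.1 hsum (c * ε) (by positivity)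
  refine ⟨max r0 (1 + ∑ i ∈ F0, r i), le_max_of_le_left hr0, ?_⟩
  intro F hF
  have hdisj : Disjoint F F0 := by
    rw [Finset.disjoint_left]
    intro i hi hi0
    have h1 := (le_max_right _ _).trans (hF i hi).1
    have h2 := Finset.single_le_sum (f := r) (fun j _ => (hSys j).rnn) hi0
    linarith
  have h1 := hF0 F hdisj
  have h2 : ∑ i ∈ F, c * (1 / r i) ≤ ∑ i ∈ F, ‖G (Φ i) a b‖ ^ 2 := by
    apply Finset.sum_le_sum
    intro i hi
    have h3 := hlow (Φ i) (u i) (v i) (r i) (hSys i) ((le_max_left _ _).trans (hF i hi).1)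
      (hF i hi).2
    rw [mul_one_div]
    exact h3
  rw [← Finset.mul_sum] at h2
  have h4 := (Real.norm_eq_abs _ ▸ le_abs_self _ :
    ∑ i ∈ F, ‖G (Φ i) a b‖ ^ 2 ≤ ‖∑ i ∈ F, ‖G (Φ i) a b‖ ^ 2‖)
  have h5 : c * ∑ i ∈ F, 1 / r i ≤ c * ε := by linarith
  exact le_of_mul_le_mul_left h5 hc

end Pool.Agent.T6.H66.SC.TAIL
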