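import Pool.Agent.T6.H66.SC.VDA

/-!
# Project SC, module TRV (helper82): elementary facts
-/

set_option autoImplicit false

open MeasureTheory Set Real Filter Topology

namespace Pool.Agent.T6.H66.SC

open VDA in
theorem trv : StmTRV := by
  intro κ0 κ1 a b κ κ' hA
  have hab := hA.hab
  have hL : 0 < b - a := by linarith
  refine ⟨fun Φ u v r hS R hR4 hR => ⟨fun s _ => ⟨?_, ?_⟩, ?_⟩, fun U R hR => ⟨?_, ?_⟩⟩
  · unfold cR; positivity
  · unfold cR
    have h1 : ‖G Φ s (s + 1 / R)‖ ≤ 1 / R := by
      unfold G
      have := intervalIntegral.norm_integral_le_of_norm_le_const (a := s) (b := s + 1 / R)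
        (f := E Φ) (C := 1) (fun x _ => (norm_E Φ x).le)
      rw [one_mul, add_sub_cancel_left, abs_of_pos (by positivity)] at this
      exact this
    calc R * ‖G Φ s (s + 1 / R)‖ ^ 2 ≤ R * (1 / R) ^ 2 := by gcongr
      _ = 1 / R := by field_simp
  · have hRinv : 1 / R ≤ (b - a) / 4 := by
      rw [div_le_iff₀ hL] at hR4
      rw [div_le_iff₀ hR]
      nlinarith
    have hint : IntegrableOn (E Φ) (uIcc a b) := by
      rw [uIcc_of_le hab.le]
      exact (cont_E hS).integrableOn_Icc
    have hprim := intervalIntegral.continuousOn_primitive_interval hint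
    rw [uIcc_of_le hab.le] at hprim
    have hii : ∀ x ∈ Icc a b, IntervalIntegrable (E Φ) volume a x := fun x hx => by
      refine ContinuousOn.intervalIntegrable ?_
      rw [uIcc_of_le hx.1]
      exact (cont_E hS).mono (Icc_subset_Icc le_rfl hx.2)
    have hm1 : ∀ s ∈ Icc (al a b) (be a b), s ∈ Icc a b := fun s hs => by
      unfold al be at hs
      exact ⟨by linarith [hs.1], by linarith [hs.2]⟩
    have hm2 : ∀ s ∈ Icc (al a b) (be a b), s + 1 / R ∈ Icc a b := fun s hs => by
      unfold al be at hs
      have : 0 < 1 / R := by positivity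
      exact ⟨by linarith [hs.1], by linarith [hs.2]⟩
    have hG : ContinuousOn (fun s => G Φ s (s + 1 / R)) (Icc (al a b) (be a b)) := by
      have c1 : ContinuousOn (fun s => (∫ x in a..(s + 1 / R), E Φ x) - ∫ x in a..s, E Φ x)
          (Icc (al a b) (be a b)) := by
        refine ContinuousOn.sub ?_ (hprim.mono hm1)
        exact hprim.comp (continuousOn_id.add continuousOn_const) hm2
      refine c1.congr fun s hs => ?_
      unfold G
      exact (intervalIntegral.integral_interval_sub_left (hii _ (hm2 s hs)) (hii _ (hm1 s hs))).symm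
    unfold cR
    exact continuousOn_const.mul (hG.norm.pow 2)
  · unfold idl; positivity
  · unfold idl
    have h1 : |sin (π * U / R) / (π * U)| ≤ 1 / R := by
      rcases eq_or_ne U 0 with h0 | h0
      · rw [h0, mul_zero, div_zero, abs_zero]; positivity
      · have h2 : |sin (π * U / R)| ≤ |π * U / R| := abs_sin_le_abs
        rw [abs_div, div_le_iff₀ (abs_pos.2 (mul_ne_zero pi_pos.ne' h0))]
        refine h2.trans (le_of_eq ?_)
        rw [abs_div, abs_of_pos hR]
        ring
    calc R * (sin (π * U / R) / (π * U)) ^ 2 = R * |sin (π * U / R) / (π * U)| ^ 2 := by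
          rw [sq_abs]
      _ ≤ R * (1 / R) ^ 2 := by gcongr
      _ = 1 / R := by field_simp

end Pool.Agent.T6.H66.SC
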