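import Pool.Agent.T6.H66.SC.Defs

/-! # Project SC, module UPP: upper bound of the averaged quantity for nearly normal frequencies -/

set_option autoImplicit false

open MeasureTheory Set Real Filter Topology

namespace Pool.Agent.T6.H66.SC.UPP

open Pool.Agent.T6.H66.SC

theorem norm_E (Φ : ℝ → ℝ) (x : ℝ) : ‖E Φ x‖ = 1 := Complex.norm_exp_ofReal_mul_I _

theorem G_triv (Φ : ℝ → ℝ) (s t : ℝ) (h : s ≤ t) : ‖G Φ s t‖ ≤ t - s := by
  unfold G
  have := intervalIntegral.norm_integral_le_of_norm_le_const (a := s) (b := t) (f := E Φ) (C := 1)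
    (fun x _ => (norm_E Φ x).le)
  rwa [one_mul, abs_of_nonneg (sub_nonneg.2 h)] at this

theorem contE (a b : ℝ) (Φ u : ℝ → ℝ) (h : ∀ s ∈ Icc a b, HasDerivAt Φ (u s) s) :
    ContinuousOn (E Φ) (Icc a b) := by
  have h1 : ContinuousOn Φ (Icc a b) := fun s hs => (h s hs).continuousAt.continuousWithinAt
  unfold E
  refine Complex.continuous_exp.comp_continuousOn ?_
  refine ContinuousOn.mul ?_ continuousOn_const
  refine Complex.continuous_ofReal.comp_continuousOn ?_
  exact (continuousOn_const.mul h1).neg

theorem G_add (a b : ℝ) (Φ u : ℝ → ℝ) (h : ∀ s ∈ Icc a b, HasDerivAt Φ (u s) s) (s p t : ℝ)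
    (h1 : a ≤ s) (h2 : s ≤ p) (h3 : p ≤ t) (h4 : t ≤ b) : G Φ s t = G Φ s p + G Φ p t := by
  unfold G
  refine (intervalIntegral.integral_add_adjacent_intervals ?_ ?_).symm
  · refine ((contE a b Φ u h).mono ?_).intervalIntegrable
    rw [uIcc_of_le h2]
    exact Icc_subset_Icc h1 (le_trans h3 h4)
  · refine ((contE a b Φ u h).mono ?_).intervalIntegrable
    rw [uIcc_of_le h3]
    exact Icc_subset_Icc (le_trans h1 h2) h4

/-- A function with derivative `≥ c` and a zero at `z`. -/
theorem low_der (a b c z : ℝ) (U U' : ℝ → ℝ) (hU : ∀ x ∈ Icc a b, HasDerivAt U (U' x) x)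
    (hc : ∀ x ∈ Icc a b, c ≤ U' x) (hz : z ∈ Icc a b) (hz0 : U z = 0) :
    ∀ x ∈ Icc a b, c * |x - z| ≤ |U x| := by
  have hmono : MonotoneOn (fun x => U x - c * x) (Icc a b) := by
    refine monotoneOn_of_deriv_nonneg (convex_Icc a b) ?_ ?_ ?_
    · intro x hx
      exact ((hU x hx).continuousAt.sub (by fun_prop)).continuousWithinAt
    · intro x hx
      have hx' := interior_subset hx
      exact ((hU x hx').sub ((hasDerivAt_id x).const_mul c)).differentiableAt.differentiableWithinAt
    · intro x hx
      have hx' := interior_subset hx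
      have := ((hU x hx').sub ((hasDerivAt_id x).const_mul c)).deriv
      have e : deriv (fun x => U x - c * x) x = U' x - c * 1 := this
      rw [e]
      linarith [hc x hx']
  intro x hx
  rcases le_total z x with h | h
  · have := hmono hz hx h
    simp only [hz0] at this
    rw [abs_of_nonneg (sub_nonneg.2 h)]
    refine le_trans ?_ (le_abs_self _)
    linarith
  · have := hmono hx hz h
    simp only [hz0] at this
    rw [abs_of_nonpos (sub_nonpos.2 h)]
    refine le_trans ?_ (neg_le_abs _)
    linarith

/-- The data of a nearly normal frequency. -/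
structure Dat (a b k : ℝ) (Φ u : ℝ → ℝ) (r z : ℝ) : Prop where
  kpos : 0 < k
  rpos : 0 < r
  dPhi : ∀ s ∈ Icc a b, HasDerivAt Φ (u s) s
  low : ∀ x ∈ Icc a b, k * r * |x - z| ≤ |u x|
  vdb : ∀ s t m : ℝ, a ≤ s → s ≤ t → t ≤ b → 0 < m → (∀ x ∈ Icc s t, m ≤ |u x|) →
    ‖G Φ s t‖ ≤ 1 / m

theorem dat (hVDB : StmVDB) (hNZ : StmNZ) (κ0 κ1 a b : ℝ) (κ κ' : ℝ → ℝ)
    (hA : Arc κ0 κ1 a b κ κ') (Φ u v : ℝ → ℝ) (r : ℝ) (hS : Sys a b κ Φ u v r) (hr : 0 < r)
    (hN : Nr κ0 a b u r) : ∃ z, Dat a b (9 / 10 * κ0) Φ u r z := by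
  obtain ⟨⟨z, hz, hz0⟩, hv⟩ := hNZ κ0 κ1 a b κ κ' hA Φ u v r hS hr hN
  have hab := hA.hab
  have hz' : z ∈ Icc a b := ⟨by linarith [hz.1], by linarith [hz.2]⟩
  have hκ := hA.pos
  refine ⟨z, by linarith, hr, hS.dΦ, ?_, ?_⟩
  · rcases hv with hv | hv
    · refine low_der a b (9 / 10 * κ0 * r) z u (fun x => κ x * v x) hS.du ?_ hz' hz0
      intro x hx
      have h1 := hv x hx
      have h2 := hA.lo x hx
      have h3 : κ0 * (9 / 10 * r) ≤ κ x * v x := mul_le_mul h2 h1 (by positivity) (by linarith)
      linarith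
    · have := low_der a b (9 / 10 * κ0 * r) z (fun x => -u x) (fun x => -(κ x * v x))
        (fun x hx => (hS.du x hx).neg) (by
          intro x hx
          have h1 := hv x hx
          have h2 := hA.lo x hx
          have h3 : κ0 * (9 / 10 * r) ≤ κ x * (-v x) :=
            mul_le_mul h2 (by linarith) (by positivity) (by linarith)
          linarith) hz' (by simp [hz0])
      intro x hx
      have := this x hx
      rwa [abs_neg] at this
  · intro s t m h1 h2 h3 hm hu
    refine hVDB κ0 κ1 a b κ κ' hA Φ u v r hS s t m h1 h2 h3 hm hu ?_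
    rcases hv with hv | hv
    · left
      intro x hx
      have := hv x ⟨le_trans h1 hx.1, le_trans hx.2 h3⟩
      have h9 : 0 < 9 / 10 * r := by positivity
      linarith
    · right
      intro x hx
      have := hv x ⟨le_trans h1 hx.1, le_trans hx.2 h3⟩
      have h9 : 0 < 9 / 10 * r := by positivity
      linarith

/-- second derivative test -/
theorem vdc2 (a b k : ℝ) (Φ u : ℝ → ℝ) (r z : ℝ) (hD : Dat a b k Φ u r z) (s t : ℝ) (h1 : a ≤ s)
    (h2 : s ≤ t) (h3 : t ≤ b) : ‖G Φ s t‖ ^ 2 ≤ 16 / (k * r) := by
  have hkr : 0 < k * r := mul_pos hD.kpos hD.rpos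
  set q := √(k * r) with hq
  have hq0 : 0 < q := Real.sqrt_pos.2 hkr
  have hqq : q * q = k * r := Real.mul_self_sqrt hkr.le
  have hw : 0 < 1 / q := by positivity
  have hkw : k * r * (1 / q) = q := by
    rw [← hqq]; field_simp
  -- far pieces
  have far : ∀ p p', a ≤ p → p ≤ p' → p' ≤ b → (∀ x ∈ Icc p p', 1 / q ≤ |x - z|) →
      ‖G Φ p p'‖ ≤ 1 / q := by
    intro p p' g1 g2 g3 hf
    refine hD.vdb p p' q g1 g2 g3 hq0 ?_
    intro x hx
    refine le_trans ?_ (hD.low x ⟨le_trans g1 hx.1, le_trans hx.2 g3⟩)
    rw [← hkw]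
    exact mul_le_mul_of_nonneg_left (hf x hx) hkr.le
  have zero : ∀ p, ‖G Φ p p‖ ≤ 1 / q := by
    intro p
    unfold G
    rw [intervalIntegral.integral_same, norm_zero]
    exact hw.le
  set p1 := max s (min t (z - 1 / q)) with hp1
  set p2 := max s (min t (z + 1 / q)) with hp2
  have a1 : s ≤ p1 := le_max_left _ _
  have a2 : p1 ≤ p2 := max_le_max le_rfl (min_le_min le_rfl (by linarith))
  have a3 : p2 ≤ t := max_le h2 (min_le_left _ _)
  have b1 : ‖G Φ s p1‖ ≤ 1 / q := by
    rcases le_total (min t (z - 1 / q)) s with h | h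
    · rw [hp1, max_eq_left h]
      exact zero s
    · refine far s p1 h1 a1 (by linarith) ?_
      intro x hx
      have h5 : p1 ≤ z - 1 / q := by
        rw [hp1, max_eq_right h]
        exact min_le_right _ _
      have : x ≤ z - 1 / q := le_trans hx.2 h5
      rw [abs_of_nonpos (by linarith)]
      linarith
  have b3 : ‖G Φ p2 t‖ ≤ 1 / q := by
    rcases le_total t (z + 1 / q) with h | h
    · have : p2 = t := by
        rw [hp2, min_eq_left h, max_eq_right h2]
      rw [this]
      exact zero t
    · refine far p2 t (by linarith) a3 h3 ?_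
      intro x hx
      have h5 : z + 1 / q ≤ p2 := by
        rw [hp2, min_eq_right h]
        exact le_max_right _ _
      have : z + 1 / q ≤ x := le_trans h5 hx.1
      rw [abs_of_nonneg (by linarith)]
      linarith
  have b2 : ‖G Φ p1 p2‖ ≤ 2 / q := by
    refine le_trans (G_triv Φ p1 p2 a2) ?_
    have h6 : p2 ≤ p1 + 2 / q := by
      rw [hp2]
      refine max_le (by
        have : 0 < 2 / q := by positivity
        linarith) ?_
      rcases le_total t (z - 1 / q) with h | h
      · refine le_trans (min_le_left _ _) ?_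
        have : t ≤ p1 := by
          rw [hp1, min_eq_left h]
          exact le_max_right _ _
        have : 0 < 2 / q := by positivity
        linarith
      · refine le_trans (min_le_right _ _) ?_
        have h7 : z - 1 / q ≤ p1 := by
          rw [hp1, min_eq_right h]
          exact le_max_right _ _
        have : 2 / q = 1 / q + 1 / q := by ring
        linarith
    linarith
  have e1 := G_add a b Φ u hD.dPhi s p1 t h1 a1 (le_trans a2 a3) h3
  have e2 := G_add a b Φ u hD.dPhi p1 p2 t (le_trans h1 a1) a2 a3 h3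
  have b4 : ‖G Φ s t‖ ≤ 4 / q := by
    rw [e1, e2]
    refine le_trans (norm_add_le _ _) ?_
    have := norm_add_le (G Φ p1 p2) (G Φ p2 t)
    have e : 4 / q = 1 / q + (2 / q + 1 / q) := by ring
    rw [e]
    linarith
  calc ‖G Φ s t‖ ^ 2 ≤ (4 / q) ^ 2 := pow_le_pow_left₀ (norm_nonneg _) b4 2
    _ = 16 / (k * r) := by
      rw [div_pow, sq q, hqq]; norm_num

/-- the integral of the Lorentzian -/
theorem lor (z D s t : ℝ) (hD : 0 < D) : (∫ x in s..t, (1 + ((x - z) / D) ^ 2)⁻¹) ≤ π * D := by
  have h1 : ∀ x ∈ uIcc s t, HasDerivAt (fun x => D * arctan ((x - z) / D))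
      ((1 + ((x - z) / D) ^ 2)⁻¹) x := by
    intro x _
    have h2 : HasDerivAt (fun x => (x - z) / D) (1 / D) x :=
      ((hasDerivAt_id x).sub_const z).div_const D
    have h3 := (h2.arctan).const_mul D
    refine h3.congr_deriv ?_
    field_simp
  rw [intervalIntegral.integral_eq_sub_of_hasDerivAt h1 (by
    refine Continuous.intervalIntegrable ?_ s t
    refine Continuous.inv₀ (by fun_prop) ?_
    intro x
    positivity)]
  have h4 := Real.arctan_lt_pi_div_two ((t - z) / D)
  have h5 := Real.neg_pi_div_two_lt_arctan ((s - z) / D)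
  have : D * arctan ((t - z) / D) - D * arctan ((s - z) / D) =
      D * (arctan ((t - z) / D) - arctan ((s - z) / D)) := by ring
  rw [this]
  have h6 : arctan ((t - z) / D) - arctan ((s - z) / D) ≤ π := by linarith
  calc D * (arctan ((t - z) / D) - arctan ((s - z) / D)) ≤ D * π :=
        mul_le_mul_of_nonneg_left h6 hD.le
    _ = π * D := by ring

theorem bnd (a b k : ℝ) (hab : a < b) (Φ u : ℝ → ℝ) (r z : ℝ) (hD : Dat a b k Φ u r z) (R : ℝ)
    (hR : 0 < R) (hRab : 4 / (b - a) ≤ R) (D M : ℝ) (hDR : 1 / R ≤ D) (hM : 0 ≤ M)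
    (h1 : ∀ s ∈ Icc (al a b) (be a b), 5 * cR Φ R s ≤ M)
    (h2 : 5 * R / (k ^ 2 * r ^ 2 * D ^ 2) ≤ M) :
    (∫ s in (al a b)..(be a b), cR Φ R s) ≤ M * (π * D) := by
  have hk := hD.kpos
  have hr := hD.rpos
  have hRi : 0 < 1 / R := by positivity
  have hD0 : 0 < D := lt_of_lt_of_le hRi hDR
  have hle : al a b ≤ be a b := by unfold al be; linarith
  by_cases hint : IntervalIntegrable (fun s => cR Φ R s) volume (al a b) (be a b)
  · have hpt : ∀ s ∈ Icc (al a b) (be a b), cR Φ R s ≤ M * (1 + ((s - z) / D) ^ 2)⁻¹ := by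
      intro s hs
      have hpos : 0 < 1 + ((s - z) / D) ^ 2 := by positivity
      rw [← div_eq_mul_inv, le_div_iff₀ hpos]
      have hc0 : 0 ≤ cR Φ R s := by unfold cR; positivity
      by_cases hw : ((s - z) / D) ^ 2 ≤ 4
      · have := h1 s hs
        nlinarith
      · push Not at hw
        -- far from the zero
        have hy : 2 * D < |s - z| := by
          by_contra hcon
          push Not at hcon
          have h3 : (s - z) ^ 2 ≤ (2 * D) ^ 2 := by
            rw [← sq_abs (s - z)]
            exact pow_le_pow_left₀ (abs_nonneg _) hcon 2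
          rw [div_pow, lt_div_iff₀ (by positivity)] at hw
          nlinarith
        have hsa : a ≤ s := by
          have := hs.1; unfold al at this; linarith
        have hRb : 1 / R ≤ (b - a) / 4 := by
          rw [div_le_iff₀ hR]
          rw [div_le_iff₀ (by linarith)] at hRab
          linarith
        have hsb : s + 1 / R ≤ b := by
          have := hs.2; unfold be at this; linarith
        have hG : ‖G Φ s (s + 1 / R)‖ ≤ 1 / (k * r * (|s - z| / 2)) := by
          refine hD.vdb s (s + 1 / R) _ hsa (by linarith) hsb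
            (by
              have : 0 < |s - z| := by linarith
              positivity) ?_
          intro x hx
          refine le_trans ?_ (hD.low x ⟨le_trans hsa hx.1, le_trans hx.2 hsb⟩)
          refine mul_le_mul_of_nonneg_left ?_ (by positivity)
          have h3 : |s - z| ≤ |x - z| + |x - s| := by
            have := abs_sub_abs_le_abs_sub (s - z) (x - z)
            have e : s - z - (x - z) = -(x - s) := by ring
            rw [e, abs_neg] at this
            linarith
          have h4 : |x - s| ≤ 1 / R := by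
            rw [abs_of_nonneg (by linarith [hx.1])]
            linarith [hx.2]
          linarith
        set y := |s - z| with hyd
        have hy0 : 0 < y := by linarith
        have hc : cR Φ R s ≤ R * (1 / (k * r * (y / 2))) ^ 2 := by
          unfold cR
          exact mul_le_mul_of_nonneg_left (pow_le_pow_left₀ (norm_nonneg _) hG 2) hR.le
        have hsz : ((s - z) / D) ^ 2 = y ^ 2 / D ^ 2 := by
          rw [div_pow, hyd, sq_abs]
        have h54 : 1 + ((s - z) / D) ^ 2 ≤ 5 / 4 * (y ^ 2 / D ^ 2) := by
          rw [hsz] at hw ⊢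
          linarith
        calc cR Φ R s * (1 + ((s - z) / D) ^ 2) ≤
            (R * (1 / (k * r * (y / 2))) ^ 2) * (5 / 4 * (y ^ 2 / D ^ 2)) :=
              mul_le_mul hc h54 hpos.le (by positivity)
          _ = 5 * R / (k ^ 2 * r ^ 2 * D ^ 2) := by
              field_simp; ring
          _ ≤ M := h2
    have hcont : IntervalIntegrable (fun s => M * (1 + ((s - z) / D) ^ 2)⁻¹) volume
        (al a b) (be a b) := by
      refine Continuous.intervalIntegrable ?_ _ _
      refine Continuous.mul continuous_const (Continuous.inv₀ (by fun_prop) ?_)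
      intro x
      positivity
    refine le_trans (intervalIntegral.integral_mono_on hle hint hcont hpt) ?_
    rw [intervalIntegral.integral_const_mul]
    exact mul_le_mul_of_nonneg_left (lor z D _ _ hD0) hM
  · rw [intervalIntegral.integral_undef hint]
    positivity

theorem upp (hVDB : StmVDB) (hNZ : StmNZ) : StmUPP := by
  intro κ0 κ1 a b κ κ' hA
  have hab := hA.hab
  have hκ := hA.pos
  set k := 9 / 10 * κ0 with hk
  have hk0 : 0 < k := by positivity
  refine ⟨(5 + 5 / k ^ 2 + 80 / k) * π, by positivity, max 1 (4 / (b - a)), le_max_left _ _, ?_⟩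
  intro Φ u v r hS hr hN R hR
  have hr0 : 0 < r := by linarith
  have hR1 : 1 ≤ R := le_trans (le_max_left _ _) hR
  have hRab : 4 / (b - a) ≤ R := le_trans (le_max_right _ _) hR
  have hR0 : 0 < R := by linarith
  obtain ⟨z, hD⟩ := dat hVDB hNZ κ0 κ1 a b κ κ' hA Φ u v r hS hr0 hN
  rw [← hk] at hD
  set C := 5 + 5 / k ^ 2 + 80 / k with hC
  have hC0 : 0 < C := by positivity
  have hRb : 1 / R ≤ (b - a) / 4 := by
    rw [div_le_iff₀ hR0]
    rw [div_le_iff₀ (by linarith)] at hRab
    linarith
  have hsab : ∀ s ∈ Icc (al a b) (be a b), a ≤ s ∧ s + 1 / R ≤ b := by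
    intro s hs
    have h1 := hs.1
    have h2 := hs.2
    unfold al at h1
    unfold be at h2
    constructor <;> linarith
  rcases le_total r (R ^ 2) with hrR | hrR
  · -- case 1
    have := bnd a b k hab Φ u r z hD R hR0 hRab (R / r) (C / R)
      (by rw [div_le_div_iff₀ hR0 hr0]; nlinarith) (by positivity)
      (by
        intro s hs
        obtain ⟨g1, g2⟩ := hsab s hs
        have h3 := G_triv Φ s (s + 1 / R) (by
          have : 0 < 1 / R := by positivity
          linarith)
        have h4 : cR Φ R s ≤ 1 / R := by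
          unfold cR
          have h5 : ‖G Φ s (s + 1 / R)‖ ^ 2 ≤ (1 / R) ^ 2 := by
            refine pow_le_pow_left₀ (norm_nonneg _) ?_ 2
            linarith
          calc R * ‖G Φ s (s + 1 / R)‖ ^ 2 ≤ R * (1 / R) ^ 2 :=
                mul_le_mul_of_nonneg_left h5 hR0.le
            _ = 1 / R := by field_simp
        calc 5 * cR Φ R s ≤ 5 * (1 / R) := by linarith
          _ = 5 / R := by ring
          _ ≤ C / R := by
            refine div_le_div_of_nonneg_right ?_ hR0.le
            have : 0 < 5 / k ^ 2 + 80 / k := by positivity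
            linarith)
      (by
        have e : 5 * R / (k ^ 2 * r ^ 2 * (R / r) ^ 2) = (5 / k ^ 2) / R := by
          field_simp
        rw [e]
        refine div_le_div_of_nonneg_right ?_ hR0.le
        have : 0 < 80 / k := by positivity
        linarith)
    refine le_trans this (le_of_eq ?_)
    field_simp
  · -- case 2
    have := bnd a b k hab Φ u r z hD R hR0 hRab (1 / R) (C * R / r) le_rfl (by positivity)
      (by
        intro s hs
        obtain ⟨g1, g2⟩ := hsab s hs
        have h3 := vdc2 a b k Φ u r z hD s (s + 1 / R) g1 (by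
          have : 0 < 1 / R := by positivity
          linarith) g2
        have h4 : cR Φ R s ≤ R * (16 / (k * r)) := by
          unfold cR
          exact mul_le_mul_of_nonneg_left h3 hR0.le
        calc 5 * cR Φ R s ≤ 5 * (R * (16 / (k * r))) := by linarith
          _ = (80 / k) * (R / r) := by field_simp; ring
          _ ≤ C * (R / r) := by
            refine mul_le_mul_of_nonneg_right ?_ (by positivity)
            have : 0 < 5 + 5 / k ^ 2 := by positivity
            linarith
          _ = C * R / r := by ring)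
      (by
        have e : 5 * R / (k ^ 2 * r ^ 2 * (1 / R) ^ 2) = (5 / k ^ 2) * (R / r) * (R ^ 2 / r) := by
          field_simp
        rw [e]
        have h5 : R ^ 2 / r ≤ 1 := by
          rw [div_le_one hr0]; exact hrR
        calc (5 / k ^ 2) * (R / r) * (R ^ 2 / r) ≤ (5 / k ^ 2) * (R / r) * 1 :=
              mul_le_mul_of_nonneg_left h5 (by positivity)
          _ ≤ C * (R / r) := by
            rw [mul_one]
            refine mul_le_mul_of_nonneg_right ?_ (by positivity)
            have : 0 < 5 + 80 / k := by positivity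
            linarith
          _ = C * R / r := by ring)
    refine le_trans this (le_of_eq ?_)
    field_simp

end Pool.Agent.T6.H66.SC.UPP
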