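import Pool.Agent.T6.H66.SC.Defs

open MeasureTheory Set Real Filter Topology

namespace Pool.Agent.T6.H66.SC.UPR
open Pool.Agent.T6.H66.SC

theorem rpos {κ0 κ1 a b : ℝ} {κ κ' : ℝ → ℝ} (hA : Arc κ0 κ1 a b κ κ')
    {Φ u v : ℝ → ℝ} {r : ℝ} (hS : Sys a b κ Φ u v r) (hN : ¬ Nr κ0 a b u r) : 0 < r := by
  rcases hS.rnn.lt_or_eq with h | h
  · exact h
  · exfalso
    apply hN
    have hab := hA.hab
    refine ⟨al a b, ⟨le_rfl, by unfold al be; linarith⟩, ?_⟩
    have h1 := hS.sq (al a b) ⟨by unfold al; linarith, by unfold al; linarith⟩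
    rw [← h] at h1 ⊢
    have : u (al a b) = 0 := by nlinarith [sq_nonneg (u (al a b)), sq_nonneg (v (al a b))]
    rw [this]; simp

theorem ubig {κ0 a b : ℝ} {u : ℝ → ℝ} {r : ℝ} (hN : ¬ Nr κ0 a b u r) :
    ∀ s ∈ Icc (al a b) (be a b), κ0 * (b - a) / 8 * r < |u s| := by
  intro s hs
  by_contra h
  exact hN ⟨s, hs, not_lt.mp h⟩

theorem ucont {κ0 κ1 a b : ℝ} {κ κ' : ℝ → ℝ} (hA : Arc κ0 κ1 a b κ κ')
    {Φ u v : ℝ → ℝ} {r : ℝ} (hS : Sys a b κ Φ u v r) :
    ContinuousOn u (Icc (al a b) (be a b)) := by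
  intro s hs
  have hab := hA.hab
  have : s ∈ Icc a b := by
    unfold al be at hs
    exact ⟨by linarith [hs.1], by linarith [hs.2]⟩
  exact (hS.du s this).continuousAt.continuousWithinAt

theorem idl_div (U R : ℝ) (hR : 0 < R) : idl U R / R = (sin (π * U / R) / (π * U)) ^ 2 := by
  unfold idl; field_simp

theorem gcont (u : ℝ → ℝ) (p q : ℝ) (hpq : p ≤ q) (hu : ContinuousOn u (Icc p q))
    (hne : ∀ s ∈ Icc p q, u s ≠ 0) (R1 R2 : ℝ) (h1 : 0 < R1) (h2 : R1 ≤ R2) :
    ContinuousOn (fun s => ∫ R in R1..R2, idl (u s) R / R) (Icc p q) := by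
  set U : ℝ → ℝ := Set.IccExtend hpq (Set.domRestrict (Icc p q) u) with hU
  have hUc : Continuous U := (continuousOn_iff_continuous_domRestrict.mp hu).Icc_extend'
  have hUe : ∀ s ∈ Icc p q, U s = u s := by
    intro s hs
    rw [hU, Set.IccExtend_of_mem hpq _ hs]; rfl
  have hUn : ∀ s, U s ≠ 0 := by
    intro s
    rw [hU]
    simp only [Set.IccExtend, Function.comp, Set.domRestrict]
    exact hne _ (Set.projIcc p q hpq s).2
  have hF : Continuous (Function.uncurry (fun (s R : ℝ) =>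
      (sin (π * U s / max R R1) / (π * U s)) ^ 2)) := by
    have hm : Continuous (fun z : ℝ × ℝ => max z.2 R1) := by fun_prop
    have hmne : ∀ z : ℝ × ℝ, max z.2 R1 ≠ 0 := fun z => (lt_of_lt_of_le h1 (le_max_right _ _)).ne'
    have h3 : Continuous (fun z : ℝ × ℝ => π * U z.1) := by fun_prop
    have h3n : ∀ z : ℝ × ℝ, π * U z.1 ≠ 0 := fun z => mul_ne_zero pi_ne_zero (hUn _)
    have h4 : Continuous (fun z : ℝ × ℝ => π * U z.1 / max z.2 R1) := h3.div hm hmne
    exact ((continuous_sin.comp h4).div h3 h3n).pow 2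
  have hG := intervalIntegral.continuous_parametric_intervalIntegral_of_continuous' (μ := volume)
    hF R1 R2
  refine hG.continuousOn.congr ?_
  intro s hs
  apply intervalIntegral.integral_congr
  intro R hR
  rw [uIcc_of_le h2] at hR
  have hRp : 0 < R := lt_of_lt_of_le h1 hR.1
  simp only
  rw [idl_div _ _ hRp, hUe s hs, max_eq_left hR.1]

theorem int_inv_sq (R1 R2 : ℝ) (h1 : 0 < R1) (h2 : R1 ≤ R2) :
    (∫ x in R1..R2, 1 / x ^ 2) ≤ 1 / R1 := by
  have hd : ∀ x ∈ uIcc R1 R2, HasDerivAt (fun x : ℝ => - x⁻¹) (1 / x ^ 2) x := by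
    intro x hx
    rw [uIcc_of_le h2] at hx
    have hx0 : x ≠ 0 := (lt_of_lt_of_le h1 hx.1).ne'
    have := (hasDerivAt_inv hx0).neg
    rw [neg_neg, ← one_div] at this
    exact this
  have hi : IntervalIntegrable (fun x : ℝ => 1 / x ^ 2) volume R1 R2 := by
    apply ContinuousOn.intervalIntegrable
    intro x hx
    rw [uIcc_of_le h2] at hx
    have hx0 : x ≠ 0 := (lt_of_lt_of_le h1 hx.1).ne'
    apply ContinuousAt.continuousWithinAt
    have : x ^ 2 ≠ 0 := pow_ne_zero 2 hx0
    fun_prop (disch := assumption)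
  rw [intervalIntegral.integral_eq_sub_of_hasDerivAt hd hi]
  have : 0 < R2 := lt_of_lt_of_le h1 h2
  have h3 : 0 < R2⁻¹ := inv_pos.mpr this
  simp only [one_div]
  linarith

theorem upr (hAVG : StmAVG) (hCONV : StmCONV) (hPSI : StmPSI) (hNON : StmNON) (hTRV : StmTRV)
    (hCNT : StmCNT) (hSUM : StmSUM) : StmUPR := by
  intro κ0 κ1 a b κ κ' hA ι _ A Φ u v r hApos hS hP
  obtain ⟨w, hwc, hw0, c7, hc7, hconv⟩ := hCONV κ0 κ1 a b κ κ' hA
  obtain ⟨P, hP0, hpsi⟩ := hPSI
  obtain ⟨C5, hC5, R5, hR5, hnon⟩ := hNON κ0 κ1 a b κ κ' hA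
  obtain ⟨Cn, hCn, ρ, hρ, hcnt⟩ := hCNT κ0 κ1 a b κ κ' hA ι A Φ u v r hApos hS hP
  have hsum := hSUM ι r Cn ρ hCn hρ hcnt
  have hidl := (hTRV κ0 κ1 a b κ κ' hA).2
  obtain ⟨W0, hW0⟩ := isCompact_Icc.exists_bound_of_continuousOn hwc
  set W := max W0 1 with hWdef
  have hW1 : 1 ≤ W := le_max_right _ _
  have hW : ∀ s ∈ Icc (al a b) (be a b), |w s| ≤ W := fun s hs =>
    (by simpa using hW0 s hs : |w s| ≤ W0).trans (le_max_left _ _)
  have hab := hA.hab
  set D := be a b - al a b with hD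
  have hDpos : 0 < D := by rw [hD]; unfold al be; linarith
  have hle : al a b ≤ be a b := by linarith
  set c' := κ0 * (b - a) / 8 with hc'
  have hc'pos : 0 < c' := by
    have := hA.pos
    have : 0 < b - a := by linarith
    positivity
  set B := W * D * (1 / c' ^ 2 + 1) with hB
  have hBpos : 0 < B := by positivity
  set M := max 1 (2 * B / (P * c7)) with hM
  have hM1 : 1 ≤ M := le_max_left _ _
  have hM2 : B / M ≤ P * c7 / 2 := by
    rw [div_le_iff₀ (by linarith)]
    have h1 : 2 * B / (P * c7) ≤ M := le_max_right _ _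
    have h2 : 0 < P * c7 := by positivity
    rw [div_le_iff₀ h2] at h1
    nlinarith
  set K0 := W * D * Cn * M + 8 * (W * D * C5 * Cn * M) with hK0
  have hMpos : 0 < M := by linarith
  have hWpos : 0 < W := by linarith
  have hK0pos : 0 ≤ K0 := by positivity
  have hh : 0 < P * c7 / 2 := by positivity
  refine ⟨M, hM1, K0 / (P * c7 / 2), by positivity, ?_⟩
  intro ε hε
  obtain ⟨Ra, hRa, havg⟩ := hAVG κ0 κ1 a b κ κ' hA ι A Φ u v r hApos hS hP w hwc hw0
    (ε * (P * c7 / 2)) (by positivity)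
  refine ⟨max Ra (max R5 (M * ρ)), le_trans hRa (le_max_left _ _), ?_⟩
  intro R1 hR1 R2 hR12 F hF
  have hR1a : Ra ≤ R1 := le_trans (le_max_left _ _) hR1
  have hR15 : R5 ≤ R1 := le_trans (le_trans (le_max_left _ _) (le_max_right _ _)) hR1
  have hR1M : M * ρ ≤ R1 := le_trans (le_trans (le_max_right _ _) (le_max_right _ _)) hR1
  have hR1pos : 0 < R1 := by linarith
  have hR2pos : 0 < R2 := by linarith
  obtain ⟨hsumm, hts⟩ := havg R1 hR1a R2 hR12
  set J : {i // ¬ Nr κ0 a b (u i) (r i)} → ℝ := fun i =>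
        ∫ s in (al a b)..(be a b), w s * ∫ R in R1..R2, idl (u i s) R / R with hJ
  -- generic bound
  have hgen : ∀ (g : ℝ → ℝ) (T : ℝ), 0 ≤ T → (∀ s ∈ Icc (al a b) (be a b), |g s| ≤ T) →
      |∫ s in (al a b)..(be a b), w s * g s| ≤ W * D * T := by
    intro g T hT hg
    have := intervalIntegral.norm_integral_le_of_norm_le_const (a := al a b) (b := be a b)
      (f := fun s => w s * g s) (C := W * T) (by
        intro s hs
        rw [uIoc_of_le hle] at hs
        have hs' : s ∈ Icc (al a b) (be a b) := ⟨hs.1.le, hs.2⟩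
        rw [norm_mul]
        exact mul_le_mul (hW s hs') (hg s hs') (norm_nonneg _) (by linarith))
    rw [Real.norm_eq_abs] at this
    rw [abs_of_pos (show 0 < be a b - al a b from hDpos)] at this
    rw [← hD] at this
    calc _ ≤ W * T * D := this
      _ = _ := by ring
  -- facts for one index
  have hrp : ∀ i : {i // ¬ Nr κ0 a b (u i) (r i)}, 0 < r i := fun i => rpos hA (hS i) i.2
  have hub : ∀ i : {i // ¬ Nr κ0 a b (u i) (r i)}, ∀ s ∈ Icc (al a b) (be a b),
      c' * r i < |u i s| := fun i => ubig i.2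
  -- class 2
  have hcl2 : ∀ i, |J i| ≤ W * D * (1 / R1) := by
    intro i
    apply hgen _ _ (by positivity)
    intro s hs
    have h1 := intervalIntegral.norm_integral_le_of_norm_le (μ := volume) (a := R1) (b := R2)
      (f := fun R => idl (u i s) R / R) (g := fun R => 1 / R ^ 2) hR12
      (Filter.Eventually.of_forall (by
        intro R hR
        have hRp : 0 < R := by linarith [hR.1]
        have h2 := hidl (u i s) R hRp
        rw [Real.norm_eq_abs, abs_of_nonneg (div_nonneg h2.1 hRp.le), div_le_iff₀ hRp]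
        calc idl (u i s) R ≤ 1 / R := h2.2
          _ = 1 / R ^ 2 * R := by field_simp))
      (by
        apply ContinuousOn.intervalIntegrable
        intro x hx
        rw [uIcc_of_le hR12] at hx
        have hx0 : x ≠ 0 := (lt_of_lt_of_le hR1pos hx.1).ne'
        apply ContinuousAt.continuousWithinAt
        have : x ^ 2 ≠ 0 := pow_ne_zero 2 hx0
        fun_prop (disch := assumption))
    rw [Real.norm_eq_abs] at h1
    exact h1.trans (int_inv_sq R1 R2 hR1pos hR12)
  -- class 3
  have hcl3 : ∀ i : {i // ¬ Nr κ0 a b (u i) (r i)}, |J i| ≤ W * D * (C5 * R2 / r i ^ 2) := by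
    intro i
    have hr := hrp i
    apply hgen _ _ (by positivity)
    intro s hs
    have h1 := intervalIntegral.norm_integral_le_of_norm_le_const (a := R1) (b := R2)
      (f := fun R => idl (u i s) R / R) (C := C5 / r i ^ 2) (by
        intro R hR
        rw [uIoc_of_le hR12] at hR
        have hRp : 0 < R := by linarith [hR.1]
        have h2 := hidl (u i s) R hRp
        have h3 := (hnon (Φ i) (u i) (v i) (r i) (hS i) i.2 R (by linarith [hR.1]) s hs).2.2
        rw [Real.norm_eq_abs, abs_of_nonneg (div_nonneg h2.1 hRp.le), div_le_iff₀ hRp]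
        calc _ ≤ _ := h3
          _ = _ := by ring)
    rw [Real.norm_eq_abs] at h1
    refine h1.trans ?_
    rw [abs_of_nonneg (by linarith)]
    calc C5 / r i ^ 2 * (R2 - R1) ≤ C5 / r i ^ 2 * R2 :=
          mul_le_mul_of_nonneg_left (by linarith) (by positivity)
      _ = _ := by ring
  -- class 1
  have hcl1 : ∀ i : {i // ¬ Nr κ0 a b (u i) (r i)}, M * R1 ≤ r i → r i ≤ R2 / M →
      (P * c7 / 2) * (1 / r i) ≤ J i := by
    intro i hi1 hi2
    have hr := hrp i
    have hune : ∀ s ∈ Icc (al a b) (be a b), u i s ≠ 0 := by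
      intro s hs h0
      have := hub i s hs
      rw [h0, abs_zero] at this
      have : 0 < c' * r i := by positivity
      linarith
    have huc := ucont hA (hS i)
    have hg := gcont (u i) _ _ hle huc hune R1 R2 hR1pos hR12
    have hi1' : IntervalIntegrable (fun s => w s * ∫ R in R1..R2, idl (u i s) R / R) volume
        (al a b) (be a b) := by
      apply ContinuousOn.intervalIntegrable
      rw [uIcc_of_le hle]
      exact hwc.mul hg
    have habs : ContinuousOn (fun s => w s / |u i s|) (Icc (al a b) (be a b)) :=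
      hwc.div huc.abs (fun s hs => abs_ne_zero.mpr (hune s hs))
    have hi2' : IntervalIntegrable (fun s => P * (w s / |u i s|)) volume
        (al a b) (be a b) := by
      apply ContinuousOn.intervalIntegrable
      rw [uIcc_of_le hle]
      exact continuousOn_const.mul habs
    have hdiff : J i - P * ∫ s in (al a b)..(be a b), w s / |u i s| =
        ∫ s in (al a b)..(be a b), w s * ((∫ R in R1..R2, idl (u i s) R / R) - P / |u i s|) := by
      rw [hJ, ← intervalIntegral.integral_const_mul, ← intervalIntegral.integral_sub hi1' hi2']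
      apply intervalIntegral.integral_congr
      intro s _
      simp only
      ring
    have herr := hgen (fun s => (∫ R in R1..R2, idl (u i s) R / R) - P / |u i s|)
      ((1 / c' ^ 2 + 1) * (1 / (M * r i))) (by positivity) (by
        intro s hs
        refine (hpsi (u i s) (hune s hs) R1 R2 hR1pos hR12).trans ?_
        have h1 : (c' * r i) ^ 2 ≤ u i s ^ 2 := by
          rw [← sq_abs (u i s)]
          exact pow_le_pow_left₀ (by positivity) (hub i s hs).le 2
        have h2 : R1 / u i s ^ 2 ≤ R1 / (c' * r i) ^ 2 :=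
          div_le_div_of_nonneg_left hR1pos.le (by positivity) h1
        have h3 : R1 / (c' * r i) ^ 2 ≤ 1 / c' ^ 2 * (1 / (M * r i)) := by
          have : R1 / (c' * r i) ^ 2 = 1 / c' ^ 2 * (R1 / r i ^ 2) := by
            field_simp
          rw [this]
          apply mul_le_mul_of_nonneg_left _ (by positivity)
          rw [div_le_div_iff₀ (by positivity) (by positivity)]
          nlinarith
        have h4 : 1 / R2 ≤ 1 / (M * r i) := by
          apply div_le_div_of_nonneg_left (by norm_num) (by positivity)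
          rw [le_div_iff₀ hMpos] at hi2
          linarith
        calc R1 / u i s ^ 2 + 1 / R2 ≤ 1 / c' ^ 2 * (1 / (M * r i)) + 1 / (M * r i) := by linarith
          _ = _ := by ring)
    rw [← hdiff] at herr
    have h5 := hconv (Φ i) (u i) (v i) (r i) (hS i) i.2
    have h6 : W * D * ((1 / c' ^ 2 + 1) * (1 / (M * r i))) = B / M * (1 / r i) := by
      rw [hB]; field_simp
    rw [h6] at herr
    have h7 : B / M * (1 / r i) ≤ P * c7 / 2 * (1 / r i) :=
      mul_le_mul_of_nonneg_right hM2 (by positivity)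
    have h8 : P * (c7 / r i) ≤ P * ∫ s in (al a b)..(be a b), w s / |u i s| :=
      mul_le_mul_of_nonneg_left h5 hP0.le
    have h9 := (abs_le.mp herr).1
    have h10 : P * (c7 / r i) = P * c7 * (1 / r i) := by ring
    nlinarith
  -- the finite sums
  classical
  set F' : Finset {i // ¬ Nr κ0 a b (u i) (r i)} := F.subtype (fun i => ¬ Nr κ0 a b (u i) (r i))
    with hF'
  have hFF : ∑ i ∈ F, 1 / r i = ∑ i ∈ F', 1 / r i := by
    rw [hF', Finset.sum_subtype_of_mem (fun i => 1 / r i) (fun i hi => (hF i hi).1)]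
  have hF'm : ∀ i ∈ F', M * R1 ≤ r i ∧ r i ≤ R2 / M := by
    intro i hi
    rw [hF', Finset.mem_subtype] at hi
    exact (hF i hi).2
  have hcard : ∀ S : Finset {i // ¬ Nr κ0 a b (u i) (r i)}, (∀ i ∈ S, r i ≤ M * R1) →
      (S.card : ℝ) ≤ Cn * (M * R1) := by
    intro S hSS
    have h1 := hcnt (M * R1) (by nlinarith) (S.map (Function.Embedding.subtype _)) (by
      intro i hi
      rw [Finset.mem_map] at hi
      obtain ⟨j, hj, rfl⟩ := hi
      exact hSS j hj)
    rwa [Finset.card_map] at h1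
  have hs2 : ∀ S : Finset {i // ¬ Nr κ0 a b (u i) (r i)}, (∀ i ∈ S, R2 / M < r i) →
      ∑ i ∈ S, 1 / r i ^ 2 ≤ 8 * Cn / (R2 / M) := by
    intro S hSS
    have h1 := hsum (R2 / M) (by rw [ge_iff_le, le_div_iff₀ hMpos]; linarith)
      (S.map (Function.Embedding.subtype _)) (by
      intro i hi
      rw [Finset.mem_map] at hi
      obtain ⟨j, hj, rfl⟩ := hi
      exact hSS j hj)
    rwa [Finset.sum_map] at h1
  have hkey : ∀ S : Finset {i // ¬ Nr κ0 a b (u i) (r i)}, F' ⊆ S →
      (P * c7 / 2) * ∑ i ∈ F', 1 / r i - K0 ≤ ∑ i ∈ S, J i := by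
    intro S hFS
    set S2 := S.filter (fun i : {i // ¬ Nr κ0 a b (u i) (r i)} => r i < M * R1) with hS2
    set S' := S.filter (fun i : {i // ¬ Nr κ0 a b (u i) (r i)} => ¬ r i < M * R1) with hS'
    set S3 := S'.filter (fun i : {i // ¬ Nr κ0 a b (u i) (r i)} => R2 / M < r i) with hS3
    set S1 := S'.filter (fun i : {i // ¬ Nr κ0 a b (u i) (r i)} => ¬ R2 / M < r i) with hS1
    have e1 : ∑ i ∈ S, J i = ∑ i ∈ S2, J i + ∑ i ∈ S', J i := by
      rw [hS2, hS']
      exact (Finset.sum_filter_add_sum_filter_not S _ _).symm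
    have e2 : ∑ i ∈ S', J i = ∑ i ∈ S3, J i + ∑ i ∈ S1, J i := by
      rw [hS3, hS1]
      exact (Finset.sum_filter_add_sum_filter_not S' _ _).symm
    have b2 : -(W * D * Cn * M) ≤ ∑ i ∈ S2, J i := by
      have h1 : |∑ i ∈ S2, J i| ≤ ∑ i ∈ S2, W * D * (1 / R1) :=
        (Finset.abs_sum_le_sum_abs _ _).trans (Finset.sum_le_sum (fun i _ => hcl2 i))
      rw [Finset.sum_const, nsmul_eq_mul] at h1
      have h2 := hcard S2 (fun i hi => by
        rw [hS2, Finset.mem_filter] at hi; exact hi.2.le)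
      have h3 : (S2.card : ℝ) * (W * D * (1 / R1)) ≤ Cn * (M * R1) * (W * D * (1 / R1)) :=
        mul_le_mul_of_nonneg_right h2 (by positivity)
      have h4 : Cn * (M * R1) * (W * D * (1 / R1)) = W * D * Cn * M := by field_simp
      rw [h4] at h3
      have := (abs_le.mp (h1.trans h3)).1
      exact this
    have b3 : -(8 * (W * D * C5 * Cn * M)) ≤ ∑ i ∈ S3, J i := by
      have h1 : |∑ i ∈ S3, J i| ≤ ∑ i ∈ S3, W * D * (C5 * R2 / r i ^ 2) :=
        (Finset.abs_sum_le_sum_abs _ _).trans (Finset.sum_le_sum (fun i _ => hcl3 i))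
      have h2 : ∑ i ∈ S3, W * D * (C5 * R2 / r i ^ 2) =
          W * D * C5 * R2 * ∑ i ∈ S3, 1 / r i ^ 2 := by
        rw [Finset.mul_sum]
        apply Finset.sum_congr rfl
        intro i _
        ring
      have h3 := hs2 S3 (fun i hi => by
        rw [hS3, Finset.mem_filter] at hi; exact hi.2)
      have h4 : W * D * C5 * R2 * ∑ i ∈ S3, 1 / r i ^ 2 ≤
          W * D * C5 * R2 * (8 * Cn / (R2 / M)) :=
        mul_le_mul_of_nonneg_left h3 (by positivity)
      have h5 : W * D * C5 * R2 * (8 * Cn / (R2 / M)) = 8 * (W * D * C5 * Cn * M) := by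
        field_simp
      rw [h2] at h1
      rw [h5] at h4
      exact (abs_le.mp (h1.trans h4)).1
    have b1 : (P * c7 / 2) * ∑ i ∈ F', 1 / r i ≤ ∑ i ∈ S1, J i := by
      have hm1 : ∀ i ∈ S1, M * R1 ≤ r i ∧ r i ≤ R2 / M := by
        intro i hi
        rw [hS1, Finset.mem_filter, hS', Finset.mem_filter] at hi
        exact ⟨not_lt.mp hi.1.2, not_lt.mp hi.2⟩
      have hsub : F' ⊆ S1 := by
        intro i hi
        rw [hS1, Finset.mem_filter, hS', Finset.mem_filter]
        exact ⟨⟨hFS hi, not_lt.mpr (hF'm i hi).1⟩, not_lt.mpr (hF'm i hi).2⟩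
      rw [Finset.mul_sum]
      calc ∑ i ∈ F', P * c7 / 2 * (1 / r i) ≤ ∑ i ∈ S1, P * c7 / 2 * (1 / r i) :=
            Finset.sum_le_sum_of_subset_of_nonneg hsub (fun i _ _ => by
              have := hrp i
              positivity)
        _ ≤ ∑ i ∈ S1, J i := Finset.sum_le_sum (fun i hi => hcl1 i (hm1 i hi).1 (hm1 i hi).2)
    rw [e1, e2]
    linarith
  have hT : (P * c7 / 2) * ∑ i ∈ F', 1 / r i - K0 ≤ ∑' i, J i := by
    apply ge_of_tendsto hsumm.hasSum
    filter_upwards [Filter.eventually_ge_atTop F'] with S hSS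
    exact hkey S hSS
  have hT2 : ∑' i, J i ≤ ε * (P * c7 / 2) * log (R2 / R1) := (le_abs_self _).trans hts
  rw [hFF]
  have h11 : (P * c7 / 2) * ∑ i ∈ F', 1 / r i ≤ (P * c7 / 2) * (ε * log (R2 / R1)) + K0 := by
    nlinarith
  have h12 : (P * c7 / 2) * (ε * log (R2 / R1) + K0 / (P * c7 / 2)) =
      (P * c7 / 2) * (ε * log (R2 / R1)) + K0 := by
    field_simp
  exact le_of_mul_le_mul_left (by rw [h12]; exact h11) hh

end Pool.Agent.T6.H66.SC.UPR
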