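import Pool.Agent.T6.H66.SC.VDA

/-!
# Project SC, module VDB (helper82): first derivative test with a monotone derivative
-/

set_option autoImplicit false

open MeasureTheory Set Real Filter Topology

namespace Pool.Agent.T6.H66.SC.VDB

open Pool.Agent.T6.H66.SC Pool.Agent.T6.H66.SC.VDA

variable {κ0 κ1 a b : ℝ} {κ κ' : ℝ → ℝ} {Φ u v : ℝ → ℝ} {r : ℝ}

lemma total (hA : Arc κ0 κ1 a b κ κ') (hS : Sys a b κ Φ u v r) {s t m : ℝ} (hs : a ≤ s)
    (hst : s ≤ t) (ht : t ≤ b) (hm : 0 < m) (hu : ∀ x ∈ Icc s t, m ≤ |u x|)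
    (hv : (∀ x ∈ Icc s t, 0 ≤ v x) ∨ (∀ x ∈ Icc s t, v x ≤ 0)) :
    ∫ x in s..t, κ x * |v x| / u x ^ 2 ≤ 2 / m := by
  have hsub : Icc s t ⊆ Icc a b := Icc_subset_Icc hs ht
  have hu0 : ∀ x ∈ Icc s t, u x ≠ 0 := fun x hx h0 => by
    have := hu x hx
    rw [h0, abs_zero] at this
    linarith
  have c1 : ContinuousOn (fun x => -(κ x * v x) / u x ^ 2) (Icc s t) := by
    refine ContinuousOn.div ?_ (((cont_u hS).mono hsub).pow 2) fun x hx => pow_ne_zero 2 (hu0 x hx)
    exact (((cont_κ hA).mono hsub).mul ((cont_v hS).mono hsub)).neg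
  have i1 : IntervalIntegrable (fun x => -(κ x * v x) / u x ^ 2) volume s t :=
    (by rw [uIcc_of_le hst]; exact c1 : ContinuousOn _ (uIcc s t)).intervalIntegrable
  have key := intervalIntegral.integral_eq_sub_of_hasDerivAt (a := s) (b := t)
    (f := fun x => (u x)⁻¹) (f' := fun x => -(κ x * v x) / u x ^ 2)
    (fun x hx => by
      rw [uIcc_of_le hst] at hx
      exact (hS.du x (hsub hx)).inv (hu0 x hx)) i1
  have hb : ∀ x ∈ Icc s t, |(u x)⁻¹| ≤ m⁻¹ := fun x hx => by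
    rw [abs_inv]
    exact inv_anti₀ hm (hu x hx)
  have h1 := abs_le.1 (hb s (left_mem_Icc.2 hst))
  have h2 := abs_le.1 (hb t (right_mem_Icc.2 hst))
  have e2 : 2 / m = m⁻¹ + m⁻¹ := by rw [div_eq_mul_inv]; ring
  rcases hv with hv | hv
  · have e : ∫ x in s..t, κ x * |v x| / u x ^ 2 = -∫ x in s..t, -(κ x * v x) / u x ^ 2 := by
      rw [← intervalIntegral.integral_neg]
      refine intervalIntegral.integral_congr fun x hx => ?_
      rw [uIcc_of_le hst] at hx
      rw [abs_of_nonneg (hv x hx)]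
      ring
    rw [e, key, e2]
    linarith [h1.1, h1.2, h2.1, h2.2]
  · have e : ∫ x in s..t, κ x * |v x| / u x ^ 2 = ∫ x in s..t, -(κ x * v x) / u x ^ 2 := by
      refine intervalIntegral.integral_congr fun x hx => ?_
      rw [uIcc_of_le hst] at hx
      rw [abs_of_nonpos (hv x hx)]
      ring
    rw [e, key, e2]
    linarith [h1.1, h1.2, h2.1, h2.2]

end Pool.Agent.T6.H66.SC.VDB

namespace Pool.Agent.T6.H66.SC

open VDA VDB in
theorem vdb : StmVDB := by
  intro κ0 κ1 a b κ κ' hA Φ u v r hS s t m hs hst ht hm hu hv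
  have hsub : Icc s t ⊆ Icc a b := Icc_subset_Icc hs ht
  have hu0 : ∀ x ∈ Icc s t, u x ≠ 0 := fun x hx h0 => by
    have := hu x hx
    rw [h0, abs_zero] at this
    linarith
  rw [parts hA hS hs hst ht hm hu]
  have c1 : ContinuousOn (fun x => 1 / (2 * π) * (κ x * |v x| / u x ^ 2)) (Icc s t) := by
    refine continuousOn_const.mul ?_
    refine ContinuousOn.div ?_ (((cont_u hS).mono hsub).pow 2) fun x hx => pow_ne_zero 2 (hu0 x hx)
    exact ((cont_κ hA).mono hsub).mul ((cont_v hS).mono hsub).abs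
  have i1 : IntervalIntegrable (fun x => 1 / (2 * π) * (κ x * |v x| / u x ^ 2)) volume s t :=
    (by rw [uIcc_of_le hst]; exact c1 : ContinuousOn _ (uIcc s t)).intervalIntegrable
  have h2 : ‖∫ x in s..t, (Complex.I / (2 * π)) * ((-(κ x * v x) / u x ^ 2 : ℝ) : ℂ) * E Φ x‖ ≤
      ∫ x in s..t, 1 / (2 * π) * (κ x * |v x| / u x ^ 2) := by
    refine intervalIntegral.norm_integral_le_of_norm_le hst ?_ i1
    refine Eventually.of_forall fun x hx => ?_
    have hx' : x ∈ Icc s t := ⟨hx.1.le, hx.2⟩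
    rw [norm_mul, norm_mul, norm_E, mul_one, norm_c, Complex.norm_real, Real.norm_eq_abs, abs_div,
      abs_neg, abs_mul, abs_pow, sq_abs, abs_of_pos (hA.pos.trans_le (hA.lo x (hsub hx')))]
  rw [intervalIntegral.integral_const_mul] at h2
  have h3 := total hA hS hs hst ht hm hu hv
  have h4 := bdry (Φ := Φ) hst hm hu
  have hpi : 2 ≤ π := by linarith [pi_gt_three]
  have h5 : 1 / (2 * π) * ∫ x in s..t, κ x * |v x| / u x ^ 2 ≤ 1 / (2 * π) * (2 / m) := by
    have : 0 < 1 / (2 * π) := by positivity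
    gcongr
  have e1 : 1 / (2 * π) * (2 / m) = 1 / (π * m) := by
    have := pi_pos.ne'
    field_simp
  have h6 : 1 / (π * m) ≤ 1 / (2 * m) := by
    apply one_div_le_one_div_of_le (by positivity)
    nlinarith
  have e3 : 1 / m = 1 / (2 * m) + 1 / (2 * m) := by field_simp; norm_num
  calc _ ≤ ‖hh u t * E Φ t - hh u s * E Φ s‖ + ‖∫ x in s..t, (Complex.I / (2 * π)) *
        ((-(κ x * v x) / u x ^ 2 : ℝ) : ℂ) * E Φ x‖ := norm_sub_le _ _
    _ ≤ _ := by rw [e3]; linarith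

end Pool.Agent.T6.H66.SC
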