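import Pool.Agent.T6.H66.SC.VDA
import Pool.Agent.T6.H66.SC.VDB
import Pool.Agent.T6.H66.SC.NZ
import Pool.Agent.T6.H66.SC.UPP
import Pool.Agent.T6.H66.SC.NON
import Pool.Agent.T6.H66.SC.TRV
import Pool.Agent.T6.H66.SC.CNT
import Pool.Agent.T6.H66.SC.SUM
import Pool.Agent.T6.H66.SC.TAIL
import Pool.Agent.T6.H66.SC.NSUM
import Pool.Agent.T6.H66.SC.PI
import Pool.Agent.T6.H66.SC.LWR
import Pool.Agent.T6.H66.SC.CONV
import Pool.Agent.T6.H66.SC.PSI
import Pool.Agent.T6.H66.SC.SNG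
import Pool.Agent.T6.H66.SC.AVG
import Pool.Agent.T6.H66.SC.UPR
import Pool.Agent.T6.H66.SC.CORE
import Pool.Agent.T6.H66.SC.GEB
import Pool.Agent.T6.H66.SC.MEA
import Pool.Agent.T6.H66.SC.SPC
import Pool.Agent.T6.H66.SC.LOW
import Pool.Agent.T6.H66.SC.GEO

/-!
# Project SC: assembly
-/

open MeasureTheory Set Real Filter Topology
open scoped ContDiff RealInnerProductSpace

namespace Pool.Agent.T6.H66.SC.Fin

theorem cvda : StmVDA := vda
theorem cvdb : StmVDB := vdb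
theorem cnz : StmNZ := nz
theorem clow : StmLOW := LOW.low cnz
theorem cupp : StmUPP := UPP.upp cvdb cnz
theorem cnon : StmNON := NON.non cvda
theorem ctrv : StmTRV := trv
theorem ccnt : StmCNT := CNT.cnt
theorem csum : StmSUM := SUM.sum_
theorem ctail : StmTAIL := TAIL.tail_ clow
theorem cnsum : StmNSUM := NSUM.nsum cupp ctrv ccnt ctail
theorem cpi : StmPI := PI.pi_ ctrv
theorem clwr : StmLWR := LWR.lwr cnsum cnon ctrv ccnt csum cpi
theorem csng : StmSNG := SNG.sng cnsum cnon ctrv ccnt csum cpi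
theorem cavg : StmAVG := AVG.avg csng cnon ctrv ccnt csum
theorem cupr : StmUPR := UPR.upr cavg CONV.conv PSI.psi cnon ctrv ccnt csum
theorem ccore : StmCORE := CORE.core clwr cupr
theorem cgeb : StmGEB := GEB.geb GEO.geo

/-- main theorem: no tight frame of exponentials. -/
theorem main_tf (d : ℕ) (γ : ℝ → V d) (L : ℝ) (hγ : PSCurve γ L) (p q : ℝ) (hp : 0 ≤ p)
    (hq : q ≤ L) (hc : CurvedPlanarArc γ p q) : ¬ TightFrameSpectral (arcMeasure γ L) := by
  rintro ⟨Λ, hΛ, A, hA, hfr⟩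
  have hpars := MEA.mea d γ L hγ Λ A hfr
  obtain ⟨κ0, κ1, a, b, κ, κ', hpa, hbq, harc, hsys⟩ := cgeb d γ p q hc
  have : Countable Λ := hΛ.to_subtype
  choose u v r hs using hsys
  refine ccore κ0 κ1 a b κ κ' harc Λ (A * L) (fun l s => ⟪(l : V d), γ s⟫)
    (fun l => u l) (fun l => v l) (fun l => r l) (mul_pos hA hγ.pos) (fun l => hs l) ?_
  intro s t hs1 hst ht
  exact hpars s t (by linarith [harc.hab]) hst (by linarith [harc.hab])

theorem main_both (d : ℕ) (γ : ℝ → V d) (L : ℝ) (hγ : PSCurve γ L) (p q : ℝ) (hp : 0 ≤ p)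
    (hq : q ≤ L) (hc : CurvedPlanarArc γ p q) :
    ¬ TightFrameSpectral (arcMeasure γ L) ∧ ¬ Spectral (arcMeasure γ L) :=
  ⟨main_tf d γ L hγ p q hp hq hc,
    fun h => main_tf d γ L hγ p q hp hq hc (SPC.spc d γ L hγ h)⟩

/-- a plane curve that is not polygonal has a curved planar arc. -/
theorem plane_arc (γ : ℝ → V 2) (L : ℝ) (hγ : PSCurve γ L) (hn : ¬ Polygonal γ L) :
    ∃ p q, 0 ≤ p ∧ q ≤ L ∧ CurvedPlanarArc γ p q := by
  obtain ⟨n, t, h0, hL, ht⟩ := hγ.pieces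
  have hmono : ∀ i ≤ n, 0 ≤ t i := by
    intro i hi
    induction i with
    | zero => simp [h0]
    | succ k ih => exact (ih (by omega)).trans (ht k (by omega)).1.le
  have hmono' : ∀ j i, i + j = n → t i ≤ L := by
    intro j
    induction j with
    | zero => intro i hi; simp at hi; subst hi; exact hL.le
    | succ k ih =>
      intro i hi
      exact (ht i (by omega)).1.le.trans (ih (i + 1) (by omega))
  by_contra hcon
  apply hn
  refine ⟨n, t, h0, hL, fun i hi => ⟨(ht i hi).1.le, ?_⟩⟩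
  by_contra hna
  apply hcon
  refine ⟨t i, t (i + 1), hmono i hi.le, hmono' (n - (i + 1)) (i + 1) (by omega), (ht i hi).1,
    (ht i hi).2.1, (ht i hi).2.2, ?_, hna⟩
  refine ⟨0, EuclideanSpace.single 0 1, EuclideanSpace.single 1 1, by simp, by simp, ?_, ?_⟩
  · simp [EuclideanSpace.inner_single_left]
  intro s _
  refine ⟨γ s 0, γ s 1, ?_⟩
  ext k
  fin_cases k <;> simp

theorem main_plane (γ : ℝ → V 2) (L : ℝ) (hγ : PSCurve γ L) (hn : ¬ Polygonal γ L) :
    ¬ TightFrameSpectral (arcMeasure γ L) ∧ ¬ Spectral (arcMeasure γ L) := by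
  obtain ⟨p, q, hp, hq, hc⟩ := plane_arc γ L hγ hn
  exact main_both 2 γ L hγ p q hp hq hc

end Pool.Agent.T6.H66.SC.Fin
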