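import Pool.Agent.T6.H66.SC.UPR

open MeasureTheory Set Real Filter Topology

namespace Pool.Agent.T6.H66.SC.SNG
open Pool.Agent.T6.H66.SC Pool.Agent.T6.H66.SC.UPR

theorem abs_tsum_le_of {β : Type} {f : β → ℝ} (hf : Summable f) (K : ℝ)
    (h : ∀ S : Finset β, |∑ i ∈ S, f i| ≤ K) : |∑' i, f i| ≤ K := by
  have h1 : Tendsto (fun S : Finset β => |∑ i ∈ S, f i|) atTop (𝓝 |∑' i, f i|) :=
    (continuous_abs.tendsto _).comp hf.hasSum
  exact le_of_tendsto h1 (Filter.Eventually.of_forall h)

theorem sng (hNSUM : StmNSUM) (hNON : StmNON) (hTRV : StmTRV) (hCNT : StmCNT) (hSUM : StmSUM)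
    (hPI : StmPI) : StmSNG := by
  intro κ0 κ1 a b κ κ' hA ι _ A Φ u v r hApos hS hP w hwc hw0 ε hε
  obtain ⟨C5, hC5, R5, hR5, hnon⟩ := hNON κ0 κ1 a b κ κ' hA
  obtain ⟨Cn, hCn, ρ, hρ, hcnt⟩ := hCNT κ0 κ1 a b κ κ' hA ι A Φ u v r hApos hS hP
  have hsum := hSUM ι r Cn ρ hCn hρ hcnt
  have hidl := (hTRV κ0 κ1 a b κ κ' hA).2
  have htrv := (hTRV κ0 κ1 a b κ κ' hA).1
  obtain ⟨W0, hW0⟩ := isCompact_Icc.exists_bound_of_continuousOn hwc
  set W := max W0 1 with hWdef
  have hW1 : 1 ≤ W := le_max_right _ _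
  have hWpos : 0 < W := by linarith
  have hW : ∀ s ∈ Icc (al a b) (be a b), |w s| ≤ W := fun s hs =>
    (by simpa using hW0 s hs : |w s| ≤ W0).trans (le_max_left _ _)
  have hab := hA.hab
  set D := be a b - al a b with hD
  have hDpos : 0 < D := by rw [hD]; unfold al be; linarith
  have hle : al a b ≤ be a b := by linarith
  obtain ⟨Rn, hRn, hnsum⟩ := hNSUM κ0 κ1 a b κ κ' hA ι A Φ u v r hApos hS hP (ε / (4 * W))
    (by positivity)
  set M := max 1 (64 * (W * D * C5 * Cn) / ε) with hM
  have hM1 : 1 ≤ M := le_max_left _ _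
  have hMpos : 0 < M := by linarith
  have hM2 : 16 * (W * D * C5 * Cn) / M ≤ ε / 4 := by
    rw [div_le_iff₀ hMpos]
    have h1 : 64 * (W * D * C5 * Cn) / ε ≤ M := le_max_right _ _
    rw [div_le_iff₀ hε] at h1
    nlinarith
  set R0 := max (max R5 Rn) (max (4 / (b - a)) (max ρ (4 * (W * D * C5 * Cn * M ^ 2) / ε))) with hR0
  refine ⟨R0, le_trans hR5 (le_trans (le_max_left _ _) (le_max_left _ _)), ?_⟩
  intro R hR
  have hR5' : R5 ≤ R := le_trans (le_trans (le_max_left _ _) (le_max_left _ _)) hR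
  have hRn' : Rn ≤ R := le_trans (le_trans (le_max_right _ _) (le_max_left _ _)) hR
  have hRab : 4 / (b - a) ≤ R := le_trans (le_trans (le_max_left _ _) (le_max_right _ _)) hR
  have hRρ : ρ ≤ R := le_trans (le_trans (le_trans (le_max_left _ _) (le_max_right _ _))
    (le_max_right _ _)) hR
  have hRM : 4 * (W * D * C5 * Cn * M ^ 2) / ε ≤ R := le_trans (le_trans (le_trans (le_max_right _ _)
    (le_max_right _ _)) (le_max_right _ _)) hR
  have hRpos : 0 < R := by linarith
  have hM3 : W * D * C5 * Cn * M ^ 2 / R ≤ ε / 4 := by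
    rw [div_le_iff₀ hRpos]
    rw [div_le_iff₀ hε] at hRM
    nlinarith
  -- generic bound
  have hgen : ∀ (g : ℝ → ℝ) (T : ℝ), 0 ≤ T → (∀ s ∈ Icc (al a b) (be a b), |g s| ≤ T) →
      |∫ s in (al a b)..(be a b), w s * g s| ≤ W * D * T := by
    intro g T hT hg
    have := intervalIntegral.norm_integral_le_of_norm_le_const (a := al a b) (b := be a b)
      (f := fun s => w s * g s) (C := W * T) (by
        intro s hs
        rw [uIoc_of_le hle] at hs
        have hs' : s ∈ Icc (al a b) (be a b) := ⟨hs.1.le, hs.2⟩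
        rw [norm_mul]
        exact mul_le_mul (hW s hs') (hg s hs') (norm_nonneg _) (by linarith))
    rw [Real.norm_eq_abs] at this
    rw [abs_of_pos (show 0 < be a b - al a b from hDpos)] at this
    rw [← hD] at this
    calc _ ≤ W * T * D := this
      _ = _ := by ring
  set I : {i // ¬ Nr κ0 a b (u i) (r i)} → ℝ := fun i =>
        ∫ s in (al a b)..(be a b), w s * idl (u i s) R with hI
  set T : ι → ℝ := fun i => ∫ s in (al a b)..(be a b), w s * cR (Φ i) R s with hT
  have hTsum : HasSum T (A * ∫ s in (al a b)..(be a b), w s) :=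
    hPI κ0 κ1 a b κ κ' hA ι A Φ u v r hApos hS hP w hwc R hRab hRpos
  rw [hw0, mul_zero] at hTsum
  have hrp : ∀ i : {i // ¬ Nr κ0 a b (u i) (r i)}, 0 < r i := fun i => rpos hA (hS i) i.2
  have hub : ∀ i : {i // ¬ Nr κ0 a b (u i) (r i)}, ∀ s ∈ Icc (al a b) (be a b),
      u i s ≠ 0 := by
    intro i s hs h0
    have h1 := ubig i.2 s hs
    rw [h0, abs_zero] at h1
    have h2 := hA.pos
    have h3 : 0 < b - a := by linarith
    have h4 := hrp i
    have : 0 < κ0 * (b - a) / 8 * r i := by positivity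
    linarith
  have hI1 : ∀ i, |I i| ≤ W * D * (1 / R) := by
    intro i
    apply hgen _ _ (by positivity)
    intro s _
    have := hidl (u i s) R hRpos
    rw [abs_of_nonneg this.1]; exact this.2
  have hI2 : ∀ i : {i // ¬ Nr κ0 a b (u i) (r i)}, |I i| ≤ W * D * (C5 * R / r i ^ 2) := by
    intro i
    have := hrp i
    apply hgen _ _ (by positivity)
    intro s hs
    have h1 := hidl (u i s) R hRpos
    rw [abs_of_nonneg h1.1]
    exact (hnon (Φ i) (u i) (v i) (r i) (hS i) i.2 R hR5' s hs).2.2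
  have hdif : ∀ i : {i // ¬ Nr κ0 a b (u i) (r i)}, T i - I i =
      ∫ s in (al a b)..(be a b), w s * (cR (Φ i) R s - idl (u i s) R) := by
    intro i
    have h1 : IntervalIntegrable (fun s => w s * cR (Φ i) R s) volume (al a b) (be a b) := by
      apply ContinuousOn.intervalIntegrable
      rw [uIcc_of_le hle]
      exact hwc.mul (htrv (Φ i) (u i) (v i) (r i) (hS i) R hRab hRpos).2
    have h2 : IntervalIntegrable (fun s => w s * idl (u i s) R) volume (al a b) (be a b) := by
      apply ContinuousOn.intervalIntegrable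
      rw [uIcc_of_le hle]
      refine hwc.mul ?_
      unfold idl
      have huc := ucont hA (hS i)
      have h3 : ContinuousOn (fun s => sin (π * u i s / R)) (Icc (al a b) (be a b)) :=
        continuous_sin.comp_continuousOn ((continuousOn_const.mul huc).div_const R)
      have h4 : ContinuousOn (fun s => π * u i s) (Icc (al a b) (be a b)) :=
        continuousOn_const.mul huc
      exact continuousOn_const.mul ((h3.div h4 (fun s hs =>
        mul_ne_zero pi_ne_zero (hub i s hs))).pow 2)
    rw [hT, hI]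
    simp only
    rw [← intervalIntegral.integral_sub h1 h2]
    apply intervalIntegral.integral_congr
    intro s _
    simp only
    ring
  have hd1 : ∀ i : {i // ¬ Nr κ0 a b (u i) (r i)}, |T i - I i| ≤ W * D * (C5 * r i / R ^ 3) := by
    intro i
    have := hrp i
    rw [hdif i]
    apply hgen _ _ (by positivity)
    intro s hs
    exact (hnon (Φ i) (u i) (v i) (r i) (hS i) i.2 R hR5' s hs).2.1
  have hd2 : ∀ i : {i // ¬ Nr κ0 a b (u i) (r i)},
      |T i - I i| ≤ W * D * (C5 * R / r i ^ 2) := by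
    intro i
    have := hrp i
    rw [hdif i]
    apply hgen _ _ (by positivity)
    intro s hs
    have h1 := hnon (Φ i) (u i) (v i) (r i) (hS i) i.2 R hR5' s hs
    have h2 := (htrv (Φ i) (u i) (v i) (r i) (hS i) R hRab hRpos).1 s hs
    have h3 := hidl (u i s) R hRpos
    rw [abs_le]
    constructor
    · linarith [h1.2.2, h2.1]
    · linarith [h1.1, h3.1]
  have hcard : ∀ x ≥ ρ, ∀ S : Finset {i // ¬ Nr κ0 a b (u i) (r i)}, (∀ i ∈ S, r i ≤ x) →
      (S.card : ℝ) ≤ Cn * x := by
    intro x hx S hSS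
    have h1 := hcnt x hx (S.map (Function.Embedding.subtype _)) (by
      intro i hi
      rw [Finset.mem_map] at hi
      obtain ⟨j, hj, rfl⟩ := hi
      exact hSS j hj)
    rwa [Finset.card_map] at h1
  have hs2 : ∀ x ≥ ρ, ∀ S : Finset {i // ¬ Nr κ0 a b (u i) (r i)}, (∀ i ∈ S, x < r i) →
      ∑ i ∈ S, 1 / r i ^ 2 ≤ 8 * Cn / x := by
    intro x hx S hSS
    have h1 := hsum x hx
      (S.map (Function.Embedding.subtype _)) (by
      intro i hi
      rw [Finset.mem_map] at hi
      obtain ⟨j, hj, rfl⟩ := hi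
      exact hSS j hj)
    rwa [Finset.sum_map] at h1
  classical
  -- summability of I
  have hIs : Summable I := by
    apply Summable.of_abs
    apply summable_of_sum_le (c := Cn * R * (W * D * (1 / R)) + W * D * C5 * R * (8 * Cn / R))
    · intro i; positivity
    · intro S
      rw [← Finset.sum_filter_add_sum_filter_not S
        (fun i : {i // ¬ Nr κ0 a b (u i) (r i)} => r i ≤ R)]
      apply add_le_add
      · calc _ ≤ ∑ i ∈ S.filter (fun i : {i // ¬ Nr κ0 a b (u i) (r i)} => r i ≤ R),
              W * D * (1 / R) := Finset.sum_le_sum (fun i _ => hI1 i)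
          _ = ((S.filter (fun i : {i // ¬ Nr κ0 a b (u i) (r i)} => r i ≤ R)).card : ℝ) *
              (W * D * (1 / R)) := by rw [Finset.sum_const, nsmul_eq_mul]
          _ ≤ _ := mul_le_mul_of_nonneg_right (hcard R hRρ _ (fun i hi =>
              (Finset.mem_filter.mp hi).2)) (by positivity)
      · calc _ ≤ ∑ i ∈ S.filter (fun i : {i // ¬ Nr κ0 a b (u i) (r i)} => ¬ r i ≤ R),
              W * D * (C5 * R / r i ^ 2) := Finset.sum_le_sum (fun i _ => hI2 i)
          _ = W * D * C5 * R * ∑ i ∈ S.filter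
              (fun i : {i // ¬ Nr κ0 a b (u i) (r i)} => ¬ r i ≤ R), 1 / r i ^ 2 := by
              rw [Finset.mul_sum]
              apply Finset.sum_congr rfl
              intro i _
              ring
          _ ≤ _ := mul_le_mul_of_nonneg_left (hs2 R hRρ _ (fun i hi =>
              not_le.mp (Finset.mem_filter.mp hi).2)) (by positivity)
  refine ⟨hIs, ?_⟩
  have hTs : Summable T := hTsum.summable
  have hTs1 : Summable (fun i : {i // ¬ Nr κ0 a b (u i) (r i)} => T i) :=
    hTs.subtype {i | ¬ Nr κ0 a b (u i) (r i)}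
  have hTs2 : Summable (fun i : {i // Nr κ0 a b (u i) (r i)} => T i) :=
    hTs.subtype {i | Nr κ0 a b (u i) (r i)}
  have hsplit : (∑' i : {i // Nr κ0 a b (u i) (r i)}, T i) +
      (∑' i : {i // ¬ Nr κ0 a b (u i) (r i)}, T i) = 0 := by
    have h1 := hTs.tsum_subtype_add_tsum_subtype_compl {i | Nr κ0 a b (u i) (r i)}
    rw [hTsum.tsum_eq] at h1
    exact h1
  have hN : |∑' i : {i // Nr κ0 a b (u i) (r i)}, T i| ≤ ε / 4 := by
    apply abs_tsum_le_of hTs2
    intro S
    have h1 : ∀ i : {i // Nr κ0 a b (u i) (r i)}, |T i| ≤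
        W * ∫ s in (al a b)..(be a b), cR (Φ i) R s := by
      intro i
      have h2 := htrv (Φ i) (u i) (v i) (r i) (hS i) R hRab hRpos
      have h3 : IntervalIntegrable (fun s => W * cR (Φ i) R s) volume (al a b) (be a b) := by
        apply ContinuousOn.intervalIntegrable
        rw [uIcc_of_le hle]
        exact continuousOn_const.mul h2.2
      rw [← intervalIntegral.integral_const_mul]
      rw [← Real.norm_eq_abs]
      apply intervalIntegral.norm_integral_le_of_norm_le hle _ h3
      apply Filter.Eventually.of_forall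
      intro s hs
      have hs' : s ∈ Icc (al a b) (be a b) := ⟨hs.1.le, hs.2⟩
      rw [norm_mul, Real.norm_eq_abs, Real.norm_eq_abs, abs_of_nonneg (h2.1 s hs').1]
      exact mul_le_mul_of_nonneg_right (hW s hs') (h2.1 s hs').1
    have h4 := hnsum R hRn' (S.map (Function.Embedding.subtype _)) (by
      intro i hi
      rw [Finset.mem_map] at hi
      obtain ⟨j, hj, rfl⟩ := hi
      exact j.2)
    rw [Finset.sum_map] at h4
    calc |∑ i ∈ S, T i| ≤ ∑ i ∈ S, |T i| := Finset.abs_sum_le_sum_abs _ _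
      _ ≤ ∑ i ∈ S, W * ∫ s in (al a b)..(be a b), cR (Φ i) R s :=
          Finset.sum_le_sum (fun i _ => h1 i)
      _ = W * ∑ i ∈ S, ∫ s in (al a b)..(be a b), cR (Φ i) R s := by rw [Finset.mul_sum]
      _ ≤ W * (ε / (4 * W)) := mul_le_mul_of_nonneg_left h4 hWpos.le
      _ = ε / 4 := by field_simp
  have hDd : |∑' i : {i // ¬ Nr κ0 a b (u i) (r i)}, (T i - I i)| ≤ ε / 2 := by
    apply abs_tsum_le_of (hTs1.sub hIs)
    intro S
    refine (Finset.abs_sum_le_sum_abs _ _).trans ?_
    rw [← Finset.sum_filter_add_sum_filter_not S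
        (fun i : {i // ¬ Nr κ0 a b (u i) (r i)} => r i ≤ M * R)]
    have hMR : ρ ≤ M * R := by nlinarith
    have p1 : ∑ i ∈ S.filter (fun i : {i // ¬ Nr κ0 a b (u i) (r i)} => r i ≤ M * R),
        |T i - I i| ≤ ε / 4 := by
      calc _ ≤ ∑ i ∈ S.filter (fun i : {i // ¬ Nr κ0 a b (u i) (r i)} => r i ≤ M * R),
              W * D * (C5 * (M * R) / R ^ 3) := Finset.sum_le_sum (fun i hi => by
                refine (hd1 i).trans ?_
                have h5 := (Finset.mem_filter.mp hi).2
                apply mul_le_mul_of_nonneg_left _ (by positivity)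
                apply div_le_div_of_nonneg_right _ (by positivity)
                exact mul_le_mul_of_nonneg_left h5 hC5.le)
          _ = ((S.filter (fun i : {i // ¬ Nr κ0 a b (u i) (r i)} => r i ≤ M * R)).card : ℝ) *
              (W * D * (C5 * (M * R) / R ^ 3)) := by rw [Finset.sum_const, nsmul_eq_mul]
          _ ≤ Cn * (M * R) * (W * D * (C5 * (M * R) / R ^ 3)) :=
              mul_le_mul_of_nonneg_right (hcard (M * R) hMR _ (fun i hi =>
              (Finset.mem_filter.mp hi).2)) (by positivity)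
          _ = W * D * C5 * Cn * M ^ 2 / R := by field_simp
          _ ≤ ε / 4 := hM3
    have p2 : ∑ i ∈ S.filter (fun i : {i // ¬ Nr κ0 a b (u i) (r i)} => ¬ r i ≤ M * R),
        |T i - I i| ≤ ε / 4 := by
      calc _ ≤ ∑ i ∈ S.filter (fun i : {i // ¬ Nr κ0 a b (u i) (r i)} => ¬ r i ≤ M * R),
              W * D * (C5 * R / r i ^ 2) := Finset.sum_le_sum (fun i _ => hd2 i)
          _ = W * D * C5 * R * ∑ i ∈ S.filter
              (fun i : {i // ¬ Nr κ0 a b (u i) (r i)} => ¬ r i ≤ M * R), 1 / r i ^ 2 := by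
              rw [Finset.mul_sum]
              apply Finset.sum_congr rfl
              intro i _
              ring
          _ ≤ W * D * C5 * R * (8 * Cn / (M * R)) :=
              mul_le_mul_of_nonneg_left (hs2 (M * R) hMR _ (fun i hi =>
              not_le.mp (Finset.mem_filter.mp hi).2)) (by positivity)
          _ = (1 / 2) * (16 * (W * D * C5 * Cn) / M) := by field_simp; ring
          _ ≤ ε / 4 := by linarith
    linarith
  have hfin : (∑' i : {i // ¬ Nr κ0 a b (u i) (r i)}, I i) =
      -(∑' i : {i // Nr κ0 a b (u i) (r i)}, T i) -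
      ∑' i : {i // ¬ Nr κ0 a b (u i) (r i)}, (T i - I i) := by
    rw [hTs1.tsum_sub hIs]
    linarith
  rw [hfin]
  calc _ ≤ |∑' i : {i // Nr κ0 a b (u i) (r i)}, T i| +
      |∑' i : {i // ¬ Nr κ0 a b (u i) (r i)}, (T i - I i)| := by
        refine (abs_sub _ _).trans ?_
        rw [abs_neg]
    _ ≤ ε := by linarith

end Pool.Agent.T6.H66.SC.SNG
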