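import Pool.Agent.T6.H66.SC.Defs

/-!
# Project SC, module VDA (helper82): first derivative test
-/

set_option autoImplicit false

open MeasureTheory Set Real Filter Topology

namespace Pool.Agent.T6.H66.SC.VDA

open Pool.Agent.T6.H66.SC

lemma norm_E (Φ : ℝ → ℝ) (x : ℝ) : ‖E Φ x‖ = 1 := by
  unfold E
  exact Complex.norm_exp_ofReal_mul_I _

lemma E_der {Φ u : ℝ → ℝ} {x : ℝ} (h : HasDerivAt Φ (u x) x) :
    HasDerivAt (E Φ) (E Φ x * (((-(2 * π * u x) : ℝ) : ℂ) * Complex.I)) x := by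
  unfold E
  have h1 : HasDerivAt (fun y => -(2 * π * Φ y)) (-(2 * π * u x)) x := (h.const_mul (2 * π)).neg
  exact (h1.ofReal_comp.mul_const Complex.I).cexp

/-- `1 / (-2 π i u)` -/
noncomputable def hh (u : ℝ → ℝ) (x : ℝ) : ℂ := (Complex.I / (2 * π)) * (((u x)⁻¹ : ℝ) : ℂ)

lemma hh_der {u : ℝ → ℝ} {x d : ℝ} (h : HasDerivAt u d x) (hx : u x ≠ 0) :
    HasDerivAt (hh u) ((Complex.I / (2 * π)) * ((-d / u x ^ 2 : ℝ) : ℂ)) x := by
  unfold hh
  exact (h.inv hx).ofReal_comp.const_mul _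

lemma norm_c : ‖Complex.I / (2 * (π : ℂ))‖ = 1 / (2 * π) := by
  rw [norm_div, Complex.norm_I, norm_mul, Complex.norm_real, Real.norm_eq_abs, abs_of_pos pi_pos]
  norm_num

lemma norm_hh (u : ℝ → ℝ) (x : ℝ) : ‖hh u x‖ = 1 / (2 * π) * |u x|⁻¹ := by
  unfold hh
  rw [norm_mul, norm_c, Complex.norm_real, Real.norm_eq_abs, abs_inv]

section
variable {κ0 κ1 a b : ℝ} {κ κ' : ℝ → ℝ} {Φ u v : ℝ → ℝ} {r : ℝ}

lemma cont_κ (hA : Arc κ0 κ1 a b κ κ') : ContinuousOn κ (Icc a b) := fun x hx =>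
  (hA.der x hx).continuousAt.continuousWithinAt

lemma cont_u (hS : Sys a b κ Φ u v r) : ContinuousOn u (Icc a b) := fun x hx =>
  (hS.du x hx).continuousAt.continuousWithinAt

lemma cont_v (hS : Sys a b κ Φ u v r) : ContinuousOn v (Icc a b) := fun x hx =>
  (hS.dv x hx).continuousAt.continuousWithinAt

lemma cont_E (hS : Sys a b κ Φ u v r) : ContinuousOn (E Φ) (Icc a b) := fun x hx =>
  (E_der (hS.dΦ x hx)).continuousAt.continuousWithinAt

/-- integration by parts -/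
lemma parts (hA : Arc κ0 κ1 a b κ κ') (hS : Sys a b κ Φ u v r) {s t m : ℝ} (hs : a ≤ s)
    (hst : s ≤ t) (ht : t ≤ b) (hm : 0 < m) (hu : ∀ x ∈ Icc s t, m ≤ |u x|) :
    G Φ s t = hh u t * E Φ t - hh u s * E Φ s -
      ∫ x in s..t, (Complex.I / (2 * π)) * ((-(κ x * v x) / u x ^ 2 : ℝ) : ℂ) * E Φ x := by
  have hsub : Icc s t ⊆ Icc a b := Icc_subset_Icc hs ht
  have hu0 : ∀ x ∈ Icc s t, u x ≠ 0 := fun x hx h0 => by
    have := hu x hx
    rw [h0, abs_zero] at this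
    linarith
  have c1 : ContinuousOn (fun x => (Complex.I / (2 * π)) * ((-(κ x * v x) / u x ^ 2 : ℝ) : ℂ) *
      E Φ x) (Icc s t) := by
    refine ContinuousOn.mul (ContinuousOn.mul continuousOn_const ?_) ((cont_E hS).mono hsub)
    refine Complex.continuous_ofReal.comp_continuousOn ?_
    refine ContinuousOn.div ?_ (((cont_u hS).mono hsub).pow 2) fun x hx => pow_ne_zero 2 (hu0 x hx)
    exact (((cont_κ hA).mono hsub).mul ((cont_v hS).mono hsub)).neg
  have c2 : ContinuousOn (E Φ) (Icc s t) := (cont_E hS).mono hsub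
  have i1 : IntervalIntegrable (fun x => (Complex.I / (2 * π)) *
      ((-(κ x * v x) / u x ^ 2 : ℝ) : ℂ) * E Φ x) volume s t :=
    (by rw [uIcc_of_le hst]; exact c1 : ContinuousOn _ (uIcc s t)).intervalIntegrable
  have i2 : IntervalIntegrable (E Φ) volume s t :=
    (by rw [uIcc_of_le hst]; exact c2 : ContinuousOn _ (uIcc s t)).intervalIntegrable
  have key := intervalIntegral.integral_eq_sub_of_hasDerivAt (a := s) (b := t)
    (f := fun x => hh u x * E Φ x)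
    (f' := fun x => (Complex.I / (2 * π)) * ((-(κ x * v x) / u x ^ 2 : ℝ) : ℂ) * E Φ x + E Φ x)
    (fun x hx => by
      rw [uIcc_of_le hst] at hx
      have h1 := (hh_der (hS.du x (hsub hx)) (hu0 x hx)).mul (E_der (hS.dΦ x (hsub hx)))
      refine h1.congr_deriv ?_
      congr 1
      unfold hh
      have e1 : (u x : ℂ) ≠ 0 := by exact_mod_cast hu0 x hx
      have e2 : (π : ℂ) ≠ 0 := by exact_mod_cast pi_pos.ne'
      push_cast
      field_simp
      rw [Complex.I_sq]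
      ring)
    (i1.add i2)
  rw [intervalIntegral.integral_add i1 i2] at key
  unfold G
  linear_combination key

lemma v_le (hS : Sys a b κ Φ u v r) {x : ℝ} (hx : x ∈ Icc a b) : |v x| ≤ r :=
  abs_le_of_sq_le_sq (by have := hS.sq x hx; nlinarith [sq_nonneg (u x)]) hS.rnn

lemma u_le (hS : Sys a b κ Φ u v r) {x : ℝ} (hx : x ∈ Icc a b) : |u x| ≤ r :=
  abs_le_of_sq_le_sq (by have := hS.sq x hx; nlinarith [sq_nonneg (v x)]) hS.rnn


end

lemma bdry {u : ℝ → ℝ} {Φ : ℝ → ℝ} {s t m : ℝ} (hst : s ≤ t) (hm : 0 < m)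
    (hu : ∀ x ∈ Icc s t, m ≤ |u x|) : ‖hh u t * E Φ t - hh u s * E Φ s‖ ≤ 1 / (π * m) := by
  have h1 : ∀ x ∈ Icc s t, ‖hh u x * E Φ x‖ ≤ 1 / (2 * π) * m⁻¹ := fun x hx => by
    rw [norm_mul, norm_E, mul_one, norm_hh]
    gcongr
    exact hu x hx
  calc ‖hh u t * E Φ t - hh u s * E Φ s‖ ≤ ‖hh u t * E Φ t‖ + ‖hh u s * E Φ s‖ := norm_sub_le _ _
    _ ≤ 1 / (2 * π) * m⁻¹ + 1 / (2 * π) * m⁻¹ :=
        add_le_add (h1 t (right_mem_Icc.2 hst)) (h1 s (left_mem_Icc.2 hst))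
    _ = 1 / (π * m) := by
        have := pi_pos.ne'
        field_simp
        norm_num

end Pool.Agent.T6.H66.SC.VDA

namespace Pool.Agent.T6.H66.SC

open VDA in
theorem vda : StmVDA := by
  intro κ0 κ1 a b κ κ' hA Φ u v r hS s t m hs hst ht hm hu
  have hsub : Icc s t ⊆ Icc a b := Icc_subset_Icc hs ht
  have hr := hS.rnn
  rw [parts hA hS hs hst ht hm hu]
  have hκ1 : 0 ≤ κ1 := by
    have h1 := hA.lo s ⟨hs, hst.trans ht⟩
    have h2 := hA.hi s ⟨hs, hst.trans ht⟩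
    linarith [hA.pos]
  have h2 : ‖∫ x in s..t, (Complex.I / (2 * π)) * ((-(κ x * v x) / u x ^ 2 : ℝ) : ℂ) * E Φ x‖ ≤
      (1 / (2 * π) * (κ1 * r / m ^ 2)) * |t - s| := by
    refine intervalIntegral.norm_integral_le_of_norm_le_const fun x hx => ?_
    rw [uIoc_of_le hst] at hx
    have hx' : x ∈ Icc s t := ⟨hx.1.le, hx.2⟩
    rw [norm_mul, norm_mul, norm_E, mul_one, norm_c, Complex.norm_real, Real.norm_eq_abs, abs_div,
      abs_neg, abs_mul, abs_pow]
    have k1 : |κ x| ≤ κ1 := by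
      rw [abs_of_pos (hA.pos.trans_le (hA.lo x (hsub hx')))]
      exact hA.hi x (hsub hx')
    have k2 := v_le hS (hsub hx')
    have k3 := hu x hx'
    gcongr
  rw [abs_of_nonneg (by linarith : 0 ≤ t - s)] at h2
  have h3 := bdry (Φ := Φ) hst hm hu
  have hpi : 1 ≤ π := by linarith [pi_gt_three]
  have h4 : 1 / (π * m) ≤ 1 / m := by
    apply one_div_le_one_div_of_le hm
    nlinarith
  have h5 : 1 / (2 * π) * (κ1 * r / m ^ 2) * (t - s) ≤ κ1 * r * (t - s) / m ^ 2 := by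
    have e : κ1 * r * (t - s) / m ^ 2 = 1 * (κ1 * r / m ^ 2) * (t - s) := by ring
    rw [e]
    have h6 : 1 / (2 * π) ≤ 1 := by
      rw [div_le_one (by positivity)]
      linarith
    have h7 : 0 ≤ κ1 * r / m ^ 2 := by positivity
    have h8 : 0 ≤ t - s := by linarith
    gcongr
  calc _ ≤ ‖hh u t * E Φ t - hh u s * E Φ s‖ + ‖∫ x in s..t, (Complex.I / (2 * π)) *
        ((-(κ x * v x) / u x ^ 2 : ℝ) : ℂ) * E Φ x‖ := norm_sub_le _ _
    _ ≤ _ := by linarith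

end Pool.Agent.T6.H66.SC
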